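import Pool.Agent.H60MT.Defs

/-!
# Measurability of operator valued maps
-/

set_option autoImplicit false
set_option linter.all false

open scoped TensorProduct InnerProductSpace Topology
open MeasureTheory Filter

namespace Pool.Agent.H60MT

/-- The standard basis. -/
noncomputable def bas : HilbertBasis ℕ ℂ Hs := ⟨LinearIsometryEquiv.refl ℂ _⟩

instance hs_separable : TopologicalSpace.SeparableSpace Hs := by
  rw [← TopologicalSpace.isSeparable_univ_iff]
  have h1 : TopologicalSpace.IsSeparable (Set.range (bas : ℕ → Hs)) :=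
    (Set.countable_range _).isSeparable
  have h2 := (TopologicalSpace.IsSeparable.span (R := ℂ) h1).closure
  have h3 := bas.dense_span
  have h4 : closure ((Submodule.span ℂ (Set.range (bas : ℕ → Hs)) : Submodule ℂ Hs) : Set Hs)
      = Set.univ := by
    rw [← Submodule.topologicalClosure_coe, h3]
    rfl
  rwa [h4] at h2

variable {Ω : Type*} [MeasurableSpace Ω]

/-- The matrix coefficients are measurable. -/
def WM (f : Ω → BH) : Prop := ∀ x y : Hs, Measurable fun ω => ⟪y, f ω x⟫_ℂ

theorem wm_of_basis {f : Ω → BH} (h : ∀ m n, Measurable fun ω => ⟪bas m, f ω (bas n)⟫_ℂ) :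
    WM f := by
  have h1 : ∀ (x : Hs) (m : ℕ), Measurable fun ω => ⟪bas m, f ω x⟫_ℂ := by
    intro x m
    refine measurable_of_tendsto_metrizable (f := fun (N : ℕ) ω =>
      ∑ i ∈ Finset.range N, bas.repr x i * ⟪bas m, f ω (bas i)⟫_ℂ) (fun N => ?_) ?_
    · exact Finset.measurable_sum _ fun i _ => (h m i).const_mul _
    · rw [tendsto_pi_nhds]
      intro ω
      have h2 := ((bas.hasSum_repr x).mapL (f ω)).mapL (innerSL ℂ (bas m))
      have h3 := h2.tendsto_sum_nat
      simpa [inner_smul_right] using h3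
  intro x y
  refine measurable_of_tendsto_metrizable (f := fun (N : ℕ) ω =>
      ∑ i ∈ Finset.range N, ⟪y, bas i⟫_ℂ * ⟪bas i, f ω x⟫_ℂ) (fun N => ?_) ?_
  · exact Finset.measurable_sum _ fun i _ => (h1 x i).const_mul _
  · rw [tendsto_pi_nhds]
    intro ω
    exact (bas.hasSum_inner_mul_inner y (f ω x)).tendsto_sum_nat

theorem WM.add {f g : Ω → BH} (hf : WM f) (hg : WM g) : WM fun ω => f ω + g ω := by
  intro x y
  simp only [ContinuousLinearMap.add_apply, inner_add_right]
  exact (hf x y).add (hg x y)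

theorem WM.smul {f : Ω → BH} (c : ℂ) (hf : WM f) : WM fun ω => c • f ω := by
  intro x y
  simpa [inner_smul_right] using (hf x y).const_mul c

theorem WM.adj {f : Ω → BH} (hf : WM f) : WM fun ω => star (f ω) := by
  intro x y
  have : (fun ω => ⟪y, star (f ω) x⟫_ℂ) = fun ω => (starRingEnd ℂ) ⟪x, f ω y⟫_ℂ := by
    funext ω
    rw [ContinuousLinearMap.star_eq_adjoint, ContinuousLinearMap.adjoint_inner_right,
      inner_conj_symm]
  rw [this]
  exact Complex.continuous_conj.measurable.comp (hf y x)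

theorem WM.mul {f g : Ω → BH} (hf : WM f) (hg : WM g) : WM fun ω => f ω * g ω := by
  intro x y
  refine measurable_of_tendsto_metrizable (f := fun (N : ℕ) ω =>
      ∑ i ∈ Finset.range N, ⟪y, f ω (bas i)⟫_ℂ * ⟪bas i, g ω x⟫_ℂ) (fun N => ?_) ?_
  · exact Finset.measurable_sum _ fun i _ => (hf _ _).mul (hg _ _)
  · rw [tendsto_pi_nhds]
    intro ω
    have h := (bas.hasSum_inner_mul_inner (star (f ω) y) (g ω x)).tendsto_sum_nat
    simpa [ContinuousLinearMap.star_eq_adjoint, ContinuousLinearMap.adjoint_inner_left] using h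

theorem norm_le_iff (T : BH) (c : ℝ) (hc : 0 ≤ c) : ‖T‖ ≤ c ↔
    ∀ i j : ℕ, ‖⟪TopologicalSpace.denseSeq Hs j, T (TopologicalSpace.denseSeq Hs i)⟫_ℂ‖ ≤
      c * (‖TopologicalSpace.denseSeq Hs i‖ * ‖TopologicalSpace.denseSeq Hs j‖) := by
  constructor
  · intro h i j
    calc _ ≤ ‖TopologicalSpace.denseSeq Hs j‖ * ‖T (TopologicalSpace.denseSeq Hs i)‖ :=
          norm_inner_le_norm _ _
      _ ≤ ‖TopologicalSpace.denseSeq Hs j‖ * (c * ‖TopologicalSpace.denseSeq Hs i‖) := by
          gcongr
          exact T.le_of_opNorm_le h _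
      _ = _ := by ring
  · intro h
    have h1 : ∀ x y : Hs, ‖⟪y, T x⟫_ℂ‖ ≤ c * (‖x‖ * ‖y‖) := by
      have hcl : IsClosed {p : Hs × Hs | ‖⟪p.2, T p.1⟫_ℂ‖ ≤ c * (‖p.1‖ * ‖p.2‖)} := by
        refine isClosed_le ?_ ?_ <;> fun_prop
      have hd := (TopologicalSpace.denseRange_denseSeq Hs).prodMap
        (TopologicalSpace.denseRange_denseSeq Hs)
      intro x y
      have := hd.induction_on (p := fun p : Hs × Hs => ‖⟪p.2, T p.1⟫_ℂ‖ ≤ c * (‖p.1‖ * ‖p.2‖))
        (x, y) hcl (fun a => h a.1 a.2)
      exact this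
    refine T.opNorm_le_bound hc fun x => ?_
    by_cases hT : T x = 0
    · rw [hT, norm_zero]; positivity
    · have h2 := h1 x (T x)
      rw [norm_inner_eq_norm_iff (𝕜 := ℂ) hT hT |>.2 ⟨1, one_ne_zero, by simp⟩] at h2
      have h3 : 0 < ‖T x‖ := norm_pos_iff.2 hT
      have : ‖T x‖ * ‖T x‖ ≤ (c * ‖x‖) * ‖T x‖ := by linarith
      exact le_of_mul_le_mul_right this h3

theorem WM.norm {f : Ω → BH} (hf : WM f) : Measurable fun ω => ‖f ω‖ := by
  refine measurable_of_Iic fun c => ?_
  by_cases hc : 0 ≤ c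
  · have : (fun ω => ‖f ω‖) ⁻¹' Set.Iic c = ⋂ i : ℕ, ⋂ j : ℕ, {ω |
        ‖⟪TopologicalSpace.denseSeq Hs j, f ω (TopologicalSpace.denseSeq Hs i)⟫_ℂ‖ ≤
      c * (‖TopologicalSpace.denseSeq Hs i‖ * ‖TopologicalSpace.denseSeq Hs j‖)} := by
      ext ω
      simp only [Set.mem_preimage, Set.mem_Iic, Set.mem_iInter, Set.mem_setOf_eq]
      exact norm_le_iff _ _ hc
    rw [this]
    exact MeasurableSet.iInter fun i => MeasurableSet.iInter fun j =>
      measurableSet_le (hf _ _).norm measurable_const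
  · have : (fun ω => ‖f ω‖) ⁻¹' Set.Iic c = ∅ := by
      ext ω
      simp only [Set.mem_preimage, Set.mem_Iic, Set.mem_empty_iff_false, iff_false, not_le]
      exact lt_of_lt_of_le (not_le.1 hc) (norm_nonneg _)
    rw [this]
    exact MeasurableSet.empty

/-- Measurable maps for the weak Borel structure have measurable coefficients. -/
theorem wm_of_measurable {f : Ω → BH} (hf : @Measurable Ω BH _ weakBorel f) : WM f := by
  intro x y
  have h1 : @Measurable BH ℂ weakBorel _ (fun T => ⟪y, T x⟫_ℂ) := by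
    have hc : Continuous fun T : Hs →WOT[ℂ] Hs => ⟪y, T x⟫_ℂ := by fun_prop
    letI : MeasurableSpace (Hs →WOT[ℂ] Hs) := borel _
    haveI : BorelSpace (Hs →WOT[ℂ] Hs) := ⟨rfl⟩
    have h2 : Measurable fun T : Hs →WOT[ℂ] Hs => ⟪y, T x⟫_ℂ := hc.measurable
    exact h2.comp (@comap_measurable _ _ (borel (Hs →WOT[ℂ] Hs)) ContinuousLinearMapWOT.ofCLM)
  exact @Measurable.comp _ _ _ _ weakBorel _ _ _ h1 hf

/-- On bounded sets the weak operator topology is given by the coefficients. -/
theorem exists_open (U : Set (Hs →WOT[ℂ] Hs)) (hU : IsOpen U) (n : ℕ) :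
    ∃ V : Set (ℕ × ℕ → ℂ), IsOpen V ∧ ∀ T : BH, ‖T‖ ≤ n →
      (ContinuousLinearMapWOT.ofCLM T ∈ U ↔ (fun p : ℕ × ℕ => ⟪bas p.1, T (bas p.2)⟫_ℂ) ∈ V) := by
  set c : {T : BH // ‖T‖ ≤ n} → (ℕ × ℕ → ℂ) := fun T p => ⟪bas p.1, T.1 (bas p.2)⟫_ℂ with hc
  letI τ : TopologicalSpace {T : BH // ‖T‖ ≤ n} := TopologicalSpace.induced c inferInstance
  have hcont : Continuous fun T : {T : BH // ‖T‖ ≤ n} => ContinuousLinearMapWOT.ofCLM T.1 := by
    rw [ContinuousLinearMapWOT.continuous_iff]
    have hcc : Continuous c := continuous_induced_dom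
    have h0 : ∀ i j, Continuous fun T : {T : BH // ‖T‖ ≤ n} => ⟪bas i, T.1 (bas j)⟫_ℂ :=
      fun i j => (continuous_apply ((i, j) : ℕ × ℕ)).comp hcc
    -- the set of good `x` for fixed `y`
    have key : ∀ (L : {T : BH // ‖T‖ ≤ n} → Hs → ℂ) (K : ℝ), 0 ≤ K →
        (∀ T x x', L T (x + x') = L T x + L T x') →
        (∀ T x, ‖L T x‖ ≤ K * ‖x‖) →
        ∀ x, (∀ x' ∈ (Submodule.span ℂ (Set.range (bas : ℕ → Hs)) : Set Hs),
          Continuous fun T => L T x') → Continuous fun T => L T x := by
      intro L K hK hadd hbd x hx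
      have hsub : ∀ T x x', L T (x - x') = L T x - L T x' := by
        intro T x x'
        have := hadd T (x - x') x'
        rw [sub_add_cancel] at this
        rw [this]; ring
      rw [continuous_iff_continuousAt]
      intro T₀
      rw [ContinuousAt, Metric.tendsto_nhds]
      intro ε hε
      have hd : Dense ((Submodule.span ℂ (Set.range (bas : ℕ → Hs)) : Submodule ℂ Hs) : Set Hs) := by
        rw [dense_iff_closure_eq, ← Submodule.topologicalClosure_coe, bas.dense_span]
        rfl
      obtain ⟨x', hx', hxx⟩ := Metric.mem_closure_iff.1 (hd x) (ε / (4 * (K + 1)))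
        (by positivity)
      have h1 := ((hx x' hx').tendsto T₀)
      rw [Metric.tendsto_nhds] at h1
      filter_upwards [h1 (ε / 2) (by positivity)] with T hT
      rw [dist_eq_norm] at hT ⊢
      have e1 : L T x - L T₀ x = L T (x - x') + (L T x' - L T₀ x') - L T₀ (x - x') := by
        rw [hsub, hsub]; ring
      have h2 : ∀ T, ‖L T (x - x')‖ ≤ ε / 4 := by
        intro T
        refine (hbd _ _).trans ?_
        rw [dist_eq_norm] at hxx
        calc K * ‖x - x'‖ ≤ (K + 1) * (ε / (4 * (K + 1))) := by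
              gcongr
              linarith
          _ = ε / 4 := by field_simp
      rw [e1]
      calc _ ≤ ‖L T (x - x')‖ + ‖L T x' - L T₀ x'‖ + ‖L T₀ (x - x')‖ := by
            refine (norm_sub_le _ _).trans ?_
            gcongr
            exact norm_add_le _ _
        _ < ε / 4 + ε / 2 + ε / 4 := by
            have := h2 T; have := h2 T₀; linarith
        _ = ε := by ring
    have h1 : ∀ (y : Hs) (j : ℕ), Continuous fun T : {T : BH // ‖T‖ ≤ n} => ⟪y, T.1 (bas j)⟫_ℂ := by
      intro y j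
      have h : Continuous fun T : {T : BH // ‖T‖ ≤ n} => (starRingEnd ℂ) ⟪y, T.1 (bas j)⟫_ℂ := ?_
      · have := Complex.continuous_conj.comp h
        simpa [Function.comp_def] using this
      refine key (fun T y => (starRingEnd ℂ) ⟪y, T.1 (bas j)⟫_ℂ) (n * ‖bas j‖) (by positivity) ?_ ?_
        y ?_
      · intro T x x'; simp [inner_add_left]
      · intro T x
        rw [RCLike.norm_conj]
        refine (norm_inner_le_norm _ _).trans ?_
        have := T.1.le_of_opNorm_le T.2 (bas j)
        calc ‖x‖ * ‖T.1 (bas j)‖ ≤ ‖x‖ * (n * ‖bas j‖) := by gcongr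
          _ = _ := by ring
      · intro x' hx'
        induction hx' using Submodule.span_induction with
        | mem x hx =>
          obtain ⟨i, rfl⟩ := hx
          exact Complex.continuous_conj.comp (h0 i j)
        | zero => simpa using continuous_const
        | add x y _ _ hx hy =>
          simp only [inner_add_left, map_add]
          exact hx.add hy
        | smul a x _ hx =>
          simp only [inner_smul_left, map_mul]
          exact continuous_const.mul hx
    intro x y
    refine key (fun T x => ⟪y, T.1 x⟫_ℂ) (n * ‖y‖) (by positivity) ?_ ?_ x ?_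
    · intro T x x'; simp [inner_add_right]
    · intro T x
      refine (norm_inner_le_norm _ _).trans ?_
      have := T.1.le_of_opNorm_le T.2 x
      calc ‖y‖ * ‖T.1 x‖ ≤ ‖y‖ * (n * ‖x‖) := by gcongr
        _ = _ := by ring
    · intro x' hx'
      induction hx' using Submodule.span_induction with
      | mem x hx =>
        obtain ⟨i, rfl⟩ := hx
        exact h1 y i
      | zero => simpa using continuous_const
      | add x y _ _ hx hy =>
        simp only [map_add, inner_add_right]
        exact hx.add hy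
      | smul a x _ hx =>
        simp only [map_smul, inner_smul_right]
        exact continuous_const.mul hx
  have hop := hU.preimage hcont
  obtain ⟨V, hV, hVe⟩ := isOpen_induced_iff.1 hop
  refine ⟨V, hV, fun T hT => ?_⟩
  have := Set.ext_iff.1 hVe ⟨T, hT⟩
  simp only [Set.mem_preimage] at this
  exact this.symm

/-- Maps with measurable coefficients are measurable for the weak Borel structure. -/
theorem measurable_of_wm {f : Ω → BH} (hf : WM f) : @Measurable Ω BH _ weakBorel f := by
  have : weakBorel = MeasurableSpace.generateFrom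
      {s | ∃ U : Set (Hs →WOT[ℂ] Hs), IsOpen U ∧ ContinuousLinearMapWOT.ofCLM ⁻¹' U = s} := by
    unfold weakBorel opBorel
    rw [borel, MeasurableSpace.comap_generateFrom]
    congr 1
  rw [this]
  refine measurable_generateFrom ?_
  rintro _ ⟨U, hU, rfl⟩
  choose V hV hVU using exists_open U hU
  have e : f ⁻¹' (ContinuousLinearMapWOT.ofCLM ⁻¹' U) = ⋃ n : ℕ, ({ω | ‖f ω‖ ≤ n} ∩
      (fun ω => fun p : ℕ × ℕ => ⟪bas p.1, f ω (bas p.2)⟫_ℂ) ⁻¹' (V n)) := by
    ext ω
    simp only [Set.mem_preimage, Set.mem_iUnion, Set.mem_inter_iff, Set.mem_setOf_eq]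
    constructor
    · intro h
      obtain ⟨n, hn⟩ := exists_nat_ge ‖f ω‖
      exact ⟨n, hn, (hVU n (f ω) hn).1 h⟩
    · rintro ⟨n, hn, h⟩
      exact (hVU n (f ω) hn).2 h
  rw [e]
  refine MeasurableSet.iUnion fun n => ?_
  refine (measurableSet_le hf.norm measurable_const).inter ?_
  have : Measurable fun ω => fun p : ℕ × ℕ => ⟪bas p.1, f ω (bas p.2)⟫_ℂ :=
    measurable_pi_lambda _ fun p => hf _ _
  exact this (hV n).measurableSet

theorem wm_coord (n : ℕ) : WM (fun γ : Gam => γ n) := by
  refine wm_of_measurable ?_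
  exact @measurable_pi_apply ℕ (fun _ => BH) (fun _ => weakBorel) n

theorem WM.comp {Ω' : Type*} [MeasurableSpace Ω'] {f : Ω → BH} (hf : WM f) {g : Ω' → Ω}
    (hg : Measurable g) : WM fun ω => f (g ω) := fun x y => (hf x y).comp hg

theorem measurable_gam {f : Ω → Gam} (hf : ∀ n, WM fun ω => f ω n) : Measurable f := by
  refine @measurable_pi_lambda Ω ℕ (fun _ => BH) _ (fun _ => weakBorel) f fun n => ?_
  exact measurable_of_wm (hf n)

end Pool.Agent.H60MT
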