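import Pool.Agent.H60MT.GNS

/-!
# Positive functionals on the algebraic tensor product have bounded representations
-/

set_option autoImplicit false
set_option linter.all false

open scoped InnerProductSpace Topology TensorProduct
open Filter

namespace Pool.Agent.H60MT

theorem growth (g : ℕ → ℝ) (C M : ℝ) (hM : 0 ≤ M) (h0 : 0 ≤ g 0)
    (hg : ∀ n, g n ^ 2 ≤ g 0 * g (2 * n)) (hb : ∀ k, g (2 ^ (k + 1)) ≤ C * M ^ (2 ^ (k + 1))) :
    g 1 ≤ M * g 0 := by
  by_contra h
  push Not at h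
  have h0' : 0 < g 0 := by
    refine lt_of_le_of_ne h0 fun he => ?_
    rw [← he, mul_zero] at h
    have h1 := hg 1
    rw [← he, zero_mul] at h1
    nlinarith
  set r := g 1 / g 0 with hr
  have hrM : M < r := by rw [hr, lt_div_iff₀ h0']; exact h
  have hr0 : 0 < r := lt_of_le_of_lt hM hrM
  have key : ∀ k : ℕ, r ^ (2 ^ k) * g 0 ≤ g (2 ^ k) := by
    intro k
    induction k with
    | zero => rw [pow_zero, pow_one, hr, div_mul_cancel₀ _ h0'.ne']
    | succ k ih =>
      have h1 := hg (2 ^ k)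
      have h2 : (r ^ (2 ^ k) * g 0) ^ 2 ≤ g 0 * g (2 * 2 ^ k) := by
        refine le_trans ?_ h1
        exact pow_le_pow_left₀ (by positivity) ih 2
      have h3 : (r ^ (2 ^ k) * g 0) ^ 2 = g 0 * (r ^ (2 ^ (k + 1)) * g 0) := by
        rw [pow_succ 2 k, pow_mul]; ring
      rw [h3] at h2
      have h4 := le_of_mul_le_mul_left h2 h0'
      rwa [pow_succ, mul_comm (2 ^ k) 2] at h4 ⊢
  have key2 : ∀ k, r ^ (2 ^ (k + 1)) * g 0 ≤ C * M ^ (2 ^ (k + 1)) := fun k =>
    (key (k + 1)).trans (hb k)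
  rcases hM.eq_or_lt with hM0 | hM0
  · have := key2 0
    rw [← hM0] at this
    norm_num at this
    have h5 : 0 < r ^ 2 * g 0 := by positivity
    linarith
  · have hq : 1 < r / M := by rw [one_lt_div hM0]; exact hrM
    obtain ⟨n, hn⟩ := pow_unbounded_of_one_lt (C / g 0) hq
    have h5 := key2 n
    have h6 : (r / M) ^ n ≤ (r / M) ^ (2 ^ (n + 1)) := by
      refine pow_le_pow_right₀ hq.le ?_
      exact (Nat.lt_two_pow_self (n := n)).le.trans (Nat.pow_le_pow_right (by norm_num) (by omega))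
    have h7 : 0 < M ^ (2 ^ (n + 1)) := by positivity
    have h8 : C / g 0 < (r / M) ^ (2 ^ (n + 1)) := hn.trans_le h6
    rw [div_pow, div_lt_div_iff₀ h0' h7] at h8
    linarith

variable {A B : Type} [NonUnitalCStarAlgebra A] [NonUnitalCStarAlgebra B]

theorem iter_pure (h : A) (k : B) (c : A) (d : B) (n : ℕ) :
    (LinearMap.mulLeft ℂ (h ⊗ₜ[ℂ] k))^[n] (c ⊗ₜ[ℂ] d) =
      ((fun x => h * x)^[n] c) ⊗ₜ[ℂ] ((fun x => k * x)^[n] d) := by
  induction n with
  | zero => rfl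
  | succ n ih =>
    rw [Function.iterate_succ_apply', Function.iterate_succ_apply', Function.iterate_succ_apply',
      ih, LinearMap.mulLeft_apply, Algebra.TensorProduct.tmul_mul_tmul]

theorem norm_iter (h c : A) (n : ℕ) : ‖(fun x => h * x)^[n] c‖ ≤ ‖h‖ ^ n * ‖c‖ := by
  induction n with
  | zero => simp
  | succ n ih =>
    rw [Function.iterate_succ_apply']
    refine (norm_mul_le _ _).trans ?_
    rw [pow_succ']
    calc ‖h‖ * ‖(fun x => h * x)^[n] c‖ ≤ ‖h‖ * (‖h‖ ^ n * ‖c‖) := by gcongr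
      _ = _ := by ring

variable {F : (A ⊗[ℂ] B) →ₗ[ℂ] ℂ} {C : ℝ}

theorem bound_iter (hC : ∀ a b, ‖F (a ⊗ₜ b)‖ ≤ C * (‖a‖ * ‖b‖)) (h : A) (k : B)
    (x z : A ⊗[ℂ] B) : ∃ D, 0 ≤ D ∧ ∀ n : ℕ,
      ‖F (star x * (LinearMap.mulLeft ℂ (h ⊗ₜ[ℂ] k))^[n] z)‖ ≤ D * (‖h‖ * ‖k‖) ^ n := by
  induction z using TensorProduct.induction_on with
  | zero => exact ⟨0, le_rfl, fun n => by rw [iterate_map_zero]; simp⟩
  | add z z' hz hz' =>
    obtain ⟨D, hD0, hD⟩ := hz
    obtain ⟨D', hD0', hD'⟩ := hz'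
    refine ⟨D + D', by positivity, fun n => ?_⟩
    rw [iterate_map_add, mul_add, map_add, add_mul]
    exact (norm_add_le _ _).trans (add_le_add (hD n) (hD' n))
  | tmul c d =>
    induction x using TensorProduct.induction_on with
    | zero => exact ⟨0, le_rfl, fun n => by simp⟩
    | add z z' hz hz' =>
      obtain ⟨D, hD0, hD⟩ := hz
      obtain ⟨D', hD0', hD'⟩ := hz'
      refine ⟨D + D', by positivity, fun n => ?_⟩
      rw [star_add, add_mul, map_add, add_mul]
      exact (norm_add_le _ _).trans (add_le_add (hD n) (hD' n))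
    | tmul c' d' =>
      refine ⟨|C| * (‖c'‖ * ‖c‖ * ‖d'‖ * ‖d‖), by positivity, fun n => ?_⟩
      rw [iter_pure, TensorProduct.star_tmul, Algebra.TensorProduct.tmul_mul_tmul]
      refine (hC _ _).trans ?_
      have h1 : ‖star c' * (fun x => h * x)^[n] c‖ ≤ ‖c'‖ * (‖h‖ ^ n * ‖c‖) := by
        refine (norm_mul_le _ _).trans ?_
        rw [norm_star]
        gcongr
        exact norm_iter _ _ _
      have h2 : ‖star d' * (fun x => k * x)^[n] d‖ ≤ ‖d'‖ * (‖k‖ ^ n * ‖d‖) := by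
        refine (norm_mul_le _ _).trans ?_
        rw [norm_star]
        gcongr
        exact norm_iter _ _ _
      calc C * (‖star c' * (fun x => h * x)^[n] c‖ * ‖star d' * (fun x => k * x)^[n] d‖)
          ≤ |C| * (‖star c' * (fun x => h * x)^[n] c‖ * ‖star d' * (fun x => k * x)^[n] d‖) := by
            gcongr; exact le_abs_self C
        _ ≤ |C| * ((‖c'‖ * (‖h‖ ^ n * ‖c‖)) * (‖d'‖ * (‖k‖ ^ n * ‖d‖))) := by gcongr
        _ = _ := by rw [mul_pow]; ring

theorem star_iter {R : Type} [NonUnitalRing R] [StarRing R] (y z : R) (hy : star y = y)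
    (n m : ℕ) : star ((fun x => y * x)^[n] z) * (fun x => y * x)^[m] z =
      star z * (fun x => y * x)^[n + m] z := by
  induction n generalizing m with
  | zero => simp
  | succ n ih =>
    rw [Function.iterate_succ_apply', star_mul, hy, mul_assoc,
      show y * (fun x => y * x)^[m] z = (fun x => y * x)^[m + 1] z from
        (Function.iterate_succ_apply' _ _ _).symm, ih, show n + (m + 1) = n + 1 + m by omega]

theorem bdd_pure (herm : ∀ z, F (star z) = star (F z)) (pos : ∀ z, 0 ≤ (F (star z * z)).re)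
    (hC : ∀ a b, ‖F (a ⊗ₜ b)‖ ≤ C * (‖a‖ * ‖b‖)) (a : A) (b : B) (z : A ⊗[ℂ] B) :
    (F (star ((a ⊗ₜ[ℂ] b) * z) * ((a ⊗ₜ[ℂ] b) * z))).re ≤
      (‖a‖ * ‖b‖) ^ 2 * (F (star z * z)).re := by
  set y : A ⊗[ℂ] B := (star a * a) ⊗ₜ[ℂ] (star b * b) with hy
  have hys : star y = y := by
    rw [hy, TensorProduct.star_tmul]; simp
  have hyy : star (a ⊗ₜ[ℂ] b) * (a ⊗ₜ[ℂ] b) = y := by
    rw [TensorProduct.star_tmul, Algebra.TensorProduct.tmul_mul_tmul]
  have hfun : ⇑(LinearMap.mulLeft ℂ y) = fun x => y * x := rfl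
  set g : ℕ → ℝ := fun n => (F (star z * (fun x => y * x)^[n] z)).re with hg
  obtain ⟨D, hD0, hD⟩ := bound_iter hC (star a * a) (star b * b) z z
  rw [← hy, hfun] at hD
  have h1 := growth g D (‖star a * a‖ * ‖star b * b‖) (by positivity) (pos z)
    (by
      intro n
      have h2 := cauchy herm pos z ((fun x => y * x)^[n] z)
      rw [star_iter y z hys] at h2
      have h3 : g n ^ 2 ≤ ‖F (star z * (fun x => y * x)^[n] z)‖ ^ 2 := by
        rw [← sq_abs]
        exact pow_le_pow_left₀ (abs_nonneg _) (Complex.abs_re_le_norm _) 2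
      refine h3.trans (h2.trans_eq ?_)
      simp only [hg, two_mul]
      rfl)
    (fun k => (Complex.re_le_norm _).trans (hD _))
  have h2 : g 1 = (F (star ((a ⊗ₜ[ℂ] b) * z) * ((a ⊗ₜ[ℂ] b) * z))).re := by
    simp only [hg, Function.iterate_one]
    rw [star_mul, mul_assoc, ← mul_assoc (star (a ⊗ₜ[ℂ] b)), hyy]
  have h3 : ‖star a * a‖ * ‖star b * b‖ = (‖a‖ * ‖b‖) ^ 2 := by
    rw [CStarRing.norm_star_mul_self, CStarRing.norm_star_mul_self]; ring
  rw [h2, h3] at h1
  exact h1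

theorem gf_of (herm : ∀ z, F (star z) = star (F z)) (pos : ∀ z, 0 ≤ (F (star z * z)).re)
    (hC : ∀ a b, ‖F (a ⊗ₜ b)‖ ≤ C * (‖a‖ * ‖b‖)) : GF F := by
  refine ⟨herm, pos, fun a => ?_⟩
  have : ∃ M : ℝ, 0 ≤ M ∧ ∀ z, (F (star (a * z) * (a * z))).re ≤ M * (F (star z * z)).re := by
    induction a using TensorProduct.induction_on with
    | zero => exact ⟨0, le_rfl, fun z => by simp⟩
    | tmul a b => exact ⟨(‖a‖ * ‖b‖) ^ 2, by positivity, bdd_pure herm pos hC a b⟩
    | add x y hx hy =>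
      obtain ⟨M, hM0, hM⟩ := hx
      obtain ⟨N, hN0, hN⟩ := hy
      refine ⟨2 * M + 2 * N, by positivity, fun z => ?_⟩
      have h1 := pos (x * z - y * z)
      have e1 : star (x * z - y * z) * (x * z - y * z) = star (x * z) * (x * z) +
          star (y * z) * (y * z) - (star (x * z) * (y * z) + star (y * z) * (x * z)) := by
        rw [star_sub, sub_mul, mul_sub, mul_sub]; abel
      have e2 : star ((x + y) * z) * ((x + y) * z) = star (x * z) * (x * z) +
          star (y * z) * (y * z) + (star (x * z) * (y * z) + star (y * z) * (x * z)) := by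
        rw [add_mul, star_add, add_mul, mul_add, mul_add]; abel
      rw [e1, map_sub, Complex.sub_re, map_add, Complex.add_re] at h1
      rw [e2, map_add, Complex.add_re, map_add, Complex.add_re]
      have := hM z
      have := hN z
      linarith
  obtain ⟨M, -, hM⟩ := this
  exact ⟨M, hM⟩

theorem norm_pi_le (herm : ∀ z, F (star z) = star (F z)) (pos : ∀ z, 0 ≤ (F (star z * z)).re)
    (hC : ∀ a b, ‖F (a ⊗ₜ b)‖ ≤ C * (‖a‖ * ‖b‖)) (ρ : GNSRep F) (a : A) (b : B) :
    ‖ρ.π (a ⊗ₜ[ℂ] b)‖ ≤ ‖a‖ * ‖b‖ := by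
  refine ContinuousLinearMap.opNorm_le_bound _ (by positivity) fun v => ?_
  refine ρ.dense.induction_on (p := fun v => ‖ρ.π (a ⊗ₜ[ℂ] b) v‖ ≤ ‖a‖ * ‖b‖ * ‖v‖) v ?_ ?_
  · exact isClosed_le (by fun_prop) (by fun_prop)
  · intro z
    rw [ρ.π_apply]
    have hn : ∀ x, ‖ρ.Λ x‖ ^ 2 = (F (star x * x)).re := by
      intro x
      rw [← ρ.inner_eq, ← inner_self_eq_norm_sq (𝕜 := ℂ)]
      rfl
    refine abs_le_of_sq_le_sq' ?_ (by positivity) |>.2
    rw [mul_pow, hn, hn]
    exact bdd_pure herm pos hC a b z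

end Pool.Agent.H60MT
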