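import Pool.Agent.H60MT.Field

/-!
# From `ℓ²` to an arbitrary separable infinite-dimensional Hilbert space
-/

set_option autoImplicit false
set_option linter.all false

open scoped InnerProductSpace Topology TensorProduct
open Filter InnerProductSpace

namespace Pool.Agent.H60MT

section basis

variable (H : Type) [NormedAddCommGroup H] [InnerProductSpace ℂ H] [CompleteSpace H]
  [TopologicalSpace.SeparableSpace H]

theorem exists_unitary (hinf : ¬ FiniteDimensional ℂ H) : Nonempty (H ≃ₗᵢ[ℂ] Hs) := by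
  classical
  haveI : Nontrivial H := by
    by_contra hn
    rw [not_nontrivial_iff_subsingleton] at hn
    exact hinf inferInstance
  set v := TopologicalSpace.denseSeq H with hv
  set g := gramSchmidtNormed ℂ v with hg
  have hortho := gramSchmidtNormed_orthonormal' (𝕜 := ℂ) v
  have hspan : Submodule.span ℂ (Set.range fun i : {i | gramSchmidtNormed ℂ v i ≠ 0} => g i) =
      Submodule.span ℂ (Set.range v) := by
    rw [← span_gramSchmidt ℂ v, ← span_gramSchmidtNormed_range (𝕜 := ℂ) v]
    refine le_antisymm (Submodule.span_mono ?_) (Submodule.span_le.2 ?_)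
    · rintro _ ⟨i, rfl⟩
      exact ⟨i.1, rfl⟩
    · rintro _ ⟨i, rfl⟩
      by_cases hi : g i = 0
      · have : gramSchmidtNormed ℂ v i = 0 := hi
        rw [this]
        exact Submodule.zero_mem _
      · exact Submodule.subset_span ⟨⟨i, hi⟩, rfl⟩
  have hd : Dense ((Submodule.span ℂ (Set.range fun i : {i | gramSchmidtNormed ℂ v i ≠ 0} =>
      g i) : Submodule ℂ H) : Set H) := by
    rw [hspan]
    exact (TopologicalSpace.denseRange_denseSeq H).mono Submodule.subset_span
  haveI : Infinite {i | gramSchmidtNormed ℂ v i ≠ 0} := by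
    by_contra hfin
    rw [not_infinite_iff_finite] at hfin
    haveI : FiniteDimensional ℂ (Submodule.span ℂ (Set.range fun i :
        {i | gramSchmidtNormed ℂ v i ≠ 0} => g i)) :=
      FiniteDimensional.span_of_finite ℂ (Set.finite_range _)
    have hcl := Submodule.closed_of_finiteDimensional (Submodule.span ℂ (Set.range fun i :
        {i | gramSchmidtNormed ℂ v i ≠ 0} => g i))
    have htop : Submodule.span ℂ (Set.range fun i : {i | gramSchmidtNormed ℂ v i ≠ 0} => g i) =
        ⊤ := by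
      rw [eq_top_iff]
      intro x _
      have := hd x
      rwa [hcl.closure_eq] at this
    rw [htop] at this
    exact hinf (Module.Finite.equiv (Submodule.topEquiv (R := ℂ) (M := H)))
  obtain ⟨e⟩ := nonempty_equiv_of_countable (α := ℕ) (β := {i | gramSchmidtNormed ℂ v i ≠ 0})
  have ho2 := hortho.comp e e.injective
  let b : HilbertBasis ℕ ℂ H := HilbertBasis.mk ho2 (by
    intro x _
    have h1 : Set.range ((fun i : {i | gramSchmidtNormed ℂ v i ≠ 0} => gramSchmidtNormed ℂ v i) ∘
        e) = Set.range (fun i : {i | gramSchmidtNormed ℂ v i ≠ 0} => g i) := by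
      rw [Set.range_comp, e.surjective.range_eq, Set.image_univ]
    rw [h1]
    exact hd x)
  exact ⟨b.repr⟩

end basis

section borel

variable {H K : Type} [NormedAddCommGroup H] [InnerProductSpace ℂ H] [CompleteSpace H]
  [NormedAddCommGroup K] [InnerProductSpace ℂ K] [CompleteSpace K]

theorem measurable_conj (U : H ≃ₗᵢ[ℂ] K) :
    @Measurable (H →L[ℂ] H) (K →L[ℂ] K) (opBorel H) (opBorel K) U.conjStarAlgEquiv := by
  have hc : Continuous fun T : H →WOT[ℂ] H =>
      (ContinuousLinearMapWOT.ofCLM (U.conjStarAlgEquiv T.toCLM) : K →WOT[ℂ] K) := by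
    rw [ContinuousLinearMapWOT.continuous_iff]
    intro x y
    have e : (fun T : H →WOT[ℂ] H => ⟪y, (ContinuousLinearMapWOT.ofCLM
        (U.conjStarAlgEquiv T.toCLM) : K →WOT[ℂ] K) x⟫_ℂ) =
        fun T : H →WOT[ℂ] H => ⟪U.symm y, T (U.symm x)⟫_ℂ := by
      funext T
      change ⟪y, U (T (U.symm x))⟫_ℂ = _
      rw [← U.symm.inner_map_map, LinearIsometryEquiv.symm_apply_apply]
    rw [e]
    fun_prop
  letI : MeasurableSpace (H →WOT[ℂ] H) := borel _
  haveI : BorelSpace (H →WOT[ℂ] H) := ⟨rfl⟩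
  letI : MeasurableSpace (K →WOT[ℂ] K) := borel _
  haveI : BorelSpace (K →WOT[ℂ] K) := ⟨rfl⟩
  rw [opBorel, opBorel, measurable_comap_iff]
  exact hc.measurable.comp
    (@comap_measurable _ _ (borel (H →WOT[ℂ] H)) ContinuousLinearMapWOT.ofCLM)

/-- Transport of codes. -/
noncomputable def tr (U : H ≃ₗᵢ[ℂ] K) (γ : Codes H) : Codes K := fun n => U.conjStarAlgEquiv (γ n)

theorem measurable_tr (U : H ≃ₗᵢ[ℂ] K) : Measurable (tr U) := by
  refine @measurable_pi_lambda (Codes H) ℕ (fun _ => K →L[ℂ] K) _ (fun _ => opBorel K) (tr U)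
    fun n => ?_
  have h1 : @Measurable (Codes H) (H →L[ℂ] H) _ (opBorel H) fun γ => γ n :=
    @measurable_pi_apply ℕ (fun _ => H →L[ℂ] H) (fun _ => opBorel H) n
  exact @Measurable.comp _ _ _ _ (opBorel H) (opBorel K) _ _ (measurable_conj U) h1

theorem tr_symm (U : H ≃ₗᵢ[ℂ] K) (γ : Codes K) : tr U (tr U.symm γ) = γ := by
  funext n
  change U.conjStarAlgEquiv (U.symm.conjStarAlgEquiv (γ n)) = γ n
  rw [← LinearIsometryEquiv.symm_conjStarAlgEquiv]
  exact StarAlgEquiv.apply_symm_apply _ _

end borel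

section gen

variable {A B : Type} [CStarAlgebra A] [CStarAlgebra B]

theorem map_mem_gen (θ : A ≃⋆ₐ[ℂ] B) {s : Set A} {t : Set B} (h : ∀ x ∈ s, θ x ∈ t)
    {x : A} (hx : x ∈ (NonUnitalStarAlgebra.adjoin ℂ s).topologicalClosure) :
    θ x ∈ (NonUnitalStarAlgebra.adjoin ℂ t).topologicalClosure := by
  have hθ : Continuous θ := by
    have : Isometry (θ : A → B) := NonUnitalStarAlgHom.isometry θ θ.injective
    exact this.continuous
  have h1 : (θ x : B) ∈ closure ((NonUnitalStarAlgebra.adjoin ℂ t :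
      NonUnitalStarSubalgebra ℂ B) : Set B) := by
    refine map_mem_closure hθ (s := ((NonUnitalStarAlgebra.adjoin ℂ s :
      NonUnitalStarSubalgebra ℂ A) : Set A)) hx ?_
    intro y hy
    have h2 : NonUnitalStarAlgebra.adjoin ℂ s ≤ NonUnitalStarSubalgebra.comap
        (θ : A →⋆ₙₐ[ℂ] B) (NonUnitalStarAlgebra.adjoin ℂ t) := by
      refine NonUnitalStarAlgebra.adjoin_le fun z hz => ?_
      exact NonUnitalStarAlgebra.subset_adjoin ℂ _ (h z hz)
    exact h2 hy
  exact h1

/-- Isomorphic generating sets give isomorphic C*-algebras. -/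
theorem exists_iso (θ : A ≃⋆ₐ[ℂ] B) {s : Set A} {t : Set B} (h : ∀ x ∈ s, θ x ∈ t)
    (h' : ∀ y ∈ t, θ.symm y ∈ s) :
    ∃ e : GenCStar s → GenCStar t, IsStarHom e ∧ Function.Bijective e := by
  refine ⟨fun x => ⟨θ x.1, map_mem_gen θ h x.2⟩, ⟨?_, ?_, ?_, ?_⟩, ?_, ?_⟩
  · intro x y
    exact Subtype.ext (map_add θ _ _)
  · intro c x
    exact Subtype.ext (map_smul θ _ _)
  · intro x y
    exact Subtype.ext (map_mul θ _ _)
  · intro x
    exact Subtype.ext (map_star θ _)
  · intro x y hxy
    have := congrArg Subtype.val hxy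
    exact Subtype.ext (θ.injective this)
  · intro y
    refine ⟨⟨θ.symm y.1, map_mem_gen θ.symm h' y.2⟩, Subtype.ext ?_⟩
    exact θ.apply_symm_apply _

end gen

section transfer

/-- Bundled *-homomorphism. -/
def IsStarHom.hom {R S : Type} [NonUnitalRing R] [StarRing R] [Module ℂ R] [NonUnitalRing S]
    [StarRing S] [Module ℂ S] {f : R → S} (hf : IsStarHom f) : R →⋆ₙₐ[ℂ] S where
  toFun := f
  map_smul' := hf.smul
  map_zero' := by
    have := hf.smul 0 0
    rwa [zero_smul, zero_smul] at this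
  map_add' := hf.add
  map_mul' := hf.mul
  map_star' := hf.star

theorem IsStarHom.norm_eq {R S : Type} [NonUnitalCStarAlgebra R] [NonUnitalCStarAlgebra S]
    {f : R → S} (hf : IsStarHom f) (hi : Function.Injective f) (x : R) : ‖f x‖ = ‖x‖ :=
  NonUnitalStarAlgHom.norm_map hf.hom hi x

theorem IsCStarNorm.comp {R S : Type} [NonUnitalRing R] [StarRing R] [Module ℂ R]
    [NonUnitalRing S] [StarRing S] [Module ℂ S] {p : S → ℝ} (hp : IsCStarNorm p) {f : R → S}
    (hf : IsStarHom f) (hi : Function.Injective f) : IsCStarNorm fun x => p (f x) where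
  add_le x y := by rw [hf.add]; exact hp.add_le _ _
  smul c x := by rw [hf.smul]; exact hp.smul _ _
  mul_le x y := by rw [hf.mul]; exact hp.mul_le _ _
  star_mul x := by rw [hf.mul, hf.star]; exact hp.star_mul _
  eq_zero x hx := by
    have h1 := hp.eq_zero _ hx
    have h2 : f 0 = 0 := hf.hom.map_zero'
    exact hi (h1.trans h2.symm)

variable {A B C A' B' C' : Type} [NonUnitalCStarAlgebra A] [NonUnitalCStarAlgebra B]
  [NonUnitalCStarAlgebra C] [NonUnitalCStarAlgebra A'] [NonUnitalCStarAlgebra B']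
  [NonUnitalCStarAlgebra C']

theorem exists_tensor_iso {α : A → A'} (hα : IsStarHom α) (hα' : Function.Bijective α)
    {β : B → B'} (hβ : IsStarHom β) (hβ' : Function.Bijective β) :
    ∃ (T : A ⊗[ℂ] B → A' ⊗[ℂ] B') (T' : A' ⊗[ℂ] B' → A ⊗[ℂ] B), IsStarHom T ∧ IsStarHom T' ∧
      (∀ z, T' (T z) = z) ∧ ∀ z, T (T' z) = z := by
  let a : A →ₗ[ℂ] A' := { toFun := α, map_add' := hα.add, map_smul' := hα.smul }
  let b : B →ₗ[ℂ] B' := { toFun := β, map_add' := hβ.add, map_smul' := hβ.smul }
  let ea : A ≃ₗ[ℂ] A' := LinearEquiv.ofBijective a hα'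
  let eb : B ≃ₗ[ℂ] B' := LinearEquiv.ofBijective b hβ'
  set T : A ⊗[ℂ] B ≃ₗ[ℂ] A' ⊗[ℂ] B' := TensorProduct.congr ea eb with hT
  have hTt : ∀ x y, T (x ⊗ₜ y) = α x ⊗ₜ β y := fun x y => TensorProduct.congr_tmul _ _ _ _
  have hmul : ∀ x y, T (x * y) = T x * T y := by
    intro x y
    induction x using TensorProduct.induction_on with
    | zero => rw [zero_mul, map_zero, zero_mul]
    | add x x' hx hx' => rw [add_mul, map_add, hx, hx', map_add, add_mul]
    | tmul a b =>
      induction y using TensorProduct.induction_on with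
      | zero => rw [mul_zero, map_zero, mul_zero]
      | add x x' hx hx' => rw [mul_add, map_add, hx, hx', map_add, mul_add]
      | tmul a' b' =>
        rw [Algebra.TensorProduct.tmul_mul_tmul, hTt, hTt, hTt,
          Algebra.TensorProduct.tmul_mul_tmul, hα.mul, hβ.mul]
  have hstar : ∀ x, T (star x) = star (T x) := by
    intro x
    induction x using TensorProduct.induction_on with
    | zero => rw [star_zero, map_zero, star_zero]
    | add x x' hx hx' => rw [star_add, map_add, hx, hx', map_add, star_add]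
    | tmul a b =>
      rw [TensorProduct.star_tmul, hTt, hTt, TensorProduct.star_tmul, hα.star, hβ.star]
  refine ⟨T, T.symm, ⟨map_add T, map_smul T, hmul, hstar⟩,
    ⟨map_add T.symm, map_smul T.symm, fun x y => ?_, fun x => ?_⟩,
    T.symm_apply_apply, T.apply_symm_apply⟩
  · apply T.injective
    rw [T.apply_symm_apply, hmul, T.apply_symm_apply, T.apply_symm_apply]
  · apply T.injective
    rw [T.apply_symm_apply, hstar, T.apply_symm_apply]

theorem transfer {α : A → A'} (hα : IsStarHom α) (hα' : Function.Bijective α)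
    {β : B → B'} (hβ : IsStarHom β) (hβ' : Function.Bijective β)
    {θ : C' → C} (hθ : IsStarHom θ) (hθ' : Function.Bijective θ) (h : IsMaxT A' B' C') :
    IsMaxTensor A B C := by
  obtain ⟨ι, hd, hn, hmax⟩ := h
  obtain ⟨T, T', hT, hT', hTT, hTT'⟩ := exists_tensor_iso hα hα' hβ hβ'
  have hTi : Function.Injective T := Function.LeftInverse.injective hTT
  have hTi' : Function.Injective T' := Function.LeftInverse.injective hTT'
  have hTs : Function.Surjective T := Function.RightInverse.surjective hTT'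
  have hnorm : ∀ z, ‖θ (ι (T z))‖ = ‖ι (T z)‖ := fun z => hθ.norm_eq hθ'.injective _
  have hθc : Continuous θ := by
    have : Isometry hθ.hom := NonUnitalStarAlgHom.isometry hθ.hom hθ'.injective
    exact this.continuous
  refine ⟨fun z => θ (ι (T z)), ⟨?_, ?_, ?_, ?_⟩, ?_, ?_, ?_⟩
  · intro x y
    rw [hT.add, map_add, hθ.add]
  · intro c x
    rw [hT.smul, map_smul, hθ.smul]
  · intro x y
    rw [hT.mul, map_mul, hθ.mul]
  · intro x
    rw [hT.star, map_star, hθ.star]
  · have h1 : DenseRange (fun z => ι (T z)) := by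
      have : Set.range (fun z => ι (T z)) = Set.range ι := by
        ext y
        constructor
        · rintro ⟨z, rfl⟩; exact ⟨_, rfl⟩
        · rintro ⟨z, rfl⟩
          obtain ⟨x, rfl⟩ := hTs z
          exact ⟨x, rfl⟩
      rw [DenseRange, this]
      exact hd
    exact hθ'.surjective.denseRange.comp h1 hθc
  · simp only [hnorm]
    exact hn.comp hT hTi
  · intro p hp z
    rw [hnorm]
    have h1 := hmax (fun x => p (T' x)) (hp.comp hT' hTi') (T z)
    simp only [hTT] at h1
    exact h1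

end transfer

/-- **The maximal tensor product is a Borel construction**, for an arbitrary separable
infinite-dimensional Hilbert space. -/
theorem max_tensor_borel' (H : Type) [NormedAddCommGroup H] [InnerProductSpace ℂ H]
    [CompleteSpace H] [TopologicalSpace.SeparableSpace H] (hinf : ¬ FiniteDimensional ℂ H) :
    ∃ Φ : Codes H × Codes H → Codes H, Measurable Φ ∧
      ∀ γ δ : Codes H, IsMaxTensor (CStarOf γ) (CStarOf δ) (CStarOf (Φ (γ, δ))) := by
  obtain ⟨U⟩ := exists_unitary H hinf
  obtain ⟨Φ, hΦ, h⟩ := max_tensor_borel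
  have hiso : ∀ γ : Codes H, ∃ e : CStarOf γ → cstar (tr U γ), IsStarHom e ∧
      Function.Bijective e := by
    intro γ
    refine exists_iso (A := H →L[ℂ] H) (B := BH) U.conjStarAlgEquiv ?_ ?_
    · rintro _ ⟨n, rfl⟩
      exact ⟨n, rfl⟩
    · rintro _ ⟨n, rfl⟩
      exact ⟨n, (U.conjStarAlgEquiv.symm_apply_apply (γ n)).symm⟩
  have hiso' : ∀ γ : Gam, ∃ e : cstar γ → CStarOf (tr U.symm γ), IsStarHom e ∧
      Function.Bijective e := by
    intro γ
    refine exists_iso (A := BH) (B := H →L[ℂ] H) U.symm.conjStarAlgEquiv ?_ ?_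
    · rintro _ ⟨n, rfl⟩
      exact ⟨n, rfl⟩
    · rintro _ ⟨n, rfl⟩
      exact ⟨n, (U.symm.conjStarAlgEquiv.symm_apply_apply (γ n)).symm⟩
  refine ⟨fun w => tr U.symm (Φ (tr U w.1, tr U w.2)), ?_, fun γ δ => ?_⟩
  · refine (measurable_tr U.symm).comp (hΦ.comp ?_)
    exact ((measurable_tr U).comp measurable_fst).prodMk ((measurable_tr U).comp measurable_snd)
  · obtain ⟨α, hα, hα'⟩ := hiso γ
    obtain ⟨β, hβ, hβ'⟩ := hiso δ
    obtain ⟨θ, hθ, hθ'⟩ := hiso' (Φ (tr U γ, tr U δ))
    exact transfer hα hα' hβ hβ' hθ hθ' (h (tr U γ) (tr U δ))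

end Pool.Agent.H60MT
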