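import Pool.Agent.H60MT.Defs

/-!
# The completion of a *-algebra in a C*-norm
-/

set_option autoImplicit false
set_option linter.all false

open scoped InnerProductSpace Topology
open UniformSpace Filter

namespace Pool.Agent.H60MT

section pre

variable {R : Type} [NonUnitalNormedRing R] [StarRing R] [CStarRing R] [NormedSpace ℂ R]
  [IsScalarTower ℂ R R] [SMulCommClass ℂ R R] [StarModule ℂ R]

variable (R) in
/-- The completed multiplication. -/
theorem exists_mulC : ∃ M : Completion R →L[ℂ] Completion R →L[ℂ] Completion R,
    (∀ x y : R, M (x : Completion R) (y : Completion R) = ((x * y : R) : Completion R)) ∧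
    ∀ x y, ‖M x y‖ ≤ ‖x‖ * ‖y‖ := by
  have hb : ∀ (x : R) (e : Completion R),
      ‖(ContinuousLinearMap.mul ℂ R x).completion e‖ ≤ ‖x‖ * ‖e‖ := by
    intro x e
    induction e using Completion.induction_on with
    | hp => exact isClosed_le (ContinuousLinearMap.continuous _).norm (continuous_const.mul
        continuous_norm)
    | ih y =>
      rw [ContinuousLinearMap.completion_apply_coe, Completion.norm_coe, Completion.norm_coe]
      exact norm_mul_le x y
  let M₁ : R →L[ℂ] Completion R →L[ℂ] Completion R := LinearMap.mkContinuous
    { toFun := fun x => (ContinuousLinearMap.mul ℂ R x).completion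
      map_add' := fun x y => by
        ext e
        induction e using Completion.induction_on with
        | hp =>
          exact isClosed_eq (ContinuousLinearMap.continuous _) (ContinuousLinearMap.continuous _)
        | ih z =>
          rw [ContinuousLinearMap.add_apply, ContinuousLinearMap.completion_apply_coe,
            ContinuousLinearMap.completion_apply_coe, ContinuousLinearMap.completion_apply_coe,
            ← Completion.coe_add, map_add, ContinuousLinearMap.add_apply]
      map_smul' := fun c x => by
        ext e
        induction e using Completion.induction_on with
        | hp =>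
          exact isClosed_eq (ContinuousLinearMap.continuous _) (ContinuousLinearMap.continuous _)
        | ih z =>
          rw [RingHom.id_apply, ContinuousLinearMap.smul_apply,
            ContinuousLinearMap.completion_apply_coe,
            ContinuousLinearMap.completion_apply_coe,
            ← Completion.coe_smul, map_smul, ContinuousLinearMap.smul_apply] } 1
    (fun x => by
      rw [one_mul]
      exact ContinuousLinearMap.opNorm_le_bound _ (norm_nonneg _) (hb x))
  have hM : ∀ x y : R, M₁.fromCompletion (x : Completion R) (y : Completion R) =
      ((x * y : R) : Completion R) := by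
    intro x y
    rw [ContinuousLinearMap.fromCompletion_apply_coe]
    change (ContinuousLinearMap.mul ℂ R x).completion (y : Completion R) = _
    rw [ContinuousLinearMap.completion_apply_coe]
    rfl
  refine ⟨M₁.fromCompletion, hM, fun x y => ?_⟩
  have hc : Continuous fun q : Completion R × Completion R => M₁.fromCompletion q.1 q.2 := by
    exact (M₁.fromCompletion.continuous.comp continuous_fst).clm_apply continuous_snd
  induction x, y using Completion.induction_on₂ with
  | hp => exact isClosed_le hc.norm (by fun_prop)
  | ih x y =>
    rw [hM, Completion.norm_coe, Completion.norm_coe, Completion.norm_coe]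
    exact norm_mul_le x y

variable (R) in
theorem exists_starC : ∃ s : Completion R → Completion R, Continuous s ∧
    ∀ x : R, s (x : Completion R) = ((star x : R) : Completion R) := by
  have hu : UniformContinuous (star : R → R) := by
    have : Isometry (star : R → R) := Isometry.of_dist_eq fun x y => by
      rw [dist_eq_norm, dist_eq_norm, ← star_sub, norm_star]
    exact this.uniformContinuous
  exact ⟨Completion.map star, Completion.continuous_map, fun x => Completion.map_coe hu x⟩

variable (R) in
theorem exists_completion : ∃ (D : Type) (_ : NonUnitalCStarAlgebra D) (σ : R →⋆ₙₐ[ℂ] D),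
    ∀ z, ‖σ z‖ = ‖z‖ := by
  obtain ⟨M, hM, hMn⟩ := exists_mulC R
  obtain ⟨s, hs, hsx⟩ := exists_starC R
  have hcM : ∀ {Z : Type} [TopologicalSpace Z] {f g : Z → Completion R}, Continuous f →
      Continuous g → Continuous fun z => M (f z) (g z) := by
    intro Z _ f g hf hg
    exact (M.continuous.comp hf).clm_apply hg
  letI nur : NonUnitalNormedRing (Completion R) :=
    { (inferInstance : NormedAddCommGroup (Completion R)) with
      mul := fun x y => M x y
      left_distrib := fun x y z => map_add (M x) y z
      right_distrib := fun x y z => by
        change M (x + y) z = M x z + M y z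
        rw [map_add, ContinuousLinearMap.add_apply]
      zero_mul := fun x => by
        change M 0 x = 0
        rw [map_zero, ContinuousLinearMap.zero_apply]
      mul_zero := fun x => map_zero (M x)
      mul_assoc := fun x y z => by
        change M (M x y) z = M x (M y z)
        induction x, y, z using Completion.induction_on₃ with
        | hp =>
          refine isClosed_eq ?_ ?_
          · exact hcM (hcM continuous_fst (continuous_fst.comp continuous_snd))
              (continuous_snd.comp continuous_snd)
          · exact hcM continuous_fst (hcM (continuous_fst.comp continuous_snd)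
              (continuous_snd.comp continuous_snd))
        | ih x y z => rw [hM, hM, hM, hM, mul_assoc]
      norm_mul_le := hMn }
  have hmul : ∀ x y : Completion R, x * y = M x y := fun _ _ => rfl
  have hmulc : ∀ x y : R, (x : Completion R) * (y : Completion R) =
      ((x * y : R) : Completion R) := hM
  letI sr : StarRing (Completion R) :=
    { star := s
      star_involutive := fun x => by
        induction x using Completion.induction_on with
        | hp => exact isClosed_eq (hs.comp hs) continuous_id
        | ih x => rw [hsx, hsx, star_star]
      star_mul := fun x y => by
        change s (M x y) = M (s y) (s x)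
        induction x, y using Completion.induction_on₂ with
        | hp =>
          exact isClosed_eq (hs.comp (hcM continuous_fst continuous_snd))
            (hcM (hs.comp continuous_snd) (hs.comp continuous_fst))
        | ih x y => rw [hM, hsx, hsx, hsx, hM, star_mul]
      star_add := fun x y => by
        change s (x + y) = s x + s y
        induction x, y using Completion.induction_on₂ with
        | hp =>
          exact isClosed_eq (hs.comp (continuous_fst.add continuous_snd))
            ((hs.comp continuous_fst).add (hs.comp continuous_snd))
        | ih x y => rw [← Completion.coe_add, hsx, hsx, hsx, star_add, Completion.coe_add] }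
  have hstar : ∀ x : Completion R, star x = s x := fun _ => rfl
  haveI csr : CStarRing (Completion R) := ⟨fun x => by
    rw [hstar, hmul]
    induction x using Completion.induction_on with
    | hp =>
      exact isClosed_le (continuous_norm.mul continuous_norm) (hcM hs continuous_id).norm
    | ih x =>
      rw [hsx, hM, Completion.norm_coe, Completion.norm_coe, CStarRing.norm_star_mul_self]⟩
  haveI ist : IsScalarTower ℂ (Completion R) (Completion R) := ⟨fun c x y => by
    change M (c • x) y = c • M x y
    rw [map_smul, ContinuousLinearMap.smul_apply]⟩
  haveI scc : SMulCommClass ℂ (Completion R) (Completion R) := ⟨fun c x y => by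
    change c • M x y = M x (c • y)
    rw [map_smul]⟩
  haveI sm : StarModule ℂ (Completion R) := ⟨fun c x => by
    rw [hstar, hstar]
    induction x using Completion.induction_on with
    | hp =>
      exact isClosed_eq (hs.comp (continuous_const_smul c)) (hs.const_smul (star c))
    | ih x => rw [← Completion.coe_smul, hsx, hsx, star_smul, Completion.coe_smul]⟩
  letI A : NonUnitalCStarAlgebra (Completion R) := { nur, sr, csr, ist, scc, sm with
    toCompleteSpace := inferInstance
    smul := fun c x => c • x
    norm_smul_le := fun c x => norm_smul_le c x
    one_smul := one_smul ℂ
    mul_smul := mul_smul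
    smul_zero := smul_zero
    smul_add := smul_add
    add_smul := add_smul
    zero_smul := zero_smul ℂ }
  let σ : R →⋆ₙₐ[ℂ] Completion R :=
    { toFun := fun x => (x : Completion R)
      map_smul' := fun c x => Completion.coe_smul c x
      map_zero' := Completion.coe_zero
      map_add' := fun x y => Completion.coe_add x y
      map_mul' := fun x y => (hmulc x y).symm
      map_star' := fun x => (hsx x).symm }
  exact ⟨Completion R, A, σ, fun z => Completion.norm_coe z⟩

end pre

section norms

variable {R : Type} [NonUnitalRing R] [StarRing R] [Module ℂ R] {p : R → ℝ}

theorem IsCStarNorm.zero (hp : IsCStarNorm p) : p 0 = 0 := by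
  have := hp.smul 0 0
  simpa using this

theorem IsCStarNorm.neg (hp : IsCStarNorm p) (x : R) : p (-x) = p x := by
  have := hp.smul (-1) x
  simpa using this

theorem IsCStarNorm.nonneg (hp : IsCStarNorm p) (x : R) : 0 ≤ p x := by
  have := hp.add_le x (-x)
  rw [add_neg_cancel, hp.zero, hp.neg] at this
  linarith

/-- Every C*-norm comes from a *-homomorphism to a C*-algebra. -/
theorem exists_cstar [IsScalarTower ℂ R R] [SMulCommClass ℂ R R] [StarModule ℂ R]
    (hp : IsCStarNorm p) :
    ∃ (D : Type) (_ : NonUnitalCStarAlgebra D) (σ : R →⋆ₙₐ[ℂ] D), ∀ z, ‖σ z‖ = p z := by
  let N : AddGroupNorm R :=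
    { toFun := p
      map_zero' := hp.zero
      add_le' := hp.add_le
      neg' := hp.neg
      eq_zero_of_map_eq_zero' := hp.eq_zero }
  letI i1 : NormedAddCommGroup R := N.toNormedAddCommGroup
  letI i2 : NonUnitalNormedRing R :=
    { (inferInstance : NonUnitalRing R), i1 with
      norm_mul_le := hp.mul_le }
  letI i3 : NormedSpace ℂ R := { (inferInstance : Module ℂ R) with
    norm_smul_le := fun c x => (hp.smul c x).le }
  haveI i4 : CStarRing R := ⟨fun x => by
    change p x * p x ≤ p (star x * x)
    rw [hp.star_mul, sq]⟩
  exact exists_completion R

end norms

end Pool.Agent.H60MT
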