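import Pool.Agent.H60MT.Stm

/-!
# The case of `ℓ²`: working definitions
-/

set_option autoImplicit false
set_option linter.all false

open scoped TensorProduct InnerProductSpace Topology

namespace Pool.Agent.H60MT

/-- The separable infinite-dimensional Hilbert space `ℓ²(ℕ)`. -/
abbrev Hs : Type := lp (fun _ : ℕ => ℂ) 2

/-- The bounded operators of the Hilbert space. -/
abbrev BH : Type := Hs →L[ℂ] Hs

/-- The Borel structure of `B(H)` generated by the weakly open sets. -/
noncomputable abbrev weakBorel : MeasurableSpace BH := opBorel Hs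

/-- The space `Γ(H) = B(H)^ℕ` of codes. -/
abbrev Gam : Type := Codes Hs

/-- The C*-algebra `C*(γ)` generated by the operators `γ n`. -/
noncomputable def cstar (γ : Gam) : NonUnitalStarSubalgebra ℂ BH :=
  (NonUnitalStarAlgebra.adjoin ℂ (Set.range fun n : ℕ => γ n)).topologicalClosure

instance cstar_isClosed (γ : Gam) : IsClosed (cstar γ : Set BH) :=
  NonUnitalStarSubalgebra.isClosed_topologicalClosure _

noncomputable instance cstarCStarAlgebra (γ : Gam) : NonUnitalCStarAlgebra (cstar γ) :=
  NonUnitalStarSubalgebra.nonUnitalCStarAlgebra (cstar γ)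

/-- `C` is (a copy of) the maximal tensor product of the C*-algebras `A` and `B`: the completion of
the algebraic tensor product in its largest C*-norm. -/
def IsMaxT (A B C : Type) [NonUnitalCStarAlgebra A] [NonUnitalCStarAlgebra B]
    [NonUnitalCStarAlgebra C] : Prop :=
  ∃ ι : (A ⊗[ℂ] B) →⋆ₙₐ[ℂ] C, DenseRange ι ∧ IsCStarNorm (fun z => ‖ι z‖) ∧
    ∀ p : A ⊗[ℂ] B → ℝ, IsCStarNorm p → ∀ z, p z ≤ ‖ι z‖

end Pool.Agent.H60MT
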