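import Pool.Agent.H60MT.Borel

/-!
# Measurable embedding of a field of Hilbert spaces into `ℓ²`
-/

set_option autoImplicit false
set_option linter.all false

open scoped InnerProductSpace Topology
open Filter InnerProductSpace

namespace Pool.Agent.H60MT

section embed

variable {K : Type} [NormedAddCommGroup K] [InnerProductSpace ℂ K] [CompleteSpace K]

theorem exists_embed (v : ℕ → K)
    (hv : Dense ((Submodule.span ℂ (Set.range v) : Submodule ℂ K) : Set K)) :
    ∃ J : K →ₗᵢ[ℂ] Hs, ∀ m, ContinuousLinearMap.adjoint J.toContinuousLinearMap (bas m) =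
      gramSchmidtNormed ℂ v m := by
  classical
  set g := gramSchmidtNormed ℂ v with hg
  have hortho := gramSchmidtNormed_orthonormal' (𝕜 := ℂ) v
  have hspan : Submodule.span ℂ (Set.range fun i : {i | gramSchmidtNormed ℂ v i ≠ 0} => g i) =
      Submodule.span ℂ (Set.range v) := by
    rw [← span_gramSchmidt ℂ v, ← span_gramSchmidtNormed_range (𝕜 := ℂ) v]
    refine le_antisymm (Submodule.span_mono ?_) (Submodule.span_le.2 ?_)
    · rintro _ ⟨i, rfl⟩
      exact ⟨i.1, rfl⟩
    · rintro _ ⟨i, rfl⟩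
      by_cases hi : g i = 0
      · have : gramSchmidtNormed ℂ v i = 0 := hi
        rw [this]
        exact Submodule.zero_mem _
      · exact Submodule.subset_span ⟨⟨i, hi⟩, rfl⟩
  have hd : Dense ((Submodule.span ℂ (Set.range fun i : {i | gramSchmidtNormed ℂ v i ≠ 0} =>
      g i) : Submodule ℂ K) : Set K) := by rw [hspan]; exact hv
  let b : HilbertBasis {i | gramSchmidtNormed ℂ v i ≠ 0} ℂ K := HilbertBasis.mk hortho (by
    intro x _
    exact hd x)
  have hb : ∀ i, b i = g i := fun i => congrFun (HilbertBasis.coe_mk _ _) i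
  have ho2 : Orthonormal ℂ (fun i : {i | gramSchmidtNormed ℂ v i ≠ 0} => bas i.1) :=
    bas.orthonormal.comp _ Subtype.val_injective
  set J : K →ₗᵢ[ℂ] Hs := (ho2.orthogonalFamily.linearIsometry).comp b.repr.toLinearIsometry with hJ
  have hJb : ∀ i : {i | gramSchmidtNormed ℂ v i ≠ 0}, J (g i) = bas i.1 := by
    intro i
    rw [← hb]
    change ho2.orthogonalFamily.linearIsometry (b.repr (b i)) = _
    rw [b.repr_self, OrthogonalFamily.linearIsometry_apply_single]
    simp
  refine ⟨J, fun m => ?_⟩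
  have hfun : innerSL ℂ (ContinuousLinearMap.adjoint J.toContinuousLinearMap (bas m)) =
      innerSL ℂ (gramSchmidtNormed ℂ v m) := by
    refine ContinuousLinearMap.ext_on hd ?_
    rintro _ ⟨i, rfl⟩
    simp only [innerSL_apply_apply]
    rw [ContinuousLinearMap.adjoint_inner_left]
    change ⟪bas m, J (g i)⟫_ℂ = ⟪gramSchmidtNormed ℂ v m, g i⟫_ℂ
    rw [hJb]
    have h1 := orthonormal_iff_ite.1 bas.orthonormal m i.1
    rw [h1]
    by_cases hm : gramSchmidtNormed ℂ v m = 0
    · rw [hm, inner_zero_left, if_neg]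
      rintro rfl
      exact i.2 hm
    · have h2 := orthonormal_iff_ite.1 hortho ⟨m, hm⟩ i
      rw [h2]
      simp only [Subtype.ext_iff]
  have h3 : ∀ x : K, ⟪ContinuousLinearMap.adjoint J.toContinuousLinearMap (bas m), x⟫_ℂ =
      ⟪gramSchmidtNormed ℂ v m, x⟫_ℂ := fun x => by
    have := congrArg (fun L => L x) hfun
    simpa using this
  exact ext_inner_right ℂ h3

/-- Conjugation by an isometry. -/
theorem exists_conj (J : K →ₗᵢ[ℂ] Hs) : ∃ κ : (K →L[ℂ] K) →⋆ₙₐ[ℂ] BH, (∀ T, ‖κ T‖ = ‖T‖) ∧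
    ∀ T x y, ⟪y, κ T x⟫_ℂ = ⟪ContinuousLinearMap.adjoint J.toContinuousLinearMap y,
      T (ContinuousLinearMap.adjoint J.toContinuousLinearMap x)⟫_ℂ := by
  set V : K →L[ℂ] Hs := J.toContinuousLinearMap with hV
  set V' : Hs →L[ℂ] K := ContinuousLinearMap.adjoint V with hV'
  have h1 : ∀ x, V' (V x) = x := by
    intro x
    refine ext_inner_left ℂ fun y => ?_
    rw [hV', ContinuousLinearMap.adjoint_inner_right]
    exact J.inner_map_map y x
  have hn : ∀ x, ‖V' x‖ ≤ ‖x‖ := by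
    intro x
    have h2 : ‖V'‖ ≤ 1 := by
      rw [hV', LinearIsometryEquiv.norm_map]
      exact J.norm_toContinuousLinearMap_le
    calc ‖V' x‖ ≤ ‖V'‖ * ‖x‖ := V'.le_opNorm x
      _ ≤ 1 * ‖x‖ := by gcongr
      _ = ‖x‖ := one_mul _
  let κ : (K →L[ℂ] K) →⋆ₙₐ[ℂ] BH :=
    { toFun := fun T => V.comp (T.comp V')
      map_smul' := fun c T => by ext x; simp
      map_zero' := by ext x; simp
      map_add' := fun S T => by
        refine ContinuousLinearMap.ext fun x => ?_
        simp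
      map_mul' := fun S T => by
        refine ContinuousLinearMap.ext fun x => ?_
        simp only [ContinuousLinearMap.coe_comp', Function.comp_apply,
          ContinuousLinearMap.mul_apply, h1]
      map_star' := fun T => by
        rw [ContinuousLinearMap.star_eq_adjoint, ContinuousLinearMap.star_eq_adjoint]
        refine (ContinuousLinearMap.eq_adjoint_iff _ _).2 fun x y => ?_
        simp only [ContinuousLinearMap.coe_comp', Function.comp_apply]
        rw [← ContinuousLinearMap.adjoint_inner_right, ← hV',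
          ContinuousLinearMap.adjoint_inner_left, hV', ContinuousLinearMap.adjoint_inner_left] }
  have hκ : ∀ T x, κ T x = V (T (V' x)) := fun T x => rfl
  refine ⟨κ, fun T => ?_, fun T x y => ?_⟩
  · refine le_antisymm ?_ ?_
    · refine ContinuousLinearMap.opNorm_le_bound _ (norm_nonneg _) fun x => ?_
      rw [hκ]
      calc ‖V (T (V' x))‖ = ‖T (V' x)‖ := J.norm_map _
        _ ≤ ‖T‖ * ‖V' x‖ := T.le_opNorm _
        _ ≤ ‖T‖ * ‖x‖ := by gcongr; exact hn x
    · refine ContinuousLinearMap.opNorm_le_bound _ (norm_nonneg _) fun x => ?_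
      have h2 : ‖T x‖ = ‖κ T (V x)‖ := by
        rw [hκ, h1]
        exact (J.norm_map _).symm
      rw [h2]
      calc ‖κ T (V x)‖ ≤ ‖κ T‖ * ‖V x‖ := (κ T).le_opNorm _
        _ = ‖κ T‖ * ‖x‖ := by rw [show ‖V x‖ = ‖x‖ from J.norm_map x]
  · rw [hκ, ← ContinuousLinearMap.adjoint_inner_left]

end embed

section sections

variable {Ω : Type*} [MeasurableSpace Ω] {K : Ω → Type} [∀ ω, NormedAddCommGroup (K ω)]
  [∀ ω, InnerProductSpace ℂ (K ω)]

/-- Measurable finite combinations of given sections. -/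
def MS (v : ℕ → ∀ ω, K ω) (x : ∀ ω, K ω) : Prop :=
  ∃ (N : ℕ) (c : ℕ → Ω → ℂ), (∀ j, Measurable (c j)) ∧
    ∀ ω, x ω = ∑ j ∈ Finset.range N, c j ω • v j ω

variable {v : ℕ → ∀ ω, K ω}

theorem MS.basic (n : ℕ) : MS v (v n) := by
  classical
  refine ⟨n + 1, fun j _ => if j = n then 1 else 0, fun j => measurable_const, fun ω => ?_⟩
  rw [Finset.sum_eq_single n]
  · simp
  · intro b _ hb; simp [hb]
  · intro h; exact absurd (Finset.mem_range.2 (Nat.lt_succ_self n)) h

theorem MS.ext_range {x : ∀ ω, K ω} (hx : MS v x) : ∃ N : ℕ, ∀ M ≥ N, ∃ c : ℕ → Ω → ℂ,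
    (∀ j, Measurable (c j)) ∧ ∀ ω, x ω = ∑ j ∈ Finset.range M, c j ω • v j ω := by
  classical
  obtain ⟨N, c, hc, hx⟩ := hx
  refine ⟨N, fun M hM => ⟨fun j ω => if j < N then c j ω else 0, fun j => ?_, fun ω => ?_⟩⟩
  · by_cases h : j < N
    · simpa [h] using hc j
    · simpa [h] using measurable_const
  · rw [hx]
    rw [← Finset.sum_subset (Finset.range_mono hM)]
    · refine Finset.sum_congr rfl fun j hj => ?_
      beta_reduce
      rw [if_pos (Finset.mem_range.1 hj)]
    · intro j _ hj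
      beta_reduce
      rw [if_neg (fun h => hj (Finset.mem_range.2 h)), zero_smul]

theorem MS.add {x y : ∀ ω, K ω} (hx : MS v x) (hy : MS v y) : MS v fun ω => x ω + y ω := by
  obtain ⟨N, hN⟩ := hx.ext_range
  obtain ⟨N', hN'⟩ := hy.ext_range
  obtain ⟨c, hc, hx⟩ := hN (max N N') (le_max_left _ _)
  obtain ⟨c', hc', hy⟩ := hN' (max N N') (le_max_right _ _)
  refine ⟨max N N', fun j ω => c j ω + c' j ω, fun j => (hc j).add (hc' j), fun ω => ?_⟩
  beta_reduce
  rw [hx, hy, ← Finset.sum_add_distrib]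
  exact Finset.sum_congr rfl fun j _ => (add_smul _ _ _).symm

theorem MS.smul {x : ∀ ω, K ω} (hx : MS v x) {g : Ω → ℂ} (hg : Measurable g) :
    MS v fun ω => g ω • x ω := by
  obtain ⟨N, c, hc, hx⟩ := hx
  refine ⟨N, fun j ω => g ω * c j ω, fun j => hg.mul (hc j), fun ω => ?_⟩
  beta_reduce
  rw [hx, Finset.smul_sum]
  exact Finset.sum_congr rfl fun j _ => smul_smul _ _ _

theorem MS.sub {x y : ∀ ω, K ω} (hx : MS v x) (hy : MS v y) : MS v fun ω => x ω - y ω := by
  have := hx.add (hy.smul (g := fun _ => -1) measurable_const)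
  simpa [sub_eq_add_neg] using this

theorem MS.zero : MS v fun ω => (0 : K ω) := ⟨0, fun _ _ => 0, fun _ => measurable_const, by simp⟩

theorem MS.sum {s : Finset ℕ} {x : ℕ → ∀ ω, K ω} (hx : ∀ i ∈ s, MS v (x i)) :
    MS v fun ω => ∑ i ∈ s, x i ω := by
  classical
  induction s using Finset.induction_on with
  | empty => simpa using MS.zero
  | insert a s ha ih =>
    simp only [Finset.sum_insert ha]
    exact (hx a (Finset.mem_insert_self _ _)).add
      (ih fun i hi => hx i (Finset.mem_insert_of_mem hi))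

theorem MS.inner_op {x y : ∀ ω, K ω} (hx : MS v x) (hy : MS v y)
    (T : ∀ ω, K ω →L[ℂ] K ω)
    (hT : ∀ i j, Measurable fun ω => ⟪v i ω, T ω (v j ω)⟫_ℂ) :
    Measurable fun ω => ⟪x ω, T ω (y ω)⟫_ℂ := by
  obtain ⟨N, c, hc, hx⟩ := hx
  obtain ⟨N', c', hc', hy⟩ := hy
  have e : (fun ω => ⟪x ω, T ω (y ω)⟫_ℂ) = fun ω => ∑ i ∈ Finset.range N,
      ∑ j ∈ Finset.range N', (starRingEnd ℂ) (c i ω) * (c' j ω * ⟪v i ω, T ω (v j ω)⟫_ℂ) := by
    funext ω
    rw [hx, hy, sum_inner]
    refine Finset.sum_congr rfl fun i _ => ?_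
    rw [inner_smul_left, map_sum, inner_sum, Finset.mul_sum]
    refine Finset.sum_congr rfl fun j _ => ?_
    rw [map_smul, inner_smul_right]
  rw [e]
  refine Finset.measurable_sum _ fun i _ => Finset.measurable_sum _ fun j _ => ?_
  exact (Complex.continuous_conj.measurable.comp (hc i)).mul ((hc' j).mul (hT i j))

theorem MS.inner {x y : ∀ ω, K ω} (hx : MS v x) (hy : MS v y)
    (hG : ∀ i j, Measurable fun ω => ⟪v i ω, v j ω⟫_ℂ) :
    Measurable fun ω => ⟪x ω, y ω⟫_ℂ :=
  hx.inner_op hy (fun ω => ContinuousLinearMap.id ℂ (K ω)) hG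

theorem MS.norm {x : ∀ ω, K ω} (hx : MS v x)
    (hG : ∀ i j, Measurable fun ω => ⟪v i ω, v j ω⟫_ℂ) :
    Measurable fun ω => ‖x ω‖ := by
  have e : (fun ω => ‖x ω‖) = fun ω => √(⟪x ω, x ω⟫_ℂ).re := by
    funext ω
    exact norm_eq_sqrt_re_inner (𝕜 := ℂ) (x ω)
  rw [e]
  exact (Complex.measurable_re.comp (hx.inner hx hG)).sqrt

theorem MS.gs (hG : ∀ i j, Measurable fun ω => ⟪v i ω, v j ω⟫_ℂ) (n : ℕ) :
    MS v fun ω => gramSchmidt ℂ (fun k => v k ω) n := by
  induction n using Nat.strong_induction_on with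
  | _ n ih =>
    have e : (fun ω => gramSchmidt ℂ (fun k => v k ω) n) = fun ω => v n ω -
        ∑ i ∈ Finset.Iio n, ((⟪gramSchmidt ℂ (fun k => v k ω) i, v n ω⟫_ℂ /
          ((‖gramSchmidt ℂ (fun k => v k ω) i‖ : ℝ) : ℂ) ^ 2) •
            gramSchmidt ℂ (fun k => v k ω) i) := by
      funext ω
      exact eq_sub_of_add_eq (gramSchmidt_def'' ℂ (fun k => v k ω) n).symm
    rw [e]
    refine (MS.basic n).sub (MS.sum fun i hi => ?_)
    have hi' := ih i (Finset.mem_Iio.1 hi)
    refine hi'.smul ?_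
    exact (hi'.inner (MS.basic n) hG).div
      ((Complex.measurable_ofReal.comp (hi'.norm hG)).pow_const 2)

theorem measurable_gs (hG : ∀ i j, Measurable fun ω => ⟪v i ω, v j ω⟫_ℂ)
    (T : ∀ ω, K ω →L[ℂ] K ω)
    (hT : ∀ i j, Measurable fun ω => ⟪v i ω, T ω (v j ω)⟫_ℂ) (m n : ℕ) :
    Measurable fun ω => ⟪gramSchmidtNormed ℂ (fun k => v k ω) m,
      T ω (gramSchmidtNormed ℂ (fun k => v k ω) n)⟫_ℂ := by
  have h : ∀ n, MS v fun ω => gramSchmidtNormed ℂ (fun k => v k ω) n := by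
    intro n
    have h1 := MS.gs hG n
    refine h1.smul (g := fun ω => ((‖gramSchmidt ℂ (fun k => v k ω) n‖ : ℝ) : ℂ)⁻¹) ?_
    exact (Complex.measurable_ofReal.comp (h1.norm hG)).inv
  exact (h m).inner_op (h n) T hT

end sections

end Pool.Agent.H60MT
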