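import Pool.Agent.H60MT.Form

/-!
# Extension of formal functionals to the algebraic tensor product
-/

set_option autoImplicit false
set_option linter.all false

open scoped TensorProduct InnerProductSpace Topology
open MeasureTheory Filter

namespace Pool.Agent.H60MT

/-- Extension by density. -/
theorem exists_ext {X Y T : Type*} [NormedAddCommGroup X] [NormedSpace ℂ X]
    [NormedAddCommGroup Y] [NormedSpace ℂ Y] [CompleteSpace Y] (e : T → X) (he : DenseRange e)
    (g : T → Y) (C : ℝ) (hC0 : 0 ≤ C) (hC : ∀ s t, ‖g s - g t‖ ≤ C * ‖e s - e t‖)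
    (hadd : ∀ s t, ∃ u, e u = e s + e t ∧ g u = g s + g t)
    (him : ∀ s, ∃ u, e u = Complex.I • e s ∧ g u = Complex.I • g s)
    (h0 : ∃ u, e u = 0 ∧ g u = 0) :
    ∃ G : X →L[ℂ] Y, (∀ t, G (e t) = g t) ∧ ∀ x, ‖G x‖ ≤ C * ‖x‖ := by
  letI : PseudoMetricSpace T := PseudoMetricSpace.induced e inferInstance
  have hue : IsUniformInducing e := ⟨rfl⟩
  have hug : UniformContinuous g := by
    have : LipschitzWith ⟨C, hC0⟩ g := LipschitzWith.of_dist_le_mul fun s t => by
      have h1 := hC s t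
      rw [← dist_eq_norm, ← dist_eq_norm] at h1
      exact h1
    exact this.uniformContinuous
  set G₀ : X → Y := (hue.isDenseInducing he).extend g with hG₀
  have hc : UniformContinuous G₀ := uniformContinuous_uniformly_extend hue he hug
  have hcc : Continuous G₀ := hc.continuous
  have hG : ∀ t, G₀ (e t) = g t := fun t => uniformly_extend_of_ind hue he hug t
  have hadd' : ∀ x y, G₀ (x + y) = G₀ x + G₀ y := by
    intro x y
    refine he.induction_on₂ (p := fun x y => G₀ (x + y) = G₀ x + G₀ y) ?_ ?_ x y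
    · exact isClosed_eq (by fun_prop) (by fun_prop)
    · intro s t
      obtain ⟨u, hu, hgu⟩ := hadd s t
      rw [← hu, hG, hG, hG, hgu]
  have hI : ∀ x, G₀ (Complex.I • x) = Complex.I • G₀ x := by
    intro x
    refine he.induction_on (p := fun x => G₀ (Complex.I • x) = Complex.I • G₀ x) x ?_ ?_
    · exact isClosed_eq (by fun_prop) (by fun_prop)
    · intro s
      obtain ⟨u, hu, hgu⟩ := him s
      rw [← hu, hG, hG, hgu]
  let A : X →+ Y := AddMonoidHom.mk' G₀ hadd'
  have hre : ∀ (r : ℝ) (x : X), G₀ (r • x) = r • G₀ x := fun r x => map_real_smul A hcc r x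
  have hsm : ∀ (c : ℂ) (x : X), G₀ (c • x) = c • G₀ x := by
    intro c x
    have e1 : c • x = c.re • x + c.im • (Complex.I • x) := by
      conv_lhs => rw [← Complex.re_add_im c, add_smul, mul_smul]
      simp only [Complex.coe_smul]
    have e2 : c • G₀ x = c.re • G₀ x + c.im • (Complex.I • G₀ x) := by
      conv_lhs => rw [← Complex.re_add_im c, add_smul, mul_smul]
      simp only [Complex.coe_smul]
    rw [e1, hadd', hre, hre, hI, e2]
  refine ⟨⟨⟨⟨G₀, hadd'⟩, hsm⟩, hcc⟩, hG, fun x => ?_⟩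
  refine he.induction_on (p := fun x => ‖G₀ x‖ ≤ C * ‖x‖) x ?_ ?_
  · exact isClosed_le (by fun_prop) (by fun_prop)
  · intro t
    obtain ⟨u, hu, hgu⟩ := h0
    have := hC t u
    rw [hu, hgu, sub_zero, sub_zero] at this
    rwa [hG]

/-- Bilinear extension by density. -/
theorem exists_ext₂ {X Y S T : Type*} [NormedAddCommGroup X] [NormedSpace ℂ X]
    [NormedAddCommGroup Y] [NormedSpace ℂ Y] (e₁ : S → X) (e₂ : T → Y) (h₁ : DenseRange e₁)
    (h₂ : DenseRange e₂) (g : S → T → ℂ) (C : ℝ) (hC0 : 0 ≤ C)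
    (hb : ∀ s t, ‖g s t‖ ≤ C * (‖e₁ s‖ * ‖e₂ t‖))
    (sub₁ : ∀ s s', ∃ u, e₁ u = e₁ s - e₁ s' ∧ ∀ t, g u t = g s t - g s' t)
    (add₁ : ∀ s s', ∃ u, e₁ u = e₁ s + e₁ s' ∧ ∀ t, g u t = g s t + g s' t)
    (im₁ : ∀ s, ∃ u, e₁ u = Complex.I • e₁ s ∧ ∀ t, g u t = Complex.I * g s t)
    (z₁ : ∃ u, e₁ u = 0)
    (sub₂ : ∀ t t', ∃ u, e₂ u = e₂ t - e₂ t' ∧ ∀ s, g s u = g s t - g s t')
    (add₂ : ∀ t t', ∃ u, e₂ u = e₂ t + e₂ t' ∧ ∀ s, g s u = g s t + g s t')
    (im₂ : ∀ t, ∃ u, e₂ u = Complex.I • e₂ t ∧ ∀ s, g s u = Complex.I * g s t)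
    (z₂ : ∃ u, e₂ u = 0) :
    ∃ G : X →L[ℂ] Y →L[ℂ] ℂ, (∀ s t, G (e₁ s) (e₂ t) = g s t) ∧
      ∀ x y, ‖G x y‖ ≤ C * (‖x‖ * ‖y‖) := by
  have step1 : ∀ s, ∃ G : Y →L[ℂ] ℂ, (∀ t, G (e₂ t) = g s t) ∧
      ∀ x, ‖G x‖ ≤ C * ‖e₁ s‖ * ‖x‖ := by
    intro s
    refine exists_ext e₂ h₂ (g s) _ (by positivity) ?_ ?_ ?_ ?_
    · intro t t'
      obtain ⟨u, hu, hgu⟩ := sub₂ t t'
      rw [← hu, ← hgu, mul_assoc]
      exact hb _ _
    · intro t t'
      obtain ⟨u, hu, hgu⟩ := add₂ t t'
      exact ⟨u, hu, hgu s⟩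
    · intro t
      obtain ⟨u, hu, hgu⟩ := im₂ t
      exact ⟨u, hu, by rw [hgu, smul_eq_mul]⟩
    · obtain ⟨u, hu⟩ := z₂
      refine ⟨u, hu, ?_⟩
      have := hb s u
      rw [hu, norm_zero, mul_zero, mul_zero] at this
      exact norm_le_zero_iff.1 this
  choose G hG hGb using step1
  obtain ⟨GG, hGG, hGGb⟩ := exists_ext e₁ h₁ G C hC0
    (by
      intro s s'
      obtain ⟨u, hu, hgu⟩ := sub₁ s s'
      refine ContinuousLinearMap.opNorm_le_bound _ (by positivity) fun b => ?_
      refine h₂.induction_on (p := fun b => ‖(G s - G s') b‖ ≤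
        C * ‖e₁ s - e₁ s'‖ * ‖b‖) b ?_ ?_
      · exact isClosed_le (by fun_prop) (by fun_prop)
      · intro t
        rw [ContinuousLinearMap.sub_apply, hG, hG, ← hgu, ← hu, mul_assoc]
        exact hb _ _)
    (by
      intro s t
      obtain ⟨u, hu, hgu⟩ := add₁ s t
      refine ⟨u, hu, ContinuousLinearMap.ext fun b => ?_⟩
      refine h₂.induction_on (p := fun b => (G u) b = (G s + G t) b) b ?_ ?_
      · exact isClosed_eq (by fun_prop) (by fun_prop)
      · intro t'
        rw [ContinuousLinearMap.add_apply, hG, hG, hG, hgu])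
    (by
      intro s
      obtain ⟨u, hu, hgu⟩ := im₁ s
      refine ⟨u, hu, ContinuousLinearMap.ext fun b => ?_⟩
      refine h₂.induction_on (p := fun b => (G u) b = (Complex.I • G s) b) b ?_ ?_
      · exact isClosed_eq (by fun_prop) (by fun_prop)
      · intro t'
        rw [ContinuousLinearMap.smul_apply, hG, hG, hgu, smul_eq_mul])
    (by
      obtain ⟨u, hu⟩ := z₁
      refine ⟨u, hu, ?_⟩
      have : ‖G u‖ ≤ 0 := by
        refine ContinuousLinearMap.opNorm_le_bound _ le_rfl fun b => ?_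
        have := hGb u b
        rwa [hu, norm_zero, mul_zero] at this
      exact norm_le_zero_iff.1 this)
  refine ⟨GG, fun s t => by rw [hGG, hG], fun x y => ?_⟩
  calc ‖GG x y‖ ≤ ‖GG x‖ * ‖y‖ := (GG x).le_opNorm y
    _ ≤ (C * ‖x‖) * ‖y‖ := by gcongr; exact hGGb x
    _ = _ := by ring

/-- Multiplication of formal elements by the imaginary unit. -/
noncomputable def imv : Vf →+ Vf :=
  Finsupp.mapDomain.addMonoidHom fun p : Tm × Tm => (Tm.im p.1, p.2)

theorem imv_single (p : Tm × Tm) (q : ℚ) :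
    imv (Finsupp.single p q) = Finsupp.single (Tm.im p.1, p.2) q := by
  simp [imv, Finsupp.mapDomain_single]

theorem evT_imv (w : Gam × Gam) (x : Vf) : evT w (imv x) = Complex.I • evT w x := by
  induction x using Finsupp.induction_linear with
  | zero => simp
  | add x y hx hy => rw [map_add, map_add, hx, hy, map_add, smul_add]
  | single p q =>
    rw [imv_single, evT_single, evT_single, smul_comm]
    congr 1

theorem exists_mul (x y : Vf) : ∃ z, ∀ w, evT w z = evT w x * evT w y := by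
  induction x using Finsupp.induction_linear with
  | zero => exact ⟨0, fun w => by simp⟩
  | add x x' hx hx' =>
    obtain ⟨z, hz⟩ := hx
    obtain ⟨z', hz'⟩ := hx'
    exact ⟨z + z', fun w => by rw [map_add, hz, hz', map_add, add_mul]⟩
  | single p q =>
    induction y using Finsupp.induction_linear with
    | zero => exact ⟨0, fun w => by simp⟩
    | add y y' hy hy' =>
      obtain ⟨z, hz⟩ := hy
      obtain ⟨z', hz'⟩ := hy'
      exact ⟨z + z', fun w => by rw [map_add, hz, hz', map_add, mul_add]⟩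
    | single p' q' =>
      refine ⟨Finsupp.single (Tm.mul p.1 p'.1, Tm.mul p.2 p'.2) (q * q'), fun w => ?_⟩
      rw [evT_single, evT_single, evT_single, smul_mul_smul_comm]
      have h1 : pur w (p.1.mul p'.1, p.2.mul p'.2) = pur w p * pur w p' := by
        simp only [pur, Tm.evA_mul, Algebra.TensorProduct.tmul_mul_tmul]
      rw [h1]
      congr 1
      push_cast
      rfl

theorem exists_star (x : Vf) : ∃ z, ∀ w, evT w z = star (evT w x) := by
  induction x using Finsupp.induction_linear with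
  | zero => exact ⟨0, fun w => by simp⟩
  | add x x' hx hx' =>
    obtain ⟨z, hz⟩ := hx
    obtain ⟨z', hz'⟩ := hx'
    exact ⟨z + z', fun w => by rw [map_add, hz, hz', map_add, star_add]⟩
  | single p q =>
    refine ⟨Finsupp.single (Tm.adj p.1, Tm.adj p.2) q, fun w => ?_⟩
    rw [evT_single, evT_single, star_smul]
    congr 1
    simp

theorem exists_sq (x : Vf) : ∃ z, ∀ w, evT w z = star (evT w x) * evT w x := by
  obtain ⟨y, hy⟩ := exists_star x
  obtain ⟨z, hz⟩ := exists_mul y x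
  exact ⟨z, fun w => by rw [hz, hy]⟩

/-- Good functionals on the algebraic tensor product. -/
structure GoodF (w : Gam × Gam) (F : Tn w →ₗ[ℂ] ℂ) : Prop where
  herm : ∀ z, F (star z) = star (F z)
  pos : ∀ z, 0 ≤ (F (star z * z)).re
  bd : ∀ a b, ‖F (a ⊗ₜ b)‖ ≤ 2 * (‖a‖ * ‖b‖)
  re_le : ∀ a b, (F (a ⊗ₜ b)).re ≤ ‖a‖ * ‖b‖

theorem exists_goodF {w : Gam × Gam} {f : Vf → ℝ} (hf : FF w f) :
    ∃ F : Tn w →ₗ[ℂ] ℂ, GoodF w F ∧ ∀ x, F (evT w x) = f x - Complex.I * f (imv x) := by
  set φ : Tm → Tm → ℝ := fun s t => f (Finsupp.single (s, t) 1) with hφ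
  have hev : ∀ (w : Gam × Gam) (s t : Tm), evT w (Finsupp.single (s, t) 1) =
      Tm.evA w.1 s ⊗ₜ[ℂ] Tm.evA w.2 t := fun w s t => by
    rw [evT_single]; simp [pur]
  have hm : (((-1 : ℚ) : ℝ) : ℂ) = -1 := by norm_num
  have hcg : ∀ s s', (∀ γ, Tm.evA γ s = Tm.evA γ s') → ∀ t, φ s t = φ s' t := by
    intro s s' h t
    refine hf.congr _ _ fun w => ?_
    rw [hev, hev, h]
  have A1 : ∀ s s' t, φ (Tm.add s s') t = φ s t + φ s' t := by
    intro s s' t
    simp only [hφ]
    rw [← hf.add]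
    refine hf.congr _ _ fun w => ?_
    rw [map_add, hev, hev, hev, Tm.evA_add, TensorProduct.add_tmul]
  have A2 : ∀ s t t', φ s (Tm.add t t') = φ s t + φ s t' := by
    intro s t t'
    simp only [hφ]
    rw [← hf.add]
    refine hf.congr _ _ fun w => ?_
    rw [map_add, hev, hev, hev, Tm.evA_add, TensorProduct.tmul_add]
  have N1 : ∀ s t, φ (Tm.smul (-1) s) t = -φ s t := by
    intro s t
    simp only [hφ]
    rw [← hf.neg]
    refine hf.congr _ _ fun w => ?_
    rw [map_neg, hev, hev, Tm.evA_smul, hm, neg_one_smul, TensorProduct.neg_tmul]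
  have N2 : ∀ s t, φ s (Tm.smul (-1) t) = -φ s t := by
    intro s t
    simp only [hφ]
    rw [← hf.neg]
    refine hf.congr _ _ fun w => ?_
    rw [map_neg, hev, hev, Tm.evA_smul, hm, neg_one_smul, TensorProduct.tmul_neg]
  have I1 : ∀ s t, φ (Tm.im (Tm.im s)) t = -φ s t := by
    intro s t
    simp only [hφ]
    rw [← hf.neg]
    refine hf.congr _ _ fun w => ?_
    rw [map_neg, hev, hev, Tm.evA_im, Tm.evA_im, smul_smul, Complex.I_mul_I,
      neg_one_smul, TensorProduct.neg_tmul]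
  have I2 : ∀ s t, φ s (Tm.im t) = φ (Tm.im s) t := by
    intro s t
    simp only [hφ]
    refine hf.congr _ _ fun w => ?_
    rw [hev, hev, Tm.evA_im, Tm.evA_im, ← TensorProduct.smul_tmul', TensorProduct.tmul_smul]
  have hb : ∀ s t, |φ s t| ≤ ‖Tm.evA w.1 s‖ * ‖Tm.evA w.2 t‖ := by
    intro s t
    refine (hf.abs_le _).trans ?_
    rw [cost_single]
    simp
  set g0 : Tm → Tm → ℂ := fun s t => (φ s t : ℂ) - Complex.I * φ (Tm.im s) t with hg0
  have gA1 : ∀ s s' t, g0 (Tm.add s s') t = g0 s t + g0 s' t := by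
    intro s s' t
    have := hcg (Tm.im (Tm.add s s')) (Tm.add (Tm.im s) (Tm.im s')) (fun γ => by simp) t
    simp only [hg0, this, A1]
    push_cast
    ring
  have gA2 : ∀ s t t', g0 s (Tm.add t t') = g0 s t + g0 s t' := by
    intro s t t'
    simp only [hg0, A2]
    push_cast
    ring
  have gN1 : ∀ s t, g0 (Tm.smul (-1) s) t = -g0 s t := by
    intro s t
    have := hcg (Tm.im (Tm.smul (-1) s)) (Tm.smul (-1) (Tm.im s)) (fun γ => by
      simp only [Tm.evA_im, Tm.evA_smul]; rw [smul_comm]) t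
    simp only [hg0, this, N1]
    push_cast
    ring
  have gN2 : ∀ s t, g0 s (Tm.smul (-1) t) = -g0 s t := by
    intro s t
    simp only [hg0, N2]
    push_cast
    ring
  have gI1 : ∀ s t, g0 (Tm.im s) t = Complex.I * g0 s t := by
    intro s t
    simp only [hg0, I1]
    push_cast
    linear_combination ((φ (Tm.im s) t : ℂ)) * Complex.I_mul_I
  have gI2 : ∀ s t, g0 s (Tm.im t) = Complex.I * g0 s t := by
    intro s t
    simp only [hg0, I2, I1]
    push_cast
    linear_combination ((φ (Tm.im s) t : ℂ)) * Complex.I_mul_I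
  have gb : ∀ s t, ‖g0 s t‖ ≤ 2 * (‖Tm.evA w.1 s‖ * ‖Tm.evA w.2 t‖) := by
    intro s t
    have h1 := hb s t
    have h2 := hb (Tm.im s) t
    have h3 : ‖Tm.evA w.1 (Tm.im s)‖ = ‖Tm.evA w.1 s‖ := by
      rw [Tm.evA_im, norm_smul, Complex.norm_I, one_mul]
    rw [h3] at h2
    calc ‖g0 s t‖ ≤ ‖(φ s t : ℂ)‖ + ‖Complex.I * φ (Tm.im s) t‖ := norm_sub_le _ _
      _ = |φ s t| + |φ (Tm.im s) t| := by simp
      _ ≤ _ := by linarith
  have hd1 := Tm.denseRange_evA w.1
  have hd2 := Tm.denseRange_evA w.2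
  have hsub : ∀ γ s s', Tm.evA γ (Tm.add s (Tm.smul (-1) s')) = Tm.evA γ s - Tm.evA γ s' := by
    intro γ s s'
    rw [Tm.evA_add, Tm.evA_smul, hm, neg_one_smul, sub_eq_add_neg]
  obtain ⟨GG, hval, hGGb⟩ := exists_ext₂ (Tm.evA w.1) (Tm.evA w.2) hd1 hd2 g0 2 (by norm_num) gb
    (fun s s' => ⟨Tm.add s (Tm.smul (-1) s'), hsub _ s s', fun t => by
      rw [gA1, gN1, sub_eq_add_neg]⟩)
    (fun s s' => ⟨Tm.add s s', rfl, gA1 s s'⟩)
    (fun s => ⟨Tm.im s, rfl, gI1 s⟩)
    ⟨Tm.zero, rfl⟩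
    (fun s s' => ⟨Tm.add s (Tm.smul (-1) s'), hsub _ s s', fun t => by
      rw [gA2, gN2, sub_eq_add_neg]⟩)
    (fun t t' => ⟨Tm.add t t', rfl, fun s => gA2 s t t'⟩)
    (fun t => ⟨Tm.im t, rfl, fun s => gI2 s t⟩)
    ⟨Tm.zero, rfl⟩
  have hd := hd1.prodMap hd2
  set F : Tn w →ₗ[ℂ] ℂ := TensorProduct.lift GG.toLinearMap₁₂ with hF
  have hFt : ∀ a b, F (a ⊗ₜ b) = GG a b := fun a b => by
    rw [hF, TensorProduct.lift.tmul]; rfl
  have hcGG : Continuous fun p : cstar w.1 × cstar w.2 => GG p.1 p.2 := by fun_prop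
  let fh : Vf →+ ℝ := AddMonoidHom.mk' f hf.add
  have hfq : ∀ (q : ℚ) (p : Tm × Tm), f (Finsupp.single p q) = q * φ p.1 p.2 := by
    intro q p
    have := map_rat_smul fh q (Finsupp.single p 1)
    rw [Finsupp.smul_single, smul_eq_mul, mul_one] at this
    rw [show f (Finsupp.single p q) = fh (Finsupp.single p q) from rfl, this, Rat.smul_def]
    rfl
  have hFe : ∀ x, F (evT w x) = f x - Complex.I * f (imv x) := by
    intro x
    induction x using Finsupp.induction_linear with
    | zero => simp [hf.zero]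
    | add x y hx hy =>
      rw [map_add, map_add, hx, hy, map_add, hf.add, hf.add]
      push_cast
      ring
    | single p q =>
      rw [imv_single, evT_single, map_smul, pur, hFt, hval, hfq, hfq, smul_eq_mul]
      simp only [hg0]
      push_cast
      ring
  refine ⟨F, ⟨?_, ?_, ?_, ?_⟩, hFe⟩
  · intro z
    induction z using TensorProduct.induction_on with
    | zero => simp
    | add x y hx hy => rw [star_add, map_add, hx, hy, map_add, star_add]
    | tmul a b =>
      rw [TensorProduct.star_tmul, hFt, hFt]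
      have hcl : IsClosed {p : cstar w.1 × cstar w.2 | GG (star p.1) (star p.2) =
          star (GG p.1 p.2)} := by
        refine isClosed_eq ?_ ?_
        · exact hcGG.comp (continuous_star.prodMap continuous_star)
        · exact continuous_star.comp hcGG
      refine hd.induction_on (p := fun p : cstar w.1 × cstar w.2 => GG (star p.1) (star p.2) =
          star (GG p.1 p.2)) (a, b) hcl ?_
      rintro ⟨s, t⟩
      simp only [Prod.map_apply]
      rw [← Tm.evA_adj, ← Tm.evA_adj, hval, hval]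
      have e1 : φ (Tm.adj s) (Tm.adj t) = φ s t := by
        have := hf.skew (Finsupp.single (s, t) 1 - Finsupp.single (Tm.adj s, Tm.adj t) 1)
          (fun w => by
            rw [map_sub, hev, hev, Tm.evA_adj, Tm.evA_adj, star_sub, TensorProduct.star_tmul,
              TensorProduct.star_tmul, star_star, star_star, neg_sub])
        rw [hf.sub] at this
        linarith
      have e2 : φ (Tm.im (Tm.adj s)) (Tm.adj t) = -φ (Tm.im s) t := by
        have := hf.skew (Finsupp.single (Tm.im s, t) 1 +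
          Finsupp.single (Tm.im (Tm.adj s), Tm.adj t) 1)
          (fun w => by
            rw [map_add, hev, hev, Tm.evA_im, Tm.evA_im, Tm.evA_adj, Tm.evA_adj, star_add,
              TensorProduct.star_tmul, TensorProduct.star_tmul, star_smul, star_smul,
              star_star, star_star, Complex.star_def, Complex.conj_I, neg_smul, neg_smul,
              TensorProduct.neg_tmul, TensorProduct.neg_tmul, neg_add, add_comm])
        rw [hf.add] at this
        linarith
      simp only [hg0, e1, e2]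
      simp
  · intro z
    obtain ⟨S, hS⟩ := TensorProduct.exists_finset z
    have key : ∀ c : S → cstar w.1 × cstar w.2,
        0 ≤ (F (star (∑ i, (c i).1 ⊗ₜ[ℂ] (c i).2) * ∑ i, (c i).1 ⊗ₜ[ℂ] (c i).2)).re := by
      have hdd : DenseRange (Pi.map fun _ : S => Prod.map (Tm.evA w.1) (Tm.evA w.2)) :=
        DenseRange.piMap fun _ => hd
      intro c
      refine hdd.induction_on (p := fun c : S → cstar w.1 × cstar w.2 =>
        0 ≤ (F (star (∑ i, (c i).1 ⊗ₜ[ℂ] (c i).2) * ∑ i, (c i).1 ⊗ₜ[ℂ] (c i).2)).re) c ?_ ?_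
      · have e : ∀ c : S → cstar w.1 × cstar w.2,
            F (star (∑ i, (c i).1 ⊗ₜ[ℂ] (c i).2) * ∑ i, (c i).1 ⊗ₜ[ℂ] (c i).2) =
            ∑ i, ∑ j, GG (star (c i).1 * (c j).1) (star (c i).2 * (c j).2) := by
          intro c
          rw [star_sum, Finset.sum_mul_sum, map_sum]
          refine Finset.sum_congr rfl fun i _ => ?_
          rw [map_sum]
          refine Finset.sum_congr rfl fun j _ => ?_
          rw [TensorProduct.star_tmul, Algebra.TensorProduct.tmul_mul_tmul, hFt]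
        simp only [e]
        refine isClosed_le continuous_const (Complex.continuous_re.comp ?_)
        refine continuous_finset_sum _ fun i _ => continuous_finset_sum _ fun j _ => ?_
        have h1 : Continuous fun c : S → cstar w.1 × cstar w.2 =>
            (star (c i).1 * (c j).1, star (c i).2 * (c j).2) := by fun_prop
        exact hcGG.comp h1
      · intro t
        simp only [Pi.map_apply, Prod.map_apply]
        set x : Vf := ∑ i : S, Finsupp.single (t i) 1 with hx
        have hxe : ∀ w, evT w x = ∑ i : S, Tm.evA w.1 (t i).1 ⊗ₜ[ℂ] Tm.evA w.2 (t i).2 := by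
          intro w
          rw [hx, map_sum]
          exact Finset.sum_congr rfl fun i _ => hev _ _ _
        obtain ⟨y, hy⟩ := exists_sq x
        have h1 := hf.pos y (Pos.sq x y hy)
        have h2 := hFe y
        rw [hy, hxe] at h2
        change 0 ≤ (F (star (∑ i, Tm.evA w.1 (t i).1 ⊗ₜ[ℂ] Tm.evA w.2 (t i).2) *
          ∑ i, Tm.evA w.1 (t i).1 ⊗ₜ[ℂ] Tm.evA w.2 (t i).2)).re
        rw [h2]
        simpa using h1
    have h := key fun i => i.1
    have h2 : ∑ i : S, (i.1.1 ⊗ₜ[ℂ] i.1.2 : Tn w) = z := by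
      rw [hS, Finset.sum_coe_sort S (fun i => (i.1 ⊗ₜ[ℂ] i.2 : Tn w))]
    rwa [h2] at h
  · intro a b
    rw [hFt]
    exact hGGb a b
  · intro a b
    rw [hFt]
    refine hd.induction_on (p := fun p : cstar w.1 × cstar w.2 => (GG p.1 p.2).re ≤
      ‖p.1‖ * ‖p.2‖) (a, b) ?_ ?_
    · exact isClosed_le (Complex.continuous_re.comp hcGG) (by fun_prop)
    · rintro ⟨s, t⟩
      simp only [Prod.map_apply]
      rw [hval]
      have : (g0 s t).re = φ s t := by simp [hg0]
      rw [this]
      exact (le_abs_self _).trans (hb s t)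

end Pool.Agent.H60MT
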