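import Pool.Agent.H60MT.Main

/-!
# The measurable field of functionals and the construction
-/

set_option autoImplicit false
set_option linter.all false

open scoped InnerProductSpace Topology TensorProduct
open Filter InnerProductSpace

namespace Pool.Agent.H60MT

theorem exists_field : ∃ (zs : ℕ → Vf) (F : ∀ w : Gam × Gam, Tn w →ₗ[ℂ] ℂ),
    Function.Surjective zs ∧ (∀ w, GoodF w (F w)) ∧
    (∀ x : Vf, Measurable fun w => F w (evT w x)) ∧
    ∀ w (ρ : GNSRep (F w)) (D : Type) (_ : NonUnitalCStarAlgebra D) (σ : Tn w →⋆ₙₐ[ℂ] D)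
      (z : Tn w), ‖σ z‖ ≤ ‖ρ.π z‖ := by
  obtain ⟨zs, hzs⟩ := exists_surjective_nat Vf
  choose sqv hsqv using exists_sq
  choose fn hfm hfF hfx using fun n => exists_ff (sqv (zs n))
  have hfs : ∀ w x, Summable fun n => (1 / 2 : ℝ) ^ (n + 1) * fn n w x := fun w x =>
    FF.summable (fun n => hfF n w) (fun m => (1 / 2) ^ (m + 1)) (fun m => by positivity)
      (fun m => le_rfl) x
  have hff : ∀ w, FF w (fun x => ∑' n, (1 / 2 : ℝ) ^ (n + 1) * fn n w x) := fun w =>
    FF.comb (fun n => hfF n w) (fun m => (1 / 2) ^ (m + 1)) (fun m => by positivity)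
      (fun m => le_rfl)
  have hfmeas : ∀ x, Measurable fun w => ∑' n, (1 / 2 : ℝ) ^ (n + 1) * fn n w x := by
    intro x
    refine measurable_of_tendsto_metrizable (f := fun (N : ℕ) w =>
      ∑ n ∈ Finset.range N, (1 / 2 : ℝ) ^ (n + 1) * fn n w x) (fun N => ?_) ?_
    · exact Finset.measurable_sum _ fun n _ => (hfm n x).const_mul _
    · rw [tendsto_pi_nhds]
      intro w
      exact (hfs w x).hasSum.tendsto_sum_nat
  choose F hF hFe using fun w => exists_goodF (hff w)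
  refine ⟨zs, F, hzs, hF, fun x => ?_, fun w ρ D i σ z => ?_⟩
  · simp only [hFe]
    exact (Complex.measurable_ofReal.comp (hfmeas x)).sub
      ((Complex.measurable_ofReal.comp (hfmeas (imv x))).const_mul _)
  · exact rep_max (fun n => hfF n w) hzs hsqv (fun n => hfx n w) (hF w) (hFe w) ρ σ z

/-- The representation in `ℓ²` for one pair of codes. -/
theorem exists_rep {w : Gam × Gam} {zs : ℕ → Vf} (hzs : Function.Surjective zs)
    {F : Tn w →ₗ[ℂ] ℂ} (hF : GoodF w F) (ρ : GNSRep F) :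
    ∃ κ : Tn w →⋆ₙₐ[ℂ] BH, (∀ z, ‖κ z‖ = ‖ρ.π z‖) ∧ ∀ z m l, ⟪bas m, κ z (bas l)⟫_ℂ =
      ⟪gramSchmidtNormed ℂ (fun k => ρ.Λ (evT w (zs k))) m,
        ρ.π z (gramSchmidtNormed ℂ (fun k => ρ.Λ (evT w (zs k))) l)⟫_ℂ := by
  obtain ⟨J, hJ⟩ := exists_embed (fun k => ρ.Λ (evT w (zs k))) (dense_vectors hzs hF ρ)
  obtain ⟨c, hcn, hci⟩ := exists_conj J
  refine ⟨c.comp ρ.π, fun z => hcn _, fun z m l => ?_⟩
  rw [← hJ, ← hJ]
  exact hci _ _ _

theorem exists_construction : ∃ (Φ : Gam × Gam → Gam) (κ : ∀ w, Tn w →⋆ₙₐ[ℂ] BH)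
    (zs : ℕ → Vf), Measurable Φ ∧ Function.Surjective zs ∧
    (∀ w n, Φ w n = κ w (evT w (zs n))) ∧
    ∀ w (D : Type) (_ : NonUnitalCStarAlgebra D) (σ : Tn w →⋆ₙₐ[ℂ] D) (z : Tn w),
      ‖σ z‖ ≤ ‖κ w z‖ := by
  obtain ⟨zs, F, hzs, hF, hFmeas, hmax⟩ := exists_field
  have ρ' : ∀ w, Nonempty (GNSRep (F w)) := fun w =>
    nonempty_gns (gf_of (hF w).herm (hF w).pos (hF w).bd)
  let ρ : ∀ w, GNSRep (F w) := fun w => Classical.choice (ρ' w)
  choose κ hκn hκ using fun w => exists_rep hzs (hF w) (ρ w)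
  refine ⟨fun w n => κ w (evT w (zs n)), κ, zs, ?_, hzs, fun w n => rfl, fun w D i σ z => ?_⟩
  · refine measurable_gam fun n => wm_of_basis fun m l => ?_
    have hG : ∀ i j, Measurable fun w => ⟪(ρ w).Λ (evT w (zs i)), (ρ w).Λ (evT w (zs j))⟫_ℂ := by
      intro i j
      obtain ⟨s, hs⟩ := exists_star (zs i)
      obtain ⟨x, hx⟩ := exists_mul s (zs j)
      have e : (fun w => ⟪(ρ w).Λ (evT w (zs i)), (ρ w).Λ (evT w (zs j))⟫_ℂ) =
          fun w => F w (evT w x) := by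
        funext w
        rw [hx, hs]
        exact (ρ w).inner_eq _ _
      rw [e]
      exact hFmeas x
    have hT : ∀ i j, Measurable fun w => ⟪(ρ w).Λ (evT w (zs i)),
        (ρ w).π (evT w (zs n)) ((ρ w).Λ (evT w (zs j)))⟫_ℂ := by
      intro i j
      obtain ⟨s, hs⟩ := exists_star (zs i)
      obtain ⟨y, hy⟩ := exists_mul (zs n) (zs j)
      obtain ⟨x, hx⟩ := exists_mul s y
      have e : (fun w => ⟪(ρ w).Λ (evT w (zs i)),
          (ρ w).π (evT w (zs n)) ((ρ w).Λ (evT w (zs j)))⟫_ℂ) = fun w => F w (evT w x) := by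
        funext w
        rw [hx, hs, hy, (ρ w).π_apply, (ρ w).inner_eq]
      rw [e]
      exact hFmeas x
    simp only [hκ]
    exact measurable_gs (v := fun k w => (ρ w).Λ (evT w (zs k))) hG
      (fun w => (ρ w).π (evT w (zs n))) hT m l
  · rw [hκn]
    exact hmax w (ρ w) D i σ z

/-- **The maximal tensor product is a Borel construction.** -/
theorem max_tensor_borel : ∃ Φ : Gam × Gam → Gam, Measurable Φ ∧
    ∀ γ δ : Gam, IsMaxT (cstar γ) (cstar δ) (cstar (Φ (γ, δ))) := by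
  obtain ⟨Φ, κ, zs, hm, hzs, hΦ, hmax⟩ := exists_construction
  refine ⟨Φ, hm, fun γ δ => ?_⟩
  set w : Gam × Gam := (γ, δ) with hw
  have hmem : ∀ z, κ w z ∈ (cstar (Φ w) : Set BH) := by
    intro z
    refine hom_mem_of_dense w (κ w) (inferInstance : IsClosed (cstar (Φ w) : Set BH)) ?_ z
    intro x
    obtain ⟨n, rfl⟩ := hzs x
    rw [← hΦ]
    exact Tm.ev_mem (Φ w) (Tm.var n)
  let ι : Tn w →⋆ₙₐ[ℂ] cstar (Φ w) :=
    { toFun := fun z => ⟨κ w z, hmem z⟩
      map_smul' := fun c z => Subtype.ext (map_smul (κ w) c z)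
      map_zero' := Subtype.ext (map_zero (κ w))
      map_add' := fun x y => Subtype.ext (map_add (κ w) x y)
      map_mul' := fun x y => Subtype.ext (map_mul (κ w) x y)
      map_star' := fun x => Subtype.ext (map_star (κ w) x) }
  have hι : ∀ z, ‖ι z‖ = ‖κ w z‖ := fun z => rfl
  refine ⟨ι, ?_, ⟨?_, ?_, ?_, ?_, ?_⟩, ?_⟩
  · intro x
    rw [Topology.IsInducing.subtypeVal.closure_eq_preimage_closure_image, Set.mem_preimage]
    have h1 : (cstar (Φ w) : Set BH) ⊆ closure (Subtype.val '' Set.range ι) := by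
      have h2 : Subtype.val '' Set.range ι = (NonUnitalStarAlgHom.range (κ w) : Set BH) := by
        ext y
        constructor
        · rintro ⟨_, ⟨t, rfl⟩, rfl⟩; exact ⟨t, rfl⟩
        · rintro ⟨t, rfl⟩; exact ⟨_, ⟨t, rfl⟩, rfl⟩
      have h3 : (NonUnitalStarAlgebra.adjoin ℂ (Set.range fun n : ℕ => Φ w n)) ≤
          NonUnitalStarAlgHom.range (κ w) := by
        refine NonUnitalStarAlgebra.adjoin_le ?_
        rintro _ ⟨n, rfl⟩
        exact ⟨evT w (zs n), (hΦ w n).symm⟩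
      intro y hy
      have h4 : y ∈ closure ((NonUnitalStarAlgebra.adjoin ℂ (Set.range fun n : ℕ => Φ w n) :
        NonUnitalStarSubalgebra ℂ BH) : Set BH) := hy
      rw [h2]
      exact closure_mono h3 h4
    exact h1 x.2
  · intro x y
    rw [map_add]
    exact norm_add_le _ _
  · intro c x
    rw [map_smul]
    exact norm_smul _ _
  · intro x y
    rw [map_mul]
    exact norm_mul_le _ _
  · intro x
    rw [map_mul, map_star, CStarRing.norm_star_mul_self, sq]
  · intro x hx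
    by_contra h0
    obtain ⟨K, i1, i2, i3, σ, hσ⟩ := exists_hom_ne_zero w x h0
    have h1 := hmax w _ inferInstance σ x
    rw [← hι, hx] at h1
    exact hσ (norm_le_zero_iff.1 h1)
  · intro p hp z
    obtain ⟨D, i, σ, hσ⟩ := exists_cstar hp
    rw [← hσ, hι]
    exact hmax w D i σ z

end Pool.Agent.H60MT
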