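import Mathlib

/-!
# A measurable Hahn-Banach theorem over countable rational vector spaces
-/

set_option autoImplicit false
set_option linter.all false

open MeasureTheory Filter

namespace Pool.Agent.H60MT

variable {V : Type*} [AddCommGroup V] [Module ℚ V]

/-- Sublinear functionals. -/
structure Subl (P : V → ℝ) : Prop where
  add : ∀ x y, P (x + y) ≤ P x + P y
  smul : ∀ (q : ℚ) (x : V), 0 ≤ q → P (q • x) = q * P x

namespace Subl

variable {P : V → ℝ} (hP : Subl P)
include hP

theorem zero : P 0 = 0 := by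
  have := hP.smul 0 0 le_rfl
  simpa using this

theorem neg_le (x : V) : -P (-x) ≤ P x := by
  have := hP.add x (-x)
  rw [add_neg_cancel, hP.zero] at this
  linarith

/-- One step: make the functional linear in the direction `x`. -/
noncomputable def step (P : V → ℝ) (x : V) (y : V) : ℝ :=
  ⨅ t : {t : ℚ // 0 ≤ t}, (P (y + t.1 • x) - t.1 * P x)

omit hP in
theorem step_def (P : V → ℝ) (x y : V) :
    step P x y = ⨅ t : {t : ℚ // 0 ≤ t}, (P (y + t.1 • x) - t.1 * P x) := rfl

theorem lower (x y : V) (t : {t : ℚ // 0 ≤ t}) : -P (-y) ≤ P (y + t.1 • x) - t.1 * P x := by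
  have h1 := hP.add (y + t.1 • x) (-y)
  have h2 := hP.smul t.1 x t.2
  have h3 : y + t.1 • x + -y = t.1 • x := by abel
  rw [h3, h2] at h1
  linarith

theorem bdd (x y : V) : BddBelow (Set.range fun t : {t : ℚ // 0 ≤ t} =>
    (P (y + t.1 • x) - t.1 * P x)) := ⟨-P (-y), by rintro _ ⟨t, rfl⟩; exact hP.lower x y t⟩

theorem step_le (x y : V) (t : ℚ) (ht : 0 ≤ t) : step P x y ≤ P (y + t • x) - t * P x :=
  ciInf_le (hP.bdd x y) ⟨t, ht⟩

instance nonempty_nnq : Nonempty {t : ℚ // 0 ≤ t} := ⟨⟨0, le_rfl⟩⟩

theorem step_le_self (x y : V) : step P x y ≤ P y := by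
  simpa using hP.step_le x y 0 le_rfl

theorem step_neg (x : V) : step P x (-x) ≤ -P x := by
  have := hP.step_le x (-x) 1 zero_le_one
  simpa [hP.zero] using this

theorem step_subl (x : V) : Subl (step P x) := by
  have hadd : ∀ y z, step P x (y + z) ≤ step P x y + step P x z := by
    intro y z
    have key : ∀ t s : {t : ℚ // 0 ≤ t}, step P x (y + z) ≤
        (P (y + t.1 • x) - t.1 * P x) + (P (z + s.1 • x) - s.1 * P x) := by
      intro t s
      have h1 := hP.step_le x (y + z) (t.1 + s.1) (add_nonneg t.2 s.2)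
      have h2 := hP.add (y + t.1 • x) (z + s.1 • x)
      have h3 : y + t.1 • x + (z + s.1 • x) = y + z + (t.1 + s.1) • x := by
        rw [add_smul]; abel
      rw [h3] at h2
      push_cast at h1
      linarith
    have h1 : ∀ s : {t : ℚ // 0 ≤ t}, step P x (y + z) - (P (z + s.1 • x) - s.1 * P x) ≤
        step P x y := fun s => le_ciInf fun t => by linarith [key t s]
    have h2 : step P x (y + z) - step P x y ≤ step P x z := le_ciInf fun s => by
      linarith [h1 s]
    linarith
  have hle : ∀ (q : ℚ) (y : V), 0 < q → step P x (q • y) ≤ q * step P x y := by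
    intro q y hq
    have hq' : (0 : ℝ) < q := by exact_mod_cast hq
    rw [← div_le_iff₀' hq']
    refine le_ciInf fun t => ?_
    rw [div_le_iff₀' hq']
    have h1 := hP.step_le x (q • y) (q * t.1) (mul_nonneg hq.le t.2)
    have h2 : q • y + (q * t.1) • x = q • (y + t.1 • x) := by
      rw [smul_add, smul_smul]
    rw [h2, hP.smul _ _ hq.le] at h1
    push_cast at h1
    linarith
  refine ⟨hadd, fun q y hq => ?_⟩
  rcases hq.eq_or_lt with rfl | hq
  · simp only [zero_smul, Rat.cast_zero, zero_mul]
    refine le_antisymm ?_ ?_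
    · simpa [hP.zero] using hP.step_le_self x 0
    · refine le_ciInf fun t => ?_
      have := hP.lower x 0 t
      simpa [hP.zero] using this
  · refine le_antisymm (hle q y hq) ?_
    have hq' : (0 : ℝ) < q := by exact_mod_cast hq
    have h1 := hle q⁻¹ (q • y) (inv_pos.2 hq)
    rw [smul_smul, inv_mul_cancel₀ hq.ne', one_smul] at h1
    push_cast at h1
    calc (q : ℝ) * step P x y ≤ q * ((q : ℝ)⁻¹ * step P x (q • y)) := by gcongr
      _ = _ := by field_simp

end Subl

/-- The iteration. -/
noncomputable def iter (P : V → ℝ) (x : ℕ → V) : ℕ → V → ℝ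
  | 0 => P
  | n + 1 => Subl.step (iter P x n) (x n)

theorem iter_subl {P : V → ℝ} (hP : Subl P) (x : ℕ → V) (n : ℕ) : Subl (iter P x n) := by
  induction n with
  | zero => exact hP
  | succ n ih => exact ih.step_subl _

theorem iter_anti {P : V → ℝ} (hP : Subl P) (x : ℕ → V) (y : V) :
    Antitone fun n => iter P x n y :=
  antitone_nat_of_succ_le fun n => (iter_subl hP x n).step_le_self _ _

theorem iter_lower {P : V → ℝ} (hP : Subl P) (x : ℕ → V) (y : V) (n : ℕ) :
    -P (-y) ≤ iter P x n y := by
  have h1 := (iter_subl hP x n).neg_le y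
  have h2 := iter_anti hP x (-y) (Nat.zero_le n)
  simp only [iter] at h2
  linarith

/-- The limit functional. -/
noncomputable def lim (P : V → ℝ) (x : ℕ → V) (y : V) : ℝ := ⨅ n, iter P x n y

theorem lim_le {P : V → ℝ} (hP : Subl P) (x : ℕ → V) (n : ℕ) (y : V) :
    lim P x y ≤ iter P x n y :=
  ciInf_le ⟨-P (-y), by rintro _ ⟨n, rfl⟩; exact iter_lower hP x y n⟩ n

theorem lim_neg {P : V → ℝ} (hP : Subl P) {x : ℕ → V} (hx : Function.Surjective x) (y : V) :
    lim P x (-y) ≤ -lim P x y := by
  obtain ⟨n, rfl⟩ := hx y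
  have h1 := lim_le hP x (n + 1) (-x n)
  have h2 := (iter_subl hP x n).step_neg (x n)
  have h3 := lim_le hP x n (x n)
  simp only [iter] at h1
  linarith

theorem lim_add_le {P : V → ℝ} (hP : Subl P) (x : ℕ → V) (y z : V) :
    lim P x (y + z) ≤ lim P x y + lim P x z := by
  have key : ∀ n m, lim P x (y + z) ≤ iter P x n y + iter P x m z := by
    intro n m
    have h1 := lim_le hP x (max n m) (y + z)
    have h2 := (iter_subl hP x (max n m)).add y z
    have h3 := iter_anti hP x y (le_max_left n m)
    have h4 := iter_anti hP x z (le_max_right n m)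
    simp only at h3 h4
    linarith
  have h1 : ∀ m, lim P x (y + z) - iter P x m z ≤ lim P x y := fun m =>
    le_ciInf fun n => by linarith [key n m]
  have h2 : lim P x (y + z) - lim P x y ≤ lim P x z := le_ciInf fun m => by linarith [h1 m]
  linarith

theorem lim_add {P : V → ℝ} (hP : Subl P) {x : ℕ → V} (hx : Function.Surjective x) (y z : V) :
    lim P x (y + z) = lim P x y + lim P x z := by
  refine le_antisymm (lim_add_le hP x y z) ?_
  have h0 : ∀ y, lim P x (-y) = -lim P x y := by
    intro y
    refine le_antisymm (lim_neg hP hx y) ?_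
    have h2 := lim_add_le hP x y (-y)
    have h3 : (0 : ℝ) ≤ lim P x (y + -y) := by
      refine le_ciInf fun n => ?_
      have := iter_lower hP x 0 n
      rw [neg_zero, hP.zero, neg_zero] at this
      rwa [add_neg_cancel]
    linarith
  have h1 := lim_add_le hP x (-y) (-z)
  rw [← neg_add, h0, h0, h0] at h1
  linarith

/-- **Measurable Hahn-Banach theorem.** -/
theorem exists_functional {Ω : Type*} [MeasurableSpace Ω] [Countable V] (P : Ω → V → ℝ)
    (hP : ∀ ω, Subl (P ω)) (hm : ∀ x, Measurable fun ω => P ω x) (x₀ : V) :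
    ∃ f : Ω → V → ℝ, (∀ x, Measurable fun ω => f ω x) ∧ (∀ ω x y, f ω (x + y) = f ω x + f ω y) ∧
      (∀ ω x, f ω x ≤ P ω x) ∧ ∀ ω, f ω x₀ = P ω x₀ := by
  obtain ⟨x', hx'⟩ := exists_surjective_nat V
  set x : ℕ → V := fun n => Nat.casesOn n x₀ x' with hxd
  have hx : Function.Surjective x := by
    intro v
    obtain ⟨n, rfl⟩ := hx' v
    exact ⟨n + 1, rfl⟩
  have hmi : ∀ n y, Measurable fun ω => iter (P ω) x n y := by
    intro n
    induction n with
    | zero => exact hm
    | succ n ih =>
      intro y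
      simp only [iter, Subl.step_def]
      refine Measurable.iInf fun t => ?_
      exact (ih _).sub ((ih _).const_mul _)
  refine ⟨fun ω => lim (P ω) x, fun y => ?_, fun ω => lim_add (hP ω) hx,
    fun ω y => lim_le (hP ω) x 0 y, fun ω => ?_⟩
  · exact Measurable.iInf fun n => hmi n y
  · refine le_antisymm (lim_le (hP ω) x 0 x₀) ?_
    have h1 := lim_le (hP ω) x 1 (-x₀)
    have h2 := (hP ω).step_neg x₀
    have h3 : lim (P ω) x (-x₀) = -lim (P ω) x x₀ := by
      have h4 := lim_add (hP ω) hx x₀ (-x₀)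
      have h5 := lim_add (hP ω) hx 0 0
      rw [add_neg_cancel] at h4
      rw [add_zero] at h5
      linarith
    have h6 : iter (P ω) x 1 (-x₀) = Subl.step (P ω) x₀ (-x₀) := rfl
    rw [h6] at h1
    linarith

end Pool.Agent.H60MT
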