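import Pool.Agent.H60MT.Terms
import Pool.Agent.H60MT.HB

/-!
# Formal elements of the tensor product and the gauge
-/

set_option autoImplicit false
set_option linter.all false

open scoped TensorProduct InnerProductSpace Topology
open MeasureTheory Filter

namespace Pool.Agent.H60MT

/-- The algebraic tensor product of the coded algebras. -/
abbrev Tn (w : Gam × Gam) : Type := (cstar w.1) ⊗[ℂ] (cstar w.2)

/-- Formal elements of the tensor product. -/
abbrev Vf : Type := (Tm × Tm) →₀ ℚ

/-- Pure tensors. -/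
noncomputable def pur (w : Gam × Gam) (p : Tm × Tm) : Tn w :=
  Tm.evA w.1 p.1 ⊗ₜ[ℂ] Tm.evA w.2 p.2

/-- Evaluation of formal elements. -/
noncomputable def evT (w : Gam × Gam) : Vf →+ Tn w :=
  Finsupp.liftAddHom fun p =>
    { toFun := fun q => ((q : ℝ) : ℂ) • pur w p
      map_zero' := by simp
      map_add' := fun a b => by push_cast; rw [add_smul] }

theorem evT_single (w : Gam × Gam) (p : Tm × Tm) (q : ℚ) :
    evT w (Finsupp.single p q) = ((q : ℝ) : ℂ) • pur w p := by
  simp [evT]

theorem evT_smul (w : Gam × Gam) (q : ℚ) (x : Vf) : evT w (q • x) = ((q : ℝ) : ℂ) • evT w x := by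
  induction x using Finsupp.induction_linear with
  | zero => simp
  | add x y hx hy => rw [smul_add, map_add, hx, hy, map_add, smul_add]
  | single p r =>
    rw [Finsupp.smul_single, evT_single, evT_single, smul_smul]
    congr 1
    rw [smul_eq_mul]
    push_cast
    rfl

/-- The crude bound. -/
noncomputable def cost (w : Gam × Gam) (x : Vf) : ℝ :=
  x.sum fun p q => |(q : ℝ)| * (‖Tm.evA w.1 p.1‖ * ‖Tm.evA w.2 p.2‖)

theorem cost_nonneg (w : Gam × Gam) (x : Vf) : 0 ≤ cost w x :=
  Finset.sum_nonneg fun p _ => by positivity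

theorem cost_zero (w : Gam × Gam) : cost w 0 = 0 := Finsupp.sum_zero_index

theorem cost_single (w : Gam × Gam) (p : Tm × Tm) (q : ℚ) :
    cost w (Finsupp.single p q) = |(q : ℝ)| * (‖Tm.evA w.1 p.1‖ * ‖Tm.evA w.2 p.2‖) :=
  Finsupp.sum_single_index (by simp)

theorem cost_add_le (w : Gam × Gam) (x y : Vf) : cost w (x + y) ≤ cost w x + cost w y := by
  classical
  have h : ∀ z : Vf, z.support ⊆ x.support ∪ y.support → cost w z =
      ∑ p ∈ x.support ∪ y.support, |(z p : ℝ)| * (‖Tm.evA w.1 p.1‖ * ‖Tm.evA w.2 p.2‖) :=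
    fun z hz => Finsupp.sum_of_support_subset _ hz _ (by simp)
  rw [h (x + y) Finsupp.support_add, h x Finset.subset_union_left, h y Finset.subset_union_right,
    ← Finset.sum_add_distrib]
  refine Finset.sum_le_sum fun p _ => ?_
  rw [← add_mul]
  gcongr
  rw [Finsupp.add_apply]
  push_cast
  exact abs_add_le _ _

theorem cost_smul (w : Gam × Gam) (q : ℚ) (x : Vf) : cost w (q • x) = |(q : ℝ)| * cost w x := by
  unfold cost
  rw [Finsupp.sum_smul_index (by simp), Finsupp.sum, Finsupp.sum, Finset.mul_sum]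
  refine Finset.sum_congr rfl fun p _ => ?_
  push_cast
  rw [abs_mul]
  ring

theorem measurable_cost (x : Vf) : Measurable fun w : Gam × Gam => cost w x := by
  unfold cost
  refine Finset.measurable_sum _ fun p _ => ?_
  exact (((Tm.measurable_norm p.1).comp measurable_fst).mul
    ((Tm.measurable_norm p.2).comp measurable_snd)).const_mul _

/-- The formal positive elements (up to skew elements). -/
inductive Pos : Vf → Prop
  | sq (s x : Vf) (h : ∀ w, evT w x = star (evT w s) * evT w s) : Pos x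
  | skew (x : Vf) (h : ∀ w, star (evT w x) = -evT w x) : Pos x
  | add (x y : Vf) (hx : Pos x) (hy : Pos y) : Pos (x + y)
  | smul (q : ℚ) (x : Vf) (hq : 0 ≤ q) (hx : Pos x) : Pos (q • x)

theorem Pos.zero : Pos 0 := Pos.skew 0 (by simp)

/-- The gauge. -/
noncomputable def gau (w : Gam × Gam) (x : Vf) : ℝ := ⨅ y : {y : Vf // Pos (y - x)}, cost w y.1

theorem gau_le (w : Gam × Gam) (x y : Vf) (h : Pos (y - x)) : gau w x ≤ cost w y :=
  ciInf_le ⟨0, by rintro _ ⟨y, rfl⟩; exact cost_nonneg w y.1⟩ (⟨y, h⟩ : {y : Vf // Pos (y - x)})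

theorem gau_le_cost (w : Gam × Gam) (x : Vf) : gau w x ≤ cost w x :=
  gau_le w x x (by rw [sub_self]; exact Pos.zero)

instance nonempty_pos (x : Vf) : Nonempty {y : Vf // Pos (y - x)} := ⟨⟨x, by rw [sub_self]; exact Pos.zero⟩⟩

theorem le_gau (w : Gam × Gam) (x : Vf) (c : ℝ) (h : ∀ y : Vf, Pos (y - x) → c ≤ cost w y) :
    c ≤ gau w x := le_ciInf fun y => h y.1 y.2

theorem gau_nonpos (w : Gam × Gam) (x : Vf) (h : Pos (-x)) : gau w x ≤ 0 := by
  have := gau_le w x 0 (by rwa [zero_sub])
  rwa [cost_zero] at this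

theorem measurable_gau (x : Vf) : Measurable fun w : Gam × Gam => gau w x :=
  Measurable.iInf fun y => measurable_cost y.1

theorem gau_subl (w : Gam × Gam) : Subl (gau w) := by
  have hadd : ∀ x y, gau w (x + y) ≤ gau w x + gau w y := by
    intro x y
    have key : ∀ (a : {a : Vf // Pos (a - x)}) (b : {b : Vf // Pos (b - y)}),
        gau w (x + y) ≤ cost w a.1 + cost w b.1 := by
      intro a b
      refine (gau_le w (x + y) (a.1 + b.1) ?_).trans (cost_add_le _ _ _)
      have : a.1 + b.1 - (x + y) = (a.1 - x) + (b.1 - y) := by abel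
      rw [this]
      exact Pos.add _ _ a.2 b.2
    have h1 : ∀ b : {b : Vf // Pos (b - y)}, gau w (x + y) - cost w b.1 ≤ gau w x := fun b =>
      le_ciInf fun a => by linarith [key a b]
    have h2 : gau w (x + y) - gau w x ≤ gau w y := le_ciInf fun b => by linarith [h1 b]
    linarith
  have hle : ∀ (q : ℚ) (x : Vf), 0 < q → gau w (q • x) ≤ q * gau w x := by
    intro q x hq
    have hq' : (0 : ℝ) < q := by exact_mod_cast hq
    rw [← div_le_iff₀' hq']
    refine le_ciInf fun a => ?_
    rw [div_le_iff₀' hq']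
    have h1 := gau_le w (q • x) (q • a.1) (by
      rw [← smul_sub]; exact Pos.smul _ _ hq.le a.2)
    rwa [cost_smul, abs_of_pos hq'] at h1
  refine ⟨hadd, fun q x hq => ?_⟩
  rcases hq.eq_or_lt with rfl | hq
  · simp only [zero_smul, Rat.cast_zero, zero_mul]
    refine le_antisymm (gau_nonpos w 0 (by rw [neg_zero]; exact Pos.zero)) ?_
    exact le_gau w 0 0 fun y _ => cost_nonneg w y
  · refine le_antisymm (hle q x hq) ?_
    have hq' : (0 : ℝ) < q := by exact_mod_cast hq
    have h1 := hle q⁻¹ (q • x) (inv_pos.2 hq)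
    rw [smul_smul, inv_mul_cancel₀ hq.ne', one_smul] at h1
    push_cast at h1
    calc (q : ℝ) * gau w x ≤ q * ((q : ℝ)⁻¹ * gau w (q • x)) := by gcongr
      _ = _ := by field_simp

/-- Formal functionals. -/
structure FF (w : Gam × Gam) (f : Vf → ℝ) : Prop where
  add : ∀ x y, f (x + y) = f x + f y
  pos : ∀ x, Pos x → 0 ≤ f x
  le : ∀ x, f x ≤ cost w x

theorem exists_ff (x₀ : Vf) : ∃ f : Gam × Gam → Vf → ℝ, (∀ x, Measurable fun w => f w x) ∧
    (∀ w, FF w (f w)) ∧ ∀ w, f w x₀ = gau w x₀ := by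
  obtain ⟨f, hf1, hf2, hf3, hf4⟩ := exists_functional gau gau_subl measurable_gau x₀
  refine ⟨f, hf1, fun w => ⟨hf2 w, fun x hx => ?_, fun x => (hf3 w x).trans (gau_le_cost w x)⟩, hf4⟩
  have h1 := hf3 w (-x)
  have h2 := gau_nonpos w (-x) (by rwa [neg_neg])
  have h3 := hf2 w x (-x)
  have h4 := hf2 w 0 0
  rw [add_neg_cancel] at h3
  rw [add_zero] at h4
  linarith

namespace FF

variable {w : Gam × Gam} {f : Vf → ℝ} (hf : FF w f)
include hf

theorem zero : f 0 = 0 := by
  have := hf.add 0 0
  rw [add_zero] at this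
  linarith

theorem neg (x : Vf) : f (-x) = -f x := by
  have := hf.add x (-x)
  rw [add_neg_cancel, hf.zero] at this
  linarith

theorem sub (x y : Vf) : f (x - y) = f x - f y := by
  rw [sub_eq_add_neg, hf.add, hf.neg]; ring

theorem skew (x : Vf) (h : ∀ w, star (evT w x) = -evT w x) : f x = 0 := by
  have h1 := hf.pos x (Pos.skew x h)
  have h2 := hf.pos (-x) (Pos.skew (-x) (fun w => by
    simp only [map_neg, star_neg, h w]))
  rw [hf.neg] at h2
  linarith

theorem congr (x y : Vf) (h : ∀ w, evT w x = evT w y) : f x = f y := by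
  have h1 := hf.skew (x - y) (fun w => by
    simp only [map_sub, h w, sub_self, star_zero, neg_zero])
  rw [hf.sub] at h1
  linarith

theorem abs_le (x : Vf) : |f x| ≤ cost w x := by
  rw [_root_.abs_le]
  have h1 := hf.le (-x)
  have h2 : cost w (-x) = cost w x := by
    have := cost_smul w (-1) x
    simpa using this
  rw [hf.neg, h2] at h1
  exact ⟨by linarith, hf.le x⟩

end FF

end Pool.Agent.H60MT
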