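import Mathlib

/-!
# The GNS representation of a positive functional on a *-algebra
-/

set_option autoImplicit false
set_option linter.all false

open scoped InnerProductSpace Topology ComplexOrder
open UniformSpace Filter

namespace Pool.Agent.H60MT

variable {R : Type} [NonUnitalRing R] [StarRing R] [Module ℂ R] [IsScalarTower ℂ R R]
  [SMulCommClass ℂ R R] [StarModule ℂ R]

/-- Positive functionals with a bounded representation. -/
structure GF (F : R →ₗ[ℂ] ℂ) : Prop where
  herm : ∀ z, F (star z) = star (F z)
  pos : ∀ z, 0 ≤ (F (star z * z)).re
  bdd : ∀ a, ∃ M : ℝ, ∀ z, (F (star (a * z) * (a * z))).re ≤ M * (F (star z * z)).re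

/-- The data of the representation. -/
structure GNSRep (F : R →ₗ[ℂ] ℂ) where
  K : Type
  [i1 : NormedAddCommGroup K]
  [i2 : InnerProductSpace ℂ K]
  [i3 : CompleteSpace K]
  Λ : R →ₗ[ℂ] K
  dense : DenseRange Λ
  inner_eq : ∀ x y, ⟪Λ x, Λ y⟫_ℂ = F (star x * y)
  π : R →⋆ₙₐ[ℂ] (K →L[ℂ] K)
  π_apply : ∀ a x, π a (Λ x) = Λ (a * x)

attribute [instance] GNSRep.i1 GNSRep.i2 GNSRep.i3

section build

variable (F : R →ₗ[ℂ] ℂ)

set_option linter.unusedVariables false in
/-- A copy of the *-algebra. -/
def Pre (F : R →ₗ[ℂ] ℂ) : Type := R

instance preAddCommGroup : AddCommGroup (Pre F) := inferInstanceAs (AddCommGroup R)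
instance preModule : Module ℂ (Pre F) := inferInstanceAs (Module ℂ R)

/-- The identity map. -/
def toPre : R ≃ₗ[ℂ] Pre F := LinearEquiv.refl ℂ _

variable {F}

set_option warn.classDefReducibility false in
/-- The inner product. -/
noncomputable def preCore (herm : ∀ z, F (star z) = star (F z))
    (pos : ∀ z, 0 ≤ (F (star z * z)).re) : PreInnerProductSpace.Core ℂ (Pre F) where
  inner x y := F (star ((toPre F).symm x) * (toPre F).symm y)
  conj_inner_symm x y := by
    rw [starRingEnd_apply, ← herm, star_mul, star_star]
  re_inner_nonneg x := pos _
  add_left x y z := by rw [map_add, star_add, add_mul, map_add]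
  smul_left x y r := by
    rw [map_smul, star_smul, smul_mul_assoc, map_smul, smul_eq_mul, starRingEnd_apply]

/-- The Cauchy-Schwarz inequality. -/
theorem cauchy (herm : ∀ z, F (star z) = star (F z)) (pos : ∀ z, 0 ≤ (F (star z * z)).re)
    (x y : R) : ‖F (star x * y)‖ ^ 2 ≤ (F (star x * x)).re * (F (star y * y)).re := by
  letI core := preCore herm pos
  letI i1 : SeminormedAddCommGroup (Pre F) :=
    InnerProductSpace.Core.toSeminormedAddCommGroup (c := core)
  letI i2 : InnerProductSpace ℂ (Pre F) := InnerProductSpace.ofCore core
  have hinner : ∀ x y : R, ⟪toPre F x, toPre F y⟫_ℂ = F (star x * y) := fun x y => rfl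
  have hnorm : ∀ x : R, ‖toPre F x‖ ^ 2 = (F (star x * x)).re := by
    intro x
    rw [← hinner, ← inner_self_eq_norm_sq (𝕜 := ℂ)]
    rfl
  rw [← hnorm, ← hnorm, ← hinner, ← mul_pow]
  exact pow_le_pow_left₀ (norm_nonneg _) (norm_inner_le_norm _ _) 2

theorem nonempty_gns (hF : GF F) : Nonempty (GNSRep F) := by
  letI core := preCore hF.herm hF.pos
  letI i1 : SeminormedAddCommGroup (Pre F) :=
    InnerProductSpace.Core.toSeminormedAddCommGroup (c := core)
  letI i2 : InnerProductSpace ℂ (Pre F) := InnerProductSpace.ofCore core
  have hinner : ∀ x y : Pre F, ⟪x, y⟫_ℂ = F (star ((toPre F).symm x) * (toPre F).symm y) :=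
    fun x y => rfl
  have hnorm : ∀ x : Pre F, ‖x‖ ^ 2 = (F (star ((toPre F).symm x) * (toPre F).symm x)).re := by
    intro x
    rw [← hinner, ← inner_self_eq_norm_sq (𝕜 := ℂ)]
    rfl
  have hL : ∀ a : R, ∃ L : Pre F →L[ℂ] Pre F, ∀ x, L x = toPre F (a * (toPre F).symm x) := by
    intro a
    obtain ⟨M, hM⟩ := hF.bdd a
    refine ⟨LinearMap.mkContinuous ((toPre F).toLinearMap ∘ₗ (LinearMap.mulLeft ℂ a) ∘ₗ
      (toPre F).symm.toLinearMap) (√(max M 0)) fun x => ?_, fun x => rfl⟩
    have h1 := hM ((toPre F).symm x)
    have h2 : 0 ≤ (F (star ((toPre F).symm x) * (toPre F).symm x)).re := hF.pos _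
    refine abs_le_of_sq_le_sq' ?_ (by positivity) |>.2
    rw [mul_pow, Real.sq_sqrt (le_max_right _ _), hnorm, hnorm]
    refine (?_ : _ ≤ _).trans (mul_le_mul_of_nonneg_right (le_max_left M 0) h2)
    exact h1
  choose L hL using hL
  have hadd : ∀ a b, (L (a + b)).completion = (L a).completion + (L b).completion := by
    intro a b
    ext c
    induction c using Completion.induction_on with
    | hp => exact isClosed_eq (ContinuousLinearMap.continuous _) (ContinuousLinearMap.continuous _)
    | ih c =>
      rw [ContinuousLinearMap.add_apply, ContinuousLinearMap.completion_apply_coe,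
        ContinuousLinearMap.completion_apply_coe, ContinuousLinearMap.completion_apply_coe,
        ← Completion.coe_add, hL, hL, hL, add_mul, map_add]
  have hsmul : ∀ (m : ℂ) a, (L (m • a)).completion = m • (L a).completion := by
    intro m a
    ext c
    induction c using Completion.induction_on with
    | hp => exact isClosed_eq (ContinuousLinearMap.continuous _) (ContinuousLinearMap.continuous _)
    | ih c =>
      rw [ContinuousLinearMap.smul_apply, ContinuousLinearMap.completion_apply_coe,
        ContinuousLinearMap.completion_apply_coe,
        ← Completion.coe_smul, hL, hL, smul_mul_assoc, map_smul]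
  have hmul : ∀ a b, (L (a * b)).completion = (L a).completion * (L b).completion := by
    intro a b
    ext c
    induction c using Completion.induction_on with
    | hp => exact isClosed_eq (ContinuousLinearMap.continuous _) (ContinuousLinearMap.continuous _)
    | ih c =>
      rw [ContinuousLinearMap.mul_apply, ContinuousLinearMap.completion_apply_coe,
        ContinuousLinearMap.completion_apply_coe, ContinuousLinearMap.completion_apply_coe,
        hL, hL, hL, mul_assoc]
      rfl
  have hstar : ∀ a, (L (star a)).completion = star (L a).completion := by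
    intro a
    rw [ContinuousLinearMap.star_eq_adjoint]
    refine (ContinuousLinearMap.eq_adjoint_iff _ _).mpr ?_
    intro x y
    induction x, y using Completion.induction_on₂ with
    | hp => exact isClosed_eq
              (Continuous.inner ((ContinuousLinearMap.continuous _).comp continuous_fst)
                continuous_snd)
              (Continuous.inner continuous_fst
                ((ContinuousLinearMap.continuous _).comp continuous_snd))
    | ih x y =>
      rw [ContinuousLinearMap.completion_apply_coe, ContinuousLinearMap.completion_apply_coe,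
        Completion.inner_coe, Completion.inner_coe, hinner, hinner, hL, hL]
      simp only [LinearEquiv.symm_apply_apply, star_mul, star_star, mul_assoc]
  refine ⟨{ K := Completion (Pre F)
            Λ := (Completion.toComplL (𝕜 := ℂ) (E := Pre F)).toLinearMap ∘ₗ (toPre F).toLinearMap
            dense := ?_
            inner_eq := ?_
            π := { toFun := fun a => (L a).completion
                   map_smul' := hsmul
                   map_zero' := by
                     have := hsmul 0 0
                     rwa [zero_smul, zero_smul] at this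
                   map_add' := hadd
                   map_mul' := hmul
                   map_star' := hstar }
            π_apply := ?_ }⟩
  · exact (Completion.denseRange_coe : DenseRange ((↑) : Pre F → Completion (Pre F)))
  · intro x y
    exact (Completion.inner_coe (𝕜 := ℂ) (toPre F x) (toPre F y))
  · intro a x
    change (L a).completion ((toPre F x : Pre F) : Completion (Pre F)) =
      ((toPre F (a * x) : Pre F) : Completion (Pre F))
    rw [ContinuousLinearMap.completion_apply_coe, hL]
    rfl

end build

end Pool.Agent.H60MT
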