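import Pool.Agent.H60MT.Spatial
import Pool.Agent.H60MT.Embed
import Pool.Agent.H60MT.Compl

/-!
# The maximal tensor product is a Borel construction
-/

set_option autoImplicit false
set_option linter.all false

open scoped InnerProductSpace Topology TensorProduct
open Filter InnerProductSpace

namespace Pool.Agent.H60MT

/-- A density principle. -/
theorem tensor_dense {Z : Type} [TopologicalSpace Z] (w : Gam × Gam) (Φ : Tn w → Z)
    (hΦ : ∀ (ι : Type) [Fintype ι], Continuous fun c : ι → cstar w.1 × cstar w.2 =>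
      Φ (∑ i, (c i).1 ⊗ₜ[ℂ] (c i).2)) {S : Set Z} (hS : IsClosed S)
    (h : ∀ x : Vf, Φ (evT w x) ∈ S) (z : Tn w) : Φ z ∈ S := by
  obtain ⟨T, hT⟩ := TensorProduct.exists_finset z
  have hd : DenseRange (Prod.map (Tm.evA w.1) (Tm.evA w.2)) :=
    (Tm.denseRange_evA w.1).prodMap (Tm.denseRange_evA w.2)
  have hdd : DenseRange (Pi.map fun _ : T => Prod.map (Tm.evA w.1) (Tm.evA w.2)) :=
    DenseRange.piMap fun _ => hd
  have key : ∀ c : T → cstar w.1 × cstar w.2, Φ (∑ i, (c i).1 ⊗ₜ[ℂ] (c i).2) ∈ S := by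
    intro c
    refine hdd.induction_on (p := fun c : T → cstar w.1 × cstar w.2 =>
        Φ (∑ i, (c i).1 ⊗ₜ[ℂ] (c i).2) ∈ S) c ?_ ?_
    · exact hS.preimage (hΦ T)
    · intro t
      have e : evT w (∑ i : T, Finsupp.single (t i) 1) =
          ∑ i : T, Tm.evA w.1 (t i).1 ⊗ₜ[ℂ] Tm.evA w.2 (t i).2 := by
        rw [map_sum]
        refine Finset.sum_congr rfl fun i _ => ?_
        rw [evT_single]; simp [pur]
      have h1 := h (∑ i : T, Finsupp.single (t i) 1)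
      rw [e] at h1
      exact h1
  have h2 : ∑ i : T, (i.1.1 ⊗ₜ[ℂ] i.1.2 : Tn w) = z := by
    rw [hT, Finset.sum_coe_sort T (fun i => (i.1 ⊗ₜ[ℂ] i.2 : Tn w))]
  have h3 := key fun i => i.1
  rwa [h2] at h3

theorem cont_of_bd {Y : Type} [NormedAddCommGroup Y] [NormedSpace ℂ Y] (w : Gam × Gam)
    (L : Tn w →ₗ[ℂ] Y) (C : ℝ) (hC : ∀ a b, ‖L (a ⊗ₜ b)‖ ≤ C * (‖a‖ * ‖b‖))
    (ι : Type) [Fintype ι] : Continuous fun c : ι → cstar w.1 × cstar w.2 =>
      L (∑ i, (c i).1 ⊗ₜ[ℂ] (c i).2) := by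
  set G : cstar w.1 →L[ℂ] cstar w.2 →L[ℂ] Y :=
    LinearMap.mkContinuous₂ ((TensorProduct.mk ℂ (cstar w.1) (cstar w.2)).compr₂ L) C
      (fun a b => by
        have := hC a b
        rw [mul_assoc]
        exact this) with hG
  have hGe : ∀ a b, L (a ⊗ₜ b) = G a b := fun a b => rfl
  simp only [map_sum, hGe]
  refine continuous_finset_sum _ fun i _ => ?_
  exact (G.continuous.comp (continuous_fst.comp (continuous_apply i))).clm_apply
    (continuous_snd.comp (continuous_apply i))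

theorem half_summable : HasSum (fun n : ℕ => (1 / 2 : ℝ) ^ (n + 1)) 1 := by
  have := hasSum_geometric_two.mul_left (1 / 2 : ℝ)
  have e : (fun n : ℕ => (1 / 2 : ℝ) ^ (n + 1)) = fun n : ℕ => 1 / 2 * (1 / 2 : ℝ) ^ n := by
    funext n; rw [pow_succ]; ring
  rw [e]
  have h2 : (1 / 2 : ℝ) * 2 = 1 := by norm_num
  rw [h2] at this
  exact this

theorem FF.summable {w : Gam × Gam} {g : ℕ → Vf → ℝ} (hg : ∀ n, FF w (g n)) (a : ℕ → ℝ)
    (ha0 : ∀ n, 0 ≤ a n) (ha1 : ∀ n, a n ≤ (1 / 2) ^ (n + 1)) (x : Vf) :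
    Summable fun n => a n * g n x := by
  refine Summable.of_norm_bounded (g := fun n => (1 / 2 : ℝ) ^ (n + 1) * cost w x)
    (half_summable.summable.mul_right _) fun n => ?_
  rw [norm_mul, Real.norm_of_nonneg (ha0 n)]
  exact mul_le_mul (ha1 n) ((hg n).abs_le x) (norm_nonneg _) (by positivity)

theorem FF.comb {w : Gam × Gam} {g : ℕ → Vf → ℝ} (hg : ∀ n, FF w (g n)) (a : ℕ → ℝ)
    (ha0 : ∀ n, 0 ≤ a n) (ha1 : ∀ n, a n ≤ (1 / 2) ^ (n + 1)) :
    FF w (fun x => ∑' n, a n * g n x) := by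
  have hs := FF.summable hg a ha0 ha1
  refine ⟨fun x y => ?_, fun x hx => ?_, fun x => ?_⟩
  · rw [← (hs x).tsum_add (hs y)]
    refine tsum_congr fun n => ?_
    rw [(hg n).add, mul_add]
  · exact tsum_nonneg fun n => mul_nonneg (ha0 n) ((hg n).pos x hx)
  · have h1 : ∑' n, a n * g n x ≤ ∑' n, (1 / 2 : ℝ) ^ (n + 1) * cost w x := by
      refine (hs x).tsum_le_tsum (fun n => ?_) (half_summable.summable.mul_right _)
      calc a n * g n x ≤ a n * cost w x := by gcongr; exacts [ha0 n, (hg n).le x]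
        _ ≤ _ := by gcongr; exacts [cost_nonneg w x, ha1 n]
    rwa [tsum_mul_right, half_summable.tsum_eq, one_mul] at h1

/-- Uniqueness of the extension. -/
theorem goodF_unique {w : Gam × Gam} (L : Tn w →ₗ[ℂ] ℂ) (C : ℝ)
    (hC : ∀ a b, ‖L (a ⊗ₜ b)‖ ≤ C * (‖a‖ * ‖b‖)) (h : ∀ x, L (evT w x) = 0) (z : Tn w) :
    L z = 0 :=
  tensor_dense w L (cont_of_bd w L C hC) (S := {0}) isClosed_singleton h z

theorem domination {w : Gam × Gam} {g : ℕ → Vf → ℝ} (hg : ∀ n, FF w (g n))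
    {F : Tn w →ₗ[ℂ] ℂ} (hF : GoodF w F)
    (hFe : ∀ x, F (evT w x) = ((∑' n, (1 / 2 : ℝ) ^ (n + 1) * g n x : ℝ) : ℂ) -
      Complex.I * ((∑' n, (1 / 2 : ℝ) ^ (n + 1) * g n (imv x) : ℝ) : ℂ))
    {F' : Tn w →ₗ[ℂ] ℂ} (hF' : GoodF w F') (n : ℕ)
    (hFe' : ∀ x, F' (evT w x) = g n x - Complex.I * g n (imv x)) (z : Tn w) :
    (F' (star z * z)).re ≤ 2 ^ (n + 1) * (F (star z * z)).re := by
  classical
  set a : ℕ → ℝ := fun m => if m = n then 0 else (1 / 2) ^ (m + 1) with ha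
  have ha0 : ∀ m, 0 ≤ a m := fun m => by simp only [ha]; split_ifs <;> positivity
  have ha1 : ∀ m, a m ≤ (1 / 2) ^ (m + 1) := fun m => by
    simp only [ha]; split_ifs
    · positivity
    · exact le_rfl
  have hs := FF.summable hg (fun m => (1 / 2) ^ (m + 1)) (fun m => by positivity) (fun m => le_rfl)
  have hsplit : ∀ x, ∑' m, (1 / 2 : ℝ) ^ (m + 1) * g m x =
      (1 / 2) ^ (n + 1) * g n x + ∑' m, a m * g m x := by
    intro x
    rw [(hs x).tsum_eq_add_tsum_ite n]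
    congr 1
    refine tsum_congr fun m => ?_
    simp only [ha]
    split_ifs <;> simp
  obtain ⟨G, hG, hGe⟩ := exists_goodF (FF.comb hg a ha0 ha1)
  set L : Tn w →ₗ[ℂ] ℂ := F - (((1 / 2 : ℝ) ^ (n + 1) : ℝ) : ℂ) • F' - G with hL
  have hLb : ∀ a b, ‖L (a ⊗ₜ b)‖ ≤ 6 * (‖a‖ * ‖b‖) := by
    intro a b
    have h1 := hF.bd a b
    have h2 := hF'.bd a b
    have h3 := hG.bd a b
    have h4 : ‖((((1 / 2 : ℝ) ^ (n + 1) : ℝ) : ℂ))‖ ≤ 1 := by
      rw [Complex.norm_real, Real.norm_of_nonneg (by positivity)]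
      exact pow_le_one₀ (by norm_num) (by norm_num)
    have h5 : ‖(((1 / 2 : ℝ) ^ (n + 1) : ℝ) : ℂ) • F' (a ⊗ₜ b)‖ ≤ ‖F' (a ⊗ₜ b)‖ := by
      rw [norm_smul]
      exact mul_le_of_le_one_left (norm_nonneg _) h4
    have h6 : L (a ⊗ₜ b) = F (a ⊗ₜ b) - (((1 / 2 : ℝ) ^ (n + 1) : ℝ) : ℂ) • F' (a ⊗ₜ b) -
      G (a ⊗ₜ b) := rfl
    rw [h6]
    have h7 := norm_sub_le (F (a ⊗ₜ b) - (((1 / 2 : ℝ) ^ (n + 1) : ℝ) : ℂ) • F' (a ⊗ₜ b))
      (G (a ⊗ₜ b))
    have h8 := norm_sub_le (F (a ⊗ₜ b)) ((((1 / 2 : ℝ) ^ (n + 1) : ℝ) : ℂ) • F' (a ⊗ₜ b))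
    linarith
  have hL0 := goodF_unique L 6 hLb (fun x => by
    have h6 : L (evT w x) = F (evT w x) - (((1 / 2 : ℝ) ^ (n + 1) : ℝ) : ℂ) • F' (evT w x) -
      G (evT w x) := rfl
    rw [h6, hFe, hFe', hGe, hsplit, hsplit, smul_eq_mul]
    push_cast
    ring) (star z * z)
  have h6 : L (star z * z) = F (star z * z) - (((1 / 2 : ℝ) ^ (n + 1) : ℝ) : ℂ) *
    F' (star z * z) - G (star z * z) := rfl
  rw [h6] at hL0
  have h7 := congrArg Complex.re hL0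
  rw [Complex.sub_re, Complex.sub_re, Complex.re_ofReal_mul, Complex.zero_re] at h7
  have h8 := hG.pos z
  have h9 : (1 / 2 : ℝ) ^ (n + 1) * (F' (star z * z)).re ≤ (F (star z * z)).re := by linarith
  have h10 : (2 : ℝ) ^ (n + 1) * (1 / 2) ^ (n + 1) = 1 := by rw [← mul_pow]; norm_num
  calc (F' (star z * z)).re = 2 ^ (n + 1) * ((1 / 2 : ℝ) ^ (n + 1) * (F' (star z * z)).re) := by
        rw [← mul_assoc, h10, one_mul]
    _ ≤ _ := by gcongr

/-- *-homomorphisms are continuous on tensors of bounded length. -/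
theorem cont_hom {D : Type} [NonUnitalCStarAlgebra D] (w : Gam × Gam) (σ : Tn w →⋆ₙₐ[ℂ] D)
    (ι : Type) [Fintype ι] : Continuous fun c : ι → cstar w.1 × cstar w.2 =>
      σ (∑ i, (c i).1 ⊗ₜ[ℂ] (c i).2) := by
  let L : Tn w →ₗ[ℂ] D :=
    { toFun := fun z => σ z
      map_add' := fun x y => map_add σ x y
      map_smul' := fun c x => map_smul σ c x }
  exact cont_of_bd w L 1 (fun a b => by rw [one_mul]; exact norm_hom_tmul_le σ a b) ι

theorem hom_mem_of_dense {D : Type} [NonUnitalCStarAlgebra D] (w : Gam × Gam)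
    (σ : Tn w →⋆ₙₐ[ℂ] D) {S : Set D} (hS : IsClosed S) (h : ∀ x : Vf, σ (evT w x) ∈ S)
    (z : Tn w) : σ z ∈ S :=
  tensor_dense w (fun z => σ z) (fun ι _ => cont_hom w σ ι) hS h z

theorem norm_le_of_dense {D E : Type} [NonUnitalCStarAlgebra D] [NonUnitalCStarAlgebra E]
    (w : Gam × Gam) (σ : Tn w →⋆ₙₐ[ℂ] D) (τ : Tn w →⋆ₙₐ[ℂ] E)
    (h : ∀ x : Vf, ‖σ (evT w x)‖ ≤ ‖τ (evT w x)‖) (z : Tn w) : ‖σ z‖ ≤ ‖τ z‖ := by
  have hcl : IsClosed {q : D × E | ‖q.1‖ ≤ ‖q.2‖} :=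
    isClosed_le (continuous_norm.comp continuous_fst) (continuous_norm.comp continuous_snd)
  exact tensor_dense w (fun z => (σ z, τ z))
    (fun ι _ => (cont_hom w σ ι).prodMk (cont_hom w τ ι)) hcl (fun x => h x) z

/-- The representation attains the maximal norm. -/
theorem rep_max {w : Gam × Gam} {g : ℕ → Vf → ℝ} (hg : ∀ n, FF w (g n)) {zs : ℕ → Vf}
    (hzs : Function.Surjective zs) {sqv : Vf → Vf}
    (hsqv : ∀ x w, evT w (sqv x) = star (evT w x) * evT w x)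
    (hgx : ∀ n, g n (sqv (zs n)) = gau w (sqv (zs n)))
    {F : Tn w →ₗ[ℂ] ℂ} (hF : GoodF w F)
    (hFe : ∀ x, F (evT w x) = ((∑' n, (1 / 2 : ℝ) ^ (n + 1) * g n x : ℝ) : ℂ) -
      Complex.I * ((∑' n, (1 / 2 : ℝ) ^ (n + 1) * g n (imv x) : ℝ) : ℂ))
    (ρ : GNSRep F) {D : Type} [NonUnitalCStarAlgebra D] (σ : Tn w →⋆ₙₐ[ℂ] D) (z : Tn w) :
    ‖σ z‖ ≤ ‖ρ.π z‖ := by
  refine norm_le_of_dense w σ ρ.π (fun x => ?_) z
  obtain ⟨n, rfl⟩ := hzs x
  obtain ⟨F', hF', hFe'⟩ := exists_goodF (hg n)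
  have h1 := gau_ge w σ (zs n) (sqv (zs n)) (hsqv (zs n))
  rw [← hgx n] at h1
  have h2 : (F' (star (evT w (zs n)) * evT w (zs n))).re = g n (sqv (zs n)) := by
    rw [← hsqv, hFe']
    simp
  have h3 := norming (F := F) (F' := F') (sq_le_of hF'.herm hF'.pos hF'.bd hF'.re_le)
    (2 ^ (n + 1)) (by positivity)
    (domination hg hF hFe hF' n hFe') ρ (evT w (zs n))
  rw [h2] at h3
  exact abs_le_of_sq_le_sq' (h1.trans h3) (norm_nonneg _) |>.2

theorem dense_vectors {w : Gam × Gam} {zs : ℕ → Vf} (hzs : Function.Surjective zs)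
    {F : Tn w →ₗ[ℂ] ℂ} (hF : GoodF w F) (ρ : GNSRep F) :
    Dense ((Submodule.span ℂ (Set.range fun k => ρ.Λ (evT w (zs k))) :
      Submodule ℂ ρ.K) : Set ρ.K) := by
  have h1 : ∀ z, ρ.Λ z ∈ closure (Set.range fun k => ρ.Λ (evT w (zs k))) := by
    intro z
    refine tensor_dense w ρ.Λ (cont_of_bd w ρ.Λ 2 fun a b => ?_) isClosed_closure ?_ z
    · have hn : ‖ρ.Λ (a ⊗ₜ b)‖ ^ 2 = (F (star (a ⊗ₜ b) * (a ⊗ₜ b))).re := by
        rw [← ρ.inner_eq, ← inner_self_eq_norm_sq (𝕜 := ℂ)]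
        rfl
      have h2 : (F (star (a ⊗ₜ b) * (a ⊗ₜ b))).re ≤ 2 * (‖a‖ * ‖b‖) ^ 2 := by
        rw [TensorProduct.star_tmul, Algebra.TensorProduct.tmul_mul_tmul]
        refine (Complex.re_le_norm _).trans ((hF.bd _ _).trans_eq ?_)
        rw [CStarRing.norm_star_mul_self, CStarRing.norm_star_mul_self]
        ring
      refine abs_le_of_sq_le_sq' ?_ (by positivity) |>.2
      rw [hn]
      refine h2.trans ?_
      nlinarith [sq_nonneg (‖a‖ * ‖b‖)]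
    · intro x
      obtain ⟨n, rfl⟩ := hzs x
      exact subset_closure ⟨n, rfl⟩
  rw [dense_iff_closure_eq, Set.eq_univ_iff_forall]
  intro x
  have h2 : closure (Set.range fun k => ρ.Λ (evT w (zs k))) ⊆ closure
      ((Submodule.span ℂ (Set.range fun k => ρ.Λ (evT w (zs k))) : Submodule ℂ ρ.K) : Set ρ.K) :=
    closure_mono Submodule.subset_span
  have h3 : x ∈ closure (Set.range ρ.Λ) := ρ.dense x
  refine closure_minimal ?_ isClosed_closure h3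
  rintro _ ⟨z, rfl⟩
  exact h2 (h1 z)

end Pool.Agent.H60MT
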