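import Pool.Agent.H60MT.Ext
import Pool.Agent.H60MT.Bound

/-!
# Norms of *-homomorphisms and of representations
-/

set_option autoImplicit false
set_option linter.all false

open scoped InnerProductSpace Topology TensorProduct
open Filter

namespace Pool.Agent.H60MT

section homs

variable {A B D : Type} [NonUnitalCStarAlgebra A] [NonUnitalCStarAlgebra B]
  [NonUnitalCStarAlgebra D]

theorem exists_sub_sq (a : A) (ha : ‖a‖ ≤ 1) :
    ∃ c : A, star a * a - (star a * a) * (star a * a) = star c * c := by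
  letI := CStarAlgebra.spectralOrder A
  letI := CStarAlgebra.spectralOrderedRing A
  have h1 : star a * (a * star a) * a ≤ ‖a * star a‖ • (star a * a) :=
    CStarAlgebra.star_left_conjugate_le_norm_smul
  have h0 : 0 ≤ star a * a := star_mul_self_nonneg a
  have h2 : ‖a * star a‖ • (star a * a) ≤ star a * a := by
    have h3 : 0 ≤ (1 - ‖a * star a‖) • (star a * a) := by
      refine smul_nonneg ?_ h0
      rw [CStarRing.norm_self_mul_star]
      nlinarith [norm_nonneg a]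
    rw [sub_smul, one_smul] at h3
    exact sub_nonneg.1 h3
  have h4 : 0 ≤ star a * a - (star a * a) * (star a * a) := by
    rw [sub_nonneg]
    refine le_trans (le_of_eq ?_) (h1.trans h2)
    simp only [mul_assoc]
  exact CStarAlgebra.nonneg_iff_eq_star_mul_self.1 h4

theorem norm_hom_le_one (σ : (A ⊗[ℂ] B) →⋆ₙₐ[ℂ] D) (a : A) (b : B) (ha : ‖a‖ ≤ 1)
    (hb : ‖b‖ ≤ 1) : ‖σ (a ⊗ₜ[ℂ] b)‖ ≤ 1 := by
  letI := CStarAlgebra.spectralOrder D
  letI := CStarAlgebra.spectralOrderedRing D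
  obtain ⟨c, hc⟩ := exists_sub_sq a ha
  obtain ⟨d, hd⟩ := exists_sub_sq b hb
  set h := star a * a with hh
  set k := star b * b with hk
  have hhs : star h = h := by rw [hh]; simp
  have hks : star k = k := by rw [hk]; simp
  have p1 : 0 ≤ σ ((h - h * h) ⊗ₜ[ℂ] (k * k)) := by
    have : (h - h * h) ⊗ₜ[ℂ] (k * k) = star (c ⊗ₜ[ℂ] k) * (c ⊗ₜ[ℂ] k) := by
      rw [TensorProduct.star_tmul, Algebra.TensorProduct.tmul_mul_tmul, hc, hks]
    rw [this, map_mul, map_star]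
    exact star_mul_self_nonneg _
  have p2 : 0 ≤ σ (h ⊗ₜ[ℂ] (k - k * k)) := by
    have : h ⊗ₜ[ℂ] (k - k * k) = star (a ⊗ₜ[ℂ] d) * (a ⊗ₜ[ℂ] d) := by
      rw [TensorProduct.star_tmul, Algebra.TensorProduct.tmul_mul_tmul, hd]
    rw [this, map_mul, map_star]
    exact star_mul_self_nonneg _
  have p3 : 0 ≤ σ ((h * h) ⊗ₜ[ℂ] (k * k)) := by
    have : (h * h) ⊗ₜ[ℂ] (k * k) = star (h ⊗ₜ[ℂ] k) * (h ⊗ₜ[ℂ] k) := by
      rw [TensorProduct.star_tmul, Algebra.TensorProduct.tmul_mul_tmul, hhs, hks]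
    rw [this, map_mul, map_star]
    exact star_mul_self_nonneg _
  have hle : σ ((h * h) ⊗ₜ[ℂ] (k * k)) ≤ σ (h ⊗ₜ[ℂ] k) := by
    rw [TensorProduct.sub_tmul, map_sub, sub_nonneg] at p1
    rw [TensorProduct.tmul_sub, map_sub, sub_nonneg] at p2
    exact p1.trans p2
  have hn := CStarAlgebra.norm_le_norm_of_nonneg_of_le p3 hle
  have e1 : ‖σ ((h * h) ⊗ₜ[ℂ] (k * k))‖ = ‖σ (h ⊗ₜ[ℂ] k)‖ * ‖σ (h ⊗ₜ[ℂ] k)‖ := by
    have : (h * h) ⊗ₜ[ℂ] (k * k) = star (h ⊗ₜ[ℂ] k) * (h ⊗ₜ[ℂ] k) := by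
      rw [TensorProduct.star_tmul, Algebra.TensorProduct.tmul_mul_tmul, hhs, hks]
    rw [this, map_mul, map_star, CStarRing.norm_star_mul_self]
  have e2 : ‖σ (h ⊗ₜ[ℂ] k)‖ = ‖σ (a ⊗ₜ[ℂ] b)‖ * ‖σ (a ⊗ₜ[ℂ] b)‖ := by
    have : h ⊗ₜ[ℂ] k = star (a ⊗ₜ[ℂ] b) * (a ⊗ₜ[ℂ] b) := by
      rw [TensorProduct.star_tmul, Algebra.TensorProduct.tmul_mul_tmul]
    rw [this, map_mul, map_star, CStarRing.norm_star_mul_self]
  rw [e1] at hn
  have h5 : ‖σ (h ⊗ₜ[ℂ] k)‖ ≤ 1 := by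
    by_contra h6
    push Not at h6
    nlinarith
  rw [e2] at h5
  by_contra h6
  push Not at h6
  nlinarith

theorem norm_hom_tmul_le (σ : (A ⊗[ℂ] B) →⋆ₙₐ[ℂ] D) (a : A) (b : B) :
    ‖σ (a ⊗ₜ[ℂ] b)‖ ≤ ‖a‖ * ‖b‖ := by
  rcases eq_or_ne a 0 with rfl | ha
  · rw [TensorProduct.zero_tmul, map_zero]; simp
  rcases eq_or_ne b 0 with rfl | hb
  · rw [TensorProduct.tmul_zero, map_zero]; simp
  have ha' : 0 < ‖a‖ := norm_pos_iff.2 ha
  have hb' : 0 < ‖b‖ := norm_pos_iff.2 hb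
  set x : A := ((‖a‖⁻¹ : ℝ) : ℂ) • a with hx
  set y : B := ((‖b‖⁻¹ : ℝ) : ℂ) • b with hy
  have hxn : ‖x‖ ≤ 1 := by
    rw [hx, norm_smul, Complex.norm_real, norm_inv, norm_norm, inv_mul_cancel₀ ha'.ne']
  have hyn : ‖y‖ ≤ 1 := by
    rw [hy, norm_smul, Complex.norm_real, norm_inv, norm_norm, inv_mul_cancel₀ hb'.ne']
  have h1 := norm_hom_le_one σ x y hxn hyn
  have e : a ⊗ₜ[ℂ] b = ((‖a‖ * ‖b‖ : ℝ) : ℂ) • (x ⊗ₜ[ℂ] y) := by
    have e1 : a = ((‖a‖ : ℝ) : ℂ) • x := by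
      rw [hx, smul_smul, ← Complex.ofReal_mul, mul_inv_cancel₀ ha'.ne', Complex.ofReal_one, one_smul]
    have e2 : b = ((‖b‖ : ℝ) : ℂ) • y := by
      rw [hy, smul_smul, ← Complex.ofReal_mul, mul_inv_cancel₀ hb'.ne', Complex.ofReal_one, one_smul]
    conv_lhs => rw [e1, e2]
    rw [TensorProduct.smul_tmul_smul]
    push_cast
    rfl
  rw [e, map_smul, norm_smul, Complex.norm_real, Real.norm_of_nonneg (by positivity)]
  calc ‖a‖ * ‖b‖ * ‖σ (x ⊗ₜ[ℂ] y)‖ ≤ ‖a‖ * ‖b‖ * 1 := by gcongr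
    _ = _ := mul_one _

end homs

section norming

variable {A B : Type} [NonUnitalCStarAlgebra A] [NonUnitalCStarAlgebra B]
variable {F : (A ⊗[ℂ] B) →ₗ[ℂ] ℂ} {C : ℝ}

theorem sq_le_of (herm : ∀ z, F (star z) = star (F z)) (pos : ∀ z, 0 ≤ (F (star z * z)).re)
    (hC : ∀ a b, ‖F (a ⊗ₜ b)‖ ≤ C * (‖a‖ * ‖b‖)) (hre : ∀ a b, (F (a ⊗ₜ b)).re ≤ ‖a‖ * ‖b‖)
    (x : A ⊗[ℂ] B) : ‖F x‖ ^ 2 ≤ (F (star x * x)).re := by
  letI := CStarAlgebra.spectralOrder A
  letI := CStarAlgebra.spectralOrderedRing A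
  letI := CStarAlgebra.spectralOrder B
  letI := CStarAlgebra.spectralOrderedRing B
  set l := CStarAlgebra.approximateUnit A with hl
  set l' := CStarAlgebra.approximateUnit B with hl'
  have hu := CStarAlgebra.increasingApproximateUnit A
  have hu' := CStarAlgebra.increasingApproximateUnit B
  set G : A →L[ℂ] B →L[ℂ] ℂ := LinearMap.mkContinuous₂ ((TensorProduct.mk ℂ A B).compr₂ F) C
    (fun a b => by
      have := hC a b
      rw [mul_assoc]
      exact this) with hG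
  have hGe : ∀ a b, G a b = F (a ⊗ₜ b) := fun a b => rfl
  have ht : Tendsto (fun p : A × B => F ((p.1 ⊗ₜ[ℂ] p.2) * x)) (l ×ˢ l') (𝓝 (F x)) := by
    induction x using TensorProduct.induction_on with
    | zero => simpa using tendsto_const_nhds
    | add x y hx hy =>
      have := hx.add hy
      simp only [mul_add, map_add]
      exact this
    | tmul a b =>
      have h1 : Tendsto (fun p : A × B => (p.1 * a, p.2 * b)) (l ×ˢ l') (𝓝 (a, b)) := by
        refine Tendsto.prodMk_nhds ?_ ?_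
        · exact (hu.tendsto_mul_right a).comp tendsto_fst
        · exact (hu'.tendsto_mul_right b).comp tendsto_snd
      have h2 : Continuous fun p : A × B => G p.1 p.2 := by fun_prop
      have h3 := (h2.tendsto (a, b)).comp h1
      simp only [Function.comp_def, hGe] at h3
      simpa [Algebra.TensorProduct.tmul_mul_tmul] using h3
  haveI : l.NeBot := hu.neBot
  haveI : l'.NeBot := hu'.neBot
  refine le_of_tendsto ((ht.norm).pow 2) ?_
  have e1 : ∀ᶠ p : A × B in l ×ˢ l', 0 ≤ p.1 ∧ ‖p.1‖ ≤ 1 :=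
    tendsto_fst.eventually (hu.eventually_nonneg.and hu.eventually_norm)
  have e2 : ∀ᶠ p : A × B in l ×ˢ l', 0 ≤ p.2 ∧ ‖p.2‖ ≤ 1 :=
    tendsto_snd.eventually (hu'.eventually_nonneg.and hu'.eventually_norm)
  filter_upwards [e1, e2] with p hp hp'
  have s1 : star p.1 = p.1 := (IsSelfAdjoint.of_nonneg hp.1).star_eq
  have s2 : star p.2 = p.2 := (IsSelfAdjoint.of_nonneg hp'.1).star_eq
  have s3 : star (p.1 ⊗ₜ[ℂ] p.2) = p.1 ⊗ₜ[ℂ] p.2 := by rw [TensorProduct.star_tmul, s1, s2]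
  have h1 := cauchy herm pos (p.1 ⊗ₜ[ℂ] p.2) x
  rw [s3, Algebra.TensorProduct.tmul_mul_tmul] at h1
  have h2 := hre (p.1 * p.1) (p.2 * p.2)
  have h3 : ‖p.1 * p.1‖ * ‖p.2 * p.2‖ ≤ 1 := by
    have a1 : ‖p.1 * p.1‖ ≤ 1 := (norm_mul_le _ _).trans (mul_le_one₀ hp.2 (norm_nonneg _) hp.2)
    have a2 : ‖p.2 * p.2‖ ≤ 1 := (norm_mul_le _ _).trans (mul_le_one₀ hp'.2 (norm_nonneg _) hp'.2)
    exact mul_le_one₀ a1 (norm_nonneg _) a2
  have h4 := pos x
  nlinarith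

theorem norming {F' : (A ⊗[ℂ] B) →ₗ[ℂ] ℂ}
    (sq : ∀ x, ‖F' x‖ ^ 2 ≤ (F' (star x * x)).re) (c : ℝ) (hc : 0 ≤ c)
    (hle : ∀ z, (F' (star z * z)).re ≤ c * (F (star z * z)).re) (ρ : GNSRep F)
    (z : A ⊗[ℂ] B) : (F' (star z * z)).re ≤ ‖ρ.π z‖ ^ 2 := by
  set y := star z * z with hy
  have hys : star y = y := by rw [hy]; simp
  have hn : ∀ x, ‖ρ.Λ x‖ ^ 2 = (F (star x * x)).re := by
    intro x
    rw [← ρ.inner_eq, ← inner_self_eq_norm_sq (𝕜 := ℂ)]
    rfl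
  have hpy : ‖ρ.π y‖ = ‖ρ.π z‖ ^ 2 := by
    rw [hy, map_mul, map_star, CStarRing.norm_star_mul_self, pow_two]
  set p : ℕ → A ⊗[ℂ] B := fun n => (fun x => y * x)^[n] y with hp
  have hpp : ∀ n m, star (p n) * p m = p (n + m + 1) := by
    intro n m
    simp only [hp]
    rw [star_iter y y hys, hys, Function.iterate_succ_apply']
  have hL : ∀ n, ‖ρ.Λ (p n)‖ ≤ ‖ρ.π y‖ ^ n * ‖ρ.Λ y‖ := by
    intro n
    induction n with
    | zero => simp [hp]
    | succ n ih =>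
      have : ρ.Λ (p (n + 1)) = ρ.π y (ρ.Λ (p n)) := by
        rw [ρ.π_apply]
        simp only [hp]
        rw [Function.iterate_succ_apply']
      rw [this]
      refine (ContinuousLinearMap.le_opNorm _ _).trans ?_
      rw [pow_succ']
      calc ‖ρ.π y‖ * ‖ρ.Λ (p n)‖ ≤ ‖ρ.π y‖ * (‖ρ.π y‖ ^ n * ‖ρ.Λ y‖) := by gcongr
        _ = _ := by ring
  refine le_of_forall_gt_imp_ge_of_dense fun M hM => ?_
  rw [← hpy] at hM
  have hM0 : 0 < M := lt_of_le_of_lt (norm_nonneg _) hM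
  have := growth (fun n => if n = 0 then 1 else (F' (p (n - 1))).re)
    (c * ‖ρ.Λ y‖ ^ 2 / M ^ 2) M hM0.le (by simp) ?_ ?_
  · simpa [hp] using this
  · intro n
    rcases n with _ | m
    · simp
    · have h1 := sq (p m)
      rw [hpp] at h1
      have h2 : (F' (p m)).re ^ 2 ≤ ‖F' (p m)‖ ^ 2 := by
        rw [← sq_abs]
        exact pow_le_pow_left₀ (abs_nonneg _) (Complex.abs_re_le_norm _) 2
      simp only [Nat.add_eq_zero_iff, one_ne_zero, and_false, if_false, if_true, one_mul,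
        Nat.add_sub_cancel]
      rw [if_neg (by omega)]
      have h3 : 2 * (m + 1) - 1 = m + m + 1 := by omega
      rw [h3]
      exact h2.trans h1
  · intro k
    rw [if_neg (by positivity)]
    obtain ⟨j, hj⟩ : ∃ j, 2 ^ k = j + 1 := ⟨2 ^ k - 1, by have := Nat.one_le_two_pow (n := k); omega⟩
    have e1 : 2 ^ (k + 1) = 2 * (j + 1) := by rw [pow_succ, hj]; ring
    rw [e1, show 2 * (j + 1) - 1 = j + j + 1 by omega, ← hpp]
    refine (hle _).trans ?_
    rw [← hn]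
    have h1 : ‖ρ.Λ (p j)‖ ≤ M ^ j * ‖ρ.Λ y‖ := (hL j).trans (by gcongr)
    calc c * ‖ρ.Λ (p j)‖ ^ 2 ≤ c * (M ^ j * ‖ρ.Λ y‖) ^ 2 := by gcongr
      _ = c * ‖ρ.Λ y‖ ^ 2 / M ^ 2 * M ^ (2 * (j + 1)) := by
          field_simp
          ring

end norming

section gauge

variable {D : Type} [NonUnitalCStarAlgebra D]

theorem norm_hom_evT_le (w : Gam × Gam) (σ : Tn w →⋆ₙₐ[ℂ] D) (y : Vf) :
    ‖σ (evT w y)‖ ≤ cost w y := by
  have e : evT w y = ∑ p ∈ y.support, ((y p : ℝ) : ℂ) • pur w p := rfl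
  rw [e, map_sum]
  refine (norm_sum_le _ _).trans (Finset.sum_le_sum fun p _ => ?_)
  rw [map_smul, norm_smul, Complex.norm_real, Real.norm_eq_abs]
  exact mul_le_mul_of_nonneg_left (norm_hom_tmul_le σ _ _) (abs_nonneg _)

theorem gau_ge (w : Gam × Gam) (σ : Tn w →⋆ₙₐ[ℂ] D) (z x : Vf)
    (hx : ∀ w, evT w x = star (evT w z) * evT w z) : ‖σ (evT w z)‖ ^ 2 ≤ gau w x := by
  letI := CStarAlgebra.spectralOrder D
  letI := CStarAlgebra.spectralOrderedRing D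
  have hpos : ∀ v, Pos v → 0 ≤ σ (evT w v) + star (σ (evT w v)) := by
    intro v hv
    induction hv with
    | sq s x h =>
      rw [h, map_mul, map_star, star_mul, star_star]
      have := star_mul_self_nonneg (σ (evT w s))
      exact add_nonneg this this
    | skew x h =>
      rw [← map_star, h w, map_neg, add_neg_cancel]
    | add x y _ _ hx hy =>
      rw [map_add, map_add, star_add]
      have := add_nonneg hx hy
      refine this.trans_eq ?_
      abel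
    | smul q x hq _ hx =>
      rw [evT_smul, map_smul, star_smul]
      have hq' : (0 : ℝ) ≤ q := by exact_mod_cast hq
      have := smul_nonneg hq' hx
      refine this.trans_eq ?_
      rw [smul_add, Complex.star_def, Complex.conj_ofReal]
      rfl
  refine le_gau w x _ fun y hy => ?_
  have h1 := hpos _ hy
  have e1 : σ (evT w x) + star (σ (evT w x)) ≤ σ (evT w y) + star (σ (evT w y)) := by
    rw [map_sub, map_sub, star_sub] at h1
    rw [← sub_nonneg]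
    refine h1.trans_eq ?_
    abel
  have e2 : σ (evT w x) + star (σ (evT w x)) = (2 : ℂ) • (star (σ (evT w z)) * σ (evT w z)) := by
    rw [hx, map_mul, map_star, star_mul, star_star, two_smul]
  have e3 : 0 ≤ σ (evT w x) + star (σ (evT w x)) := hpos _ (Pos.sq z x hx)
  have h2 := CStarAlgebra.norm_le_norm_of_nonneg_of_le e3 e1
  rw [e2, norm_smul, CStarRing.norm_star_mul_self] at h2
  have h3 : ‖σ (evT w y) + star (σ (evT w y))‖ ≤ cost w y + cost w y := by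
    refine (norm_add_le _ _).trans ?_
    rw [norm_star]
    exact add_le_add (norm_hom_evT_le w σ y) (norm_hom_evT_le w σ y)
  have h4 : ‖(2 : ℂ)‖ = 2 := by simp
  rw [h4] at h2
  rw [sq]
  linarith

end gauge

end Pool.Agent.H60MT
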