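import Pool.Agent.H60MT.Norming

/-!
# The algebraic tensor product has enough representations
-/

set_option autoImplicit false
set_option linter.all false

open scoped InnerProductSpace Topology TensorProduct
open Filter

namespace Pool.Agent.H60MT

section

variable (w : Gam × Gam) (ξ η : Hs)

/-- Evaluation at a vector. -/
noncomputable def evalAt (γ : Gam) (ξ : Hs) : cstar γ →ₗ[ℂ] Hs where
  toFun a := (a : BH) ξ
  map_add' a b := rfl
  map_smul' c a := rfl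

/-- The action on a product vector. -/
noncomputable def act : Tn w →ₗ[ℂ] (Hs ⊗[ℂ] Hs) :=
  TensorProduct.map (evalAt w.1 ξ) (evalAt w.2 η)

theorem act_tmul (a : cstar w.1) (b : cstar w.2) :
    act w ξ η (a ⊗ₜ b) = ((a : BH) ξ) ⊗ₜ[ℂ] ((b : BH) η) := rfl

/-- The product vector functional. -/
noncomputable def vecF : Tn w →ₗ[ℂ] ℂ :=
  (innerₛₗ ℂ (ξ ⊗ₜ[ℂ] η : Hs ⊗[ℂ] Hs)) ∘ₗ act w ξ η

theorem vecF_tmul (a : cstar w.1) (b : cstar w.2) :
    vecF w ξ η (a ⊗ₜ b) = ⟪ξ, (a : BH) ξ⟫_ℂ * ⟪η, (b : BH) η⟫_ℂ := by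
  change ⟪(ξ ⊗ₜ[ℂ] η : Hs ⊗[ℂ] Hs), ((a : BH) ξ) ⊗ₜ[ℂ] ((b : BH) η)⟫_ℂ = _
  rw [TensorProduct.inner_tmul]

theorem inner_star_apply (γ : Gam) (a b : cstar γ) (ξ : Hs) :
    ⟪ξ, ((star a * b : cstar γ) : BH) ξ⟫_ℂ = ⟪(a : BH) ξ, (b : BH) ξ⟫_ℂ := by
  change ⟪ξ, (star (a : BH)) ((b : BH) ξ)⟫_ℂ = _
  rw [ContinuousLinearMap.star_eq_adjoint, ContinuousLinearMap.adjoint_inner_right]

theorem inner_act (x y : Tn w) : ⟪act w ξ η x, act w ξ η y⟫_ℂ = vecF w ξ η (star x * y) := by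
  induction x using TensorProduct.induction_on with
  | zero => simp
  | add x x' hx hx' => rw [map_add, inner_add_left, hx, hx', star_add, add_mul, map_add]
  | tmul a b =>
    induction y using TensorProduct.induction_on with
    | zero => simp
    | add x x' hx hx' => rw [map_add, inner_add_right, hx, hx', mul_add, map_add]
    | tmul a' b' =>
      rw [act_tmul, act_tmul, TensorProduct.inner_tmul, TensorProduct.star_tmul,
        Algebra.TensorProduct.tmul_mul_tmul, vecF_tmul, inner_star_apply, inner_star_apply]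

theorem vecF_herm (z : Tn w) : vecF w ξ η (star z) = star (vecF w ξ η z) := by
  induction z using TensorProduct.induction_on with
  | zero => simp
  | add x x' hx hx' => rw [map_add, star_add, map_add, hx, hx', star_add]
  | tmul a b =>
    rw [TensorProduct.star_tmul, vecF_tmul, vecF_tmul, star_mul', Complex.star_def,
      inner_conj_symm, inner_conj_symm]
    change ⟪ξ, (star (a : BH)) ξ⟫_ℂ * ⟪η, (star (b : BH)) η⟫_ℂ = _
    rw [ContinuousLinearMap.star_eq_adjoint, ContinuousLinearMap.adjoint_inner_right,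
      ContinuousLinearMap.star_eq_adjoint, ContinuousLinearMap.adjoint_inner_right]

theorem vecF_pos (z : Tn w) : 0 ≤ (vecF w ξ η (star z * z)).re := by
  rw [← inner_act]
  exact inner_self_nonneg (𝕜 := ℂ) (x := act w ξ η z)

theorem vecF_bd (a : cstar w.1) (b : cstar w.2) :
    ‖vecF w ξ η (a ⊗ₜ b)‖ ≤ (‖ξ‖ ^ 2 * ‖η‖ ^ 2) * (‖a‖ * ‖b‖) := by
  rw [vecF_tmul, norm_mul]
  have h1 : ‖⟪ξ, (a : BH) ξ⟫_ℂ‖ ≤ ‖ξ‖ * (‖a‖ * ‖ξ‖) :=
    (norm_inner_le_norm _ _).trans (by gcongr; exact (a : BH).le_opNorm ξ)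
  have h2 : ‖⟪η, (b : BH) η⟫_ℂ‖ ≤ ‖η‖ * (‖b‖ * ‖η‖) :=
    (norm_inner_le_norm _ _).trans (by gcongr; exact (b : BH).le_opNorm η)
  calc _ ≤ (‖ξ‖ * (‖a‖ * ‖ξ‖)) * (‖η‖ * (‖b‖ * ‖η‖)) := by gcongr
    _ = _ := by ring

theorem vecF_gf : GF (vecF w ξ η) := gf_of (vecF_herm w ξ η) (vecF_pos w ξ η) (vecF_bd w ξ η)

end

theorem eq_zero_of_act (w : Gam × Gam) (z : Tn w)
    (h : ∀ (ξ η : Hs) (c : cstar w.1) (d : cstar w.2), act w ξ η (z * (c ⊗ₜ d)) = 0) : z = 0 := by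
  classical
  set ℬ := Module.Basis.ofVectorSpace ℂ (cstar w.2) with hℬ
  obtain ⟨a, ha⟩ := TensorProduct.eq_repr_basis_right (M := cstar w.1) ℬ z
  have key : ∀ i, a i = 0 := by
    have h1 : ∀ (c : cstar w.1) (ζ ξ : Hs), ∀ i, ⟪ζ, ((a i * c : cstar w.1) : BH) ξ⟫_ℂ = 0 := by
      intro c ζ ξ
      set b : cstar w.2 := a.sum fun i m => ⟪ζ, ((m * c : cstar w.1) : BH) ξ⟫_ℂ • ℬ i with hb
      have hbd : ∀ d : cstar w.2, b * d = 0 := by
        intro d
        apply Subtype.ext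
        refine ContinuousLinearMap.ext fun η => ?_
        refine ext_inner_left ℂ fun θ => ?_
        have h2 := h ξ η c d
        have h3 : ⟪(ζ ⊗ₜ[ℂ] θ : Hs ⊗[ℂ] Hs), act w ξ η (z * (c ⊗ₜ d))⟫_ℂ = 0 := by
          rw [h2, inner_zero_right]
        rw [← ha, Finsupp.sum, Finset.sum_mul, map_sum, inner_sum] at h3
        have h4 : ∀ i, ⟪(ζ ⊗ₜ[ℂ] θ : Hs ⊗[ℂ] Hs), act w ξ η ((a i ⊗ₜ[ℂ] ℬ i) * (c ⊗ₜ d))⟫_ℂ =
            ⟪ζ, ((a i * c : cstar w.1) : BH) ξ⟫_ℂ * ⟪θ, ((ℬ i * d : cstar w.2) : BH) η⟫_ℂ := by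
          intro i
          rw [Algebra.TensorProduct.tmul_mul_tmul, act_tmul, TensorProduct.inner_tmul]
        simp only [h4] at h3
        have h5 : ((b * d : cstar w.2) : BH) η = ∑ i ∈ a.support,
            ⟪ζ, ((a i * c : cstar w.1) : BH) ξ⟫_ℂ • (((ℬ i * d : cstar w.2) : BH) η) := by
          rw [hb, Finsupp.sum, Finset.sum_mul]
          have : ((∑ i ∈ a.support, ((⟪ζ, ((a i * c : cstar w.1) : BH) ξ⟫_ℂ • ℬ i) * d) :
            cstar w.2) : BH) = ∑ i ∈ a.support,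
              ⟪ζ, ((a i * c : cstar w.1) : BH) ξ⟫_ℂ • ((ℬ i * d : cstar w.2) : BH) := by
            rw [AddSubmonoidClass.coe_finset_sum]
            refine Finset.sum_congr rfl fun i _ => ?_
            rw [smul_mul_assoc]
            rfl
          rw [this, ContinuousLinearMap.sum_apply]
          rfl
        rw [h5, inner_sum]
        simp only [inner_smul_right]
        rw [h3]
        simp
      have hb0 : b = 0 := by
        have := hbd (star b)
        exact CStarRing.mul_star_self_eq_zero_iff b |>.1 this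
      intro i
      by_cases hi : i ∈ a.support
      · have h6 := linearIndependent_iff'.1 ℬ.linearIndependent a.support
          (fun i => ⟪ζ, ((a i * c : cstar w.1) : BH) ξ⟫_ℂ) (by rw [← hb0, hb]; rfl) i hi
        exact h6
      · rw [Finsupp.notMem_support_iff.1 hi]
        rw [zero_mul]
        exact inner_zero_right _
    intro i
    have h2 : a i * star (a i) = 0 := by
      apply Subtype.ext
      refine ContinuousLinearMap.ext fun ξ => ?_
      refine ext_inner_left ℂ fun ζ => ?_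
      rw [h1 (star (a i)) ζ ξ i]
      exact (inner_zero_right _).symm
    exact CStarRing.mul_star_self_eq_zero_iff _ |>.1 h2
  have h0 : a = 0 := Finsupp.ext key
  rw [← ha, h0, Finsupp.sum_zero_index]

/-- The algebraic tensor product has enough representations. -/
theorem exists_hom_ne_zero (w : Gam × Gam) (z : Tn w) (hz : z ≠ 0) :
    ∃ (K : Type) (_ : NormedAddCommGroup K) (_ : InnerProductSpace ℂ K) (_ : CompleteSpace K)
      (σ : Tn w →⋆ₙₐ[ℂ] (K →L[ℂ] K)), σ z ≠ 0 := by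
  by_contra hcon
  apply hz
  apply eq_zero_of_act
  intro ξ η c d
  obtain ⟨ρ⟩ := nonempty_gns (vecF_gf w ξ η)
  have h1 : ρ.π z = 0 := by
    by_contra h2
    exact hcon ⟨ρ.K, ρ.i1, ρ.i2, ρ.i3, ρ.π, h2⟩
  have h2 : ρ.Λ (z * (c ⊗ₜ d)) = 0 := by
    rw [← ρ.π_apply, h1]; rfl
  have h3 : ⟪act w ξ η (z * (c ⊗ₜ d)), act w ξ η (z * (c ⊗ₜ d))⟫_ℂ = 0 := by
    rw [inner_act, ← ρ.inner_eq, h2, inner_zero_left]
  exact inner_self_eq_zero.1 h3

end Pool.Agent.H60MT
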