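import Mathlib

/-!
# Coded separable C*-algebras and the maximal tensor product: definitions
-/

set_option autoImplicit false

open scoped TensorProduct

namespace Pool.Agent.H60MT

/-- The C*-algebra generated by a subset `s` of a C*-algebra: the norm closure of the (non-unital)
*-algebra generated by `s`. -/
def GenCStar {A : Type} [CStarAlgebra A] (s : Set A) : Type :=
  (NonUnitalStarAlgebra.adjoin ℂ s).topologicalClosure

theorem genCStar_isClosed {A : Type} [CStarAlgebra A] (s : Set A) :
    IsClosed (((NonUnitalStarAlgebra.adjoin ℂ s).topologicalClosure :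
      NonUnitalStarSubalgebra ℂ A) : Set A) :=
  NonUnitalStarSubalgebra.isClosed_topologicalClosure _

noncomputable instance genCStarInst {A : Type} [CStarAlgebra A] (s : Set A) :
    NonUnitalCStarAlgebra (GenCStar s) :=
  NonUnitalStarSubalgebra.nonUnitalCStarAlgebra
    (NonUnitalStarAlgebra.adjoin ℂ s).topologicalClosure (h_closed := genCStar_isClosed s)

section codes

variable (H : Type) [NormedAddCommGroup H] [InnerProductSpace ℂ H]

set_option warn.classDefReducibility false in
/-- The Borel structure of `B(H)` generated by the weakly open sets. -/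
noncomputable def opBorel : MeasurableSpace (H →L[ℂ] H) :=
  (borel (H →WOT[ℂ] H)).comap ContinuousLinearMapWOT.ofCLM

/-- The space `Γ(H) = B(H)^ℕ` of codes. -/
def Codes : Type := ℕ → (H →L[ℂ] H)

/-- The product Borel structure of `Γ(H)`. -/
noncomputable instance codesMeas : MeasurableSpace (Codes H) :=
  @MeasurableSpace.pi ℕ (fun _ => H →L[ℂ] H) (fun _ => opBorel H)

variable {H} [CompleteSpace H]

/-- The C*-algebra `C*(γ)` generated by the operators `γ n`. -/
abbrev CStarOf (γ : Codes H) : Type := GenCStar (Set.range fun n : ℕ => γ n)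

end codes

/-- C*-norms on a complex *-algebra. -/
structure IsCStarNorm {R : Type} [NonUnitalRing R] [StarRing R] [Module ℂ R] (p : R → ℝ) :
    Prop where
  add_le : ∀ x y, p (x + y) ≤ p x + p y
  smul : ∀ (c : ℂ) (x : R), p (c • x) = ‖c‖ * p x
  mul_le : ∀ x y, p (x * y) ≤ p x * p y
  star_mul : ∀ x, p (star x * x) = p x ^ 2
  eq_zero : ∀ x, p x = 0 → x = 0

/-- *-homomorphisms. -/
structure IsStarHom {R S : Type} [NonUnitalRing R] [StarRing R] [Module ℂ R] [NonUnitalRing S]
    [StarRing S] [Module ℂ S] (f : R → S) : Prop where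
  add : ∀ x y, f (x + y) = f x + f y
  smul : ∀ (c : ℂ) (x : R), f (c • x) = c • f x
  mul : ∀ x y, f (x * y) = f x * f y
  star : ∀ x, f (star x) = star (f x)

/-- `C` is (isomorphic to) the maximal tensor product of the C*-algebras `A` and `B`: the completion
of the algebraic tensor product in its largest C*-norm. -/
def IsMaxTensor (A B C : Type) [NonUnitalCStarAlgebra A] [NonUnitalCStarAlgebra B]
    [NonUnitalCStarAlgebra C] : Prop :=
  ∃ ι : A ⊗[ℂ] B → C, IsStarHom ι ∧ DenseRange ι ∧ IsCStarNorm (fun z => ‖ι z‖) ∧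
    ∀ p : A ⊗[ℂ] B → ℝ, IsCStarNorm p → ∀ z, p z ≤ ‖ι z‖

end Pool.Agent.H60MT
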