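import Pool.Agent.H60MT.Borel

/-!
# Formal *-polynomials
-/

set_option autoImplicit false
set_option linter.all false

open scoped TensorProduct InnerProductSpace Topology
open MeasureTheory Filter

namespace Pool.Agent.H60MT

/-- Formal *-polynomials without constant term, with coefficients in `ℚ(i)`. -/
inductive Tm : Type
  | var : ℕ → Tm
  | zero : Tm
  | add : Tm → Tm → Tm
  | mul : Tm → Tm → Tm
  | adj : Tm → Tm
  | smul : ℚ → Tm → Tm
  | im : Tm → Tm
  deriving Countable

namespace Tm

/-- Evaluation. -/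
noncomputable def ev (γ : Gam) : Tm → BH
  | var n => γ n
  | zero => 0
  | add s t => ev γ s + ev γ t
  | mul s t => ev γ s * ev γ t
  | adj s => star (ev γ s)
  | smul q s => ((q : ℝ) : ℂ) • ev γ s
  | im s => Complex.I • ev γ s

theorem ev_mem (γ : Gam) (t : Tm) : ev γ t ∈ cstar γ := by
  induction t with
  | var n =>
    have h : γ n ∈ NonUnitalStarAlgebra.adjoin ℂ (Set.range fun n : ℕ => γ n) :=
      NonUnitalStarAlgebra.subset_adjoin ℂ _ ⟨n, rfl⟩
    exact NonUnitalStarSubalgebra.le_topologicalClosure _ h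
  | zero => exact zero_mem _
  | add s t hs ht => exact add_mem hs ht
  | mul s t hs ht => exact mul_mem hs ht
  | adj s hs => exact star_mem hs
  | smul q s hs => exact SMulMemClass.smul_mem _ hs
  | im s hs => exact SMulMemClass.smul_mem _ hs

/-- Evaluation in the coded algebra. -/
noncomputable def evA (γ : Gam) (t : Tm) : cstar γ := ⟨ev γ t, ev_mem γ t⟩

theorem wm_ev (t : Tm) : WM fun γ : Gam => ev γ t := by
  induction t with
  | var n => exact wm_coord n
  | zero => intro x y; simpa [ev] using measurable_const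
  | add s t hs ht => exact hs.add ht
  | mul s t hs ht => exact hs.mul ht
  | adj s hs => exact hs.adj
  | smul q s hs => exact hs.smul _
  | im s hs => exact hs.smul _

theorem measurable_norm (t : Tm) : Measurable fun γ : Gam => ‖evA γ t‖ := (wm_ev t).norm

@[simp] theorem evA_zero (γ : Gam) : evA γ zero = 0 := rfl
@[simp] theorem evA_add (γ : Gam) (s t : Tm) : evA γ (add s t) = evA γ s + evA γ t := rfl
@[simp] theorem evA_mul (γ : Gam) (s t : Tm) : evA γ (mul s t) = evA γ s * evA γ t := rfl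
@[simp] theorem evA_adj (γ : Gam) (s : Tm) : evA γ (adj s) = star (evA γ s) := rfl
@[simp] theorem evA_smul (γ : Gam) (q : ℚ) (s : Tm) :
    evA γ (smul q s) = ((q : ℝ) : ℂ) • evA γ s := rfl
@[simp] theorem evA_im (γ : Gam) (s : Tm) : evA γ (im s) = Complex.I • evA γ s := rfl

theorem real_smul_mem {X : Type*} [NormedAddCommGroup X] [NormedSpace ℂ X] {S : Set X}
    (h : ∀ q : ℚ, ∀ x ∈ S, ((q : ℝ) : ℂ) • x ∈ S) (r : ℝ) {x : X} (hx : x ∈ closure S) :
    (r : ℂ) • x ∈ closure S := by
  have h1 : ∀ q : ℚ, ∀ x ∈ closure S, ((q : ℝ) : ℂ) • x ∈ closure S := fun q x hx =>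
    map_mem_closure (by fun_prop) hx (h q)
  have hd : DenseRange ((↑) : ℚ → ℝ) := Rat.denseRange_cast
  refine hd.induction_on (p := fun r : ℝ => (r : ℂ) • x ∈ closure S) r ?_ fun q => h1 q x hx
  exact isClosed_closure.preimage (by fun_prop)

theorem denseRange_evA (γ : Gam) : DenseRange (evA γ) := by
  set S : Set BH := Set.range (ev γ) with hS
  have hadd : ∀ x ∈ closure S, ∀ y ∈ closure S, x + y ∈ closure S := by
    intro x hx y hy
    refine map_mem_closure₂ continuous_add hx hy ?_
    rintro _ ⟨s, rfl⟩ _ ⟨t, rfl⟩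
    exact ⟨add s t, rfl⟩
  have hmul : ∀ x ∈ closure S, ∀ y ∈ closure S, x * y ∈ closure S := by
    intro x hx y hy
    refine map_mem_closure₂ continuous_mul hx hy ?_
    rintro _ ⟨s, rfl⟩ _ ⟨t, rfl⟩
    exact ⟨mul s t, rfl⟩
  have hstar : ∀ x ∈ closure S, star x ∈ closure S := by
    intro x hx
    refine map_mem_closure continuous_star hx ?_
    rintro _ ⟨s, rfl⟩
    exact ⟨adj s, rfl⟩
  have hI : ∀ x ∈ closure S, Complex.I • x ∈ closure S := by
    intro x hx
    refine map_mem_closure (continuous_const_smul _) hx ?_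
    rintro _ ⟨s, rfl⟩
    exact ⟨im s, rfl⟩
  have hr : ∀ (r : ℝ), ∀ x ∈ closure S, (r : ℂ) • x ∈ closure S := by
    intro r x hx
    refine real_smul_mem ?_ r hx
    rintro q _ ⟨s, rfl⟩
    exact ⟨smul q s, rfl⟩
  have hc : ∀ (c : ℂ), ∀ x ∈ closure S, c • x ∈ closure S := by
    intro c x hx
    have : c • x = (c.re : ℂ) • x + (c.im : ℂ) • (Complex.I • x) := by
      rw [smul_smul, ← add_smul, Complex.re_add_im]
    rw [this]
    exact hadd _ (hr _ _ hx) _ (hr _ _ (hI _ hx))
  let W : NonUnitalStarSubalgebra ℂ BH :=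
    { carrier := closure S
      add_mem' := fun {x y} hx hy => hadd x hx y hy
      zero_mem' := subset_closure ⟨zero, rfl⟩
      mul_mem' := fun {x y} hx hy => hmul x hx y hy
      smul_mem' := fun c x hx => hc c x hx
      star_mem' := fun {x} hx => hstar x hx }
  have hle : cstar γ ≤ W := by
    refine NonUnitalStarSubalgebra.topologicalClosure_minimal _ ?_ isClosed_closure
    refine NonUnitalStarAlgebra.adjoin_le ?_
    rintro _ ⟨n, rfl⟩
    exact subset_closure ⟨var n, rfl⟩
  intro x
  rw [Topology.IsInducing.subtypeVal.closure_eq_preimage_closure_image]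
  have h1 : (x : BH) ∈ closure S := hle x.2
  have h2 : (Subtype.val '' Set.range (evA γ)) = S := by
    ext y
    constructor
    · rintro ⟨_, ⟨t, rfl⟩, rfl⟩; exact ⟨t, rfl⟩
    · rintro ⟨t, rfl⟩; exact ⟨_, ⟨t, rfl⟩, rfl⟩
  rw [Set.mem_preimage]
  exact h2.symm ▸ h1

end Tm

end Pool.Agent.H60MT
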